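import Mathlib

attribute [-instance] AddQuantale.instAddLeftMono Fintype.decidableForallFintype
  IdemSemiring.toCanonicallyOrderedAdd RKHS.instFunLike IdemSemiring.toMulLeftMono
  NumberField.to_charZero AddQuantale.instAddRightMono IsOrderedMonoid.toMulLeftMono
  Quantale.instMulLeftMono Quantale.instMulRightMono Finset.decidableDforallFinset
  Multiset.decidableDforallMultiset instCoeTOfCoeDep
  Vector.instDecidableForallForallMemOfDecidablePred Int.decidableLTLE TestFunctionClass.toDFunLike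
  Array.instDecidableForallForallMemOfDecidablePred Option.decidableForallMem
  IdemSemiring.toMulRightMono CompletePartialOrder.toPartialOrder CanonicallyOrderedAdd.toMulLeftMono
  littleWedderburn Int.decidableLTLT MonTypeEquivalenceMon.monMonoid Int.decidableLELE
  ContDiffMapSupportedInClass.toDFunLike Int.decidableLELT
  AlgHom.instNonUnitalAlgHomClassOfAlgHomClass instCharZeroOfIsSemireal instCoeHTCOfCoeHeadOfCoeOTC
  NeZero.of_gt' instCoeOTCOfCoeOut Group.IsPerfect.subsingleton_of_isMulCommutative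
  AddGroupWithOne.toIntCast forall_prop_decidable EquivLike.toFunLike Invertible.toNeZero
  instCoeTCOfCoe CanonicallyOrderedMul.toMulLeftMono instNonUnitalAlgHomClassOfNonUnitalAlgEquivClass

-- part MP_158692_nt.Basic
section

/-! Parity paths of the map `T`, sums over paths and binomial means. -/

namespace Pool.Agent.MP_158692_nt

open Finset

/-- parity paths of length `M`; the Boolean is the LAST forward step (`true` = odd step) -/
def Pth : ℕ → Type
  | 0 => Unit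
  | M + 1 => Bool × Pth M

instance finPth : ∀ M, Fintype (Pth M)
  | 0 => inferInstanceAs (Fintype Unit)
  | M + 1 => @instFintypeProd Bool (Pth M) _ (finPth M)

/-- number of odd steps -/
def kk : ∀ M, Pth M → ℕ
  | 0, _ => 0
  | M + 1, p => if p.1 then kk M p.2 + 1 else kk M p.2

/-- the offset `G` in `2 ^ M * T^[M] n = 3 ^ k * n + G` -/
def GG : ∀ M, Pth M → ℕ
  | 0, _ => 0
  | M + 1, p => if p.1 then 2 ^ M + 3 * GG M p.2 else GG M p.2

/-- sum of `F k G` over all paths of length `M` -/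
def Sm {E : Type*} [AddCommMonoid E] (M : ℕ) (F : ℕ → ℕ → E) : E :=
  ∑ p : Pth M, F (kk M p) (GG M p)

/-- what every pair `(k, G)` of a path of length `M` satisfies -/
structure Adm (M k G : ℕ) : Prop where
  k_le : k ≤ M
  G_le : G + 2 ^ M ≤ 3 ^ M
  G_le' : G ≤ 2 ^ M * 3 ^ k
  G_zero : k = 0 → G = 0
  not_dvd : 0 < k → ¬ 3 ∣ G

theorem Adm.zero : Adm 0 0 0 := ⟨le_rfl, by simp, by simp, fun _ => rfl, fun h => absurd h (by simp)⟩

theorem Adm.even {M k G : ℕ} (h : Adm M k G) : Adm (M + 1) k G := by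
  have h1 := h.G_le; have h2 := h.G_le'
  refine ⟨h.k_le.trans (Nat.le_succ _), ?_, ?_, h.G_zero, h.not_dvd⟩
  · rw [pow_succ, pow_succ]; omega
  · rw [pow_succ]; linarith only [h2]

theorem Adm.odd {M k G : ℕ} (h : Adm M k G) : Adm (M + 1) (k + 1) (2 ^ M + 3 * G) := by
  have h1 := h.G_le; have h2 := h.G_le'
  refine ⟨Nat.succ_le_succ h.k_le, ?_, ?_, fun h => absurd h (by simp), fun _ h3 => ?_⟩
  · rw [pow_succ, pow_succ]; omega
  · have : 1 ≤ 3 ^ k := Nat.one_le_pow _ _ (by norm_num)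
    rw [pow_succ, pow_succ]; nlinarith [Nat.zero_le (2 ^ M)]
  · have : 3 ∣ 2 ^ M := (Nat.dvd_add_left (dvd_mul_right 3 G)).1 h3
    have := Nat.prime_three.dvd_of_dvd_pow this
    omega

theorem adm_path : ∀ M (p : Pth M), Adm M (kk M p) (GG M p)
  | 0, _ => Adm.zero
  | M + 1, (true, p) => (adm_path M p).odd
  | M + 1, (false, p) => (adm_path M p).even

section
variable {E : Type*} [AddCommMonoid E]

theorem Sm_zero (F : ℕ → ℕ → E) : Sm 0 F = F 0 0 := Fintype.sum_unique (ι := Unit) _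

theorem Sm_succ (M : ℕ) (F : ℕ → ℕ → E) :
    Sm (M + 1) F = Sm M F + Sm M (fun k G => F (k + 1) (2 ^ M + 3 * G)) := by
  have : Sm (M + 1) F = ∑ p : Bool × Pth M, F (kk (M + 1) p) (GG (M + 1) p) := rfl
  rw [this, Fintype.sum_prod_type, Fintype.sum_bool, add_comm]
  rfl

theorem Sm_add (M : ℕ) (F F' : ℕ → ℕ → E) :
    Sm M (fun k G => F k G + F' k G) = Sm M F + Sm M F' := sum_add_distrib

theorem Sm_congr {M : ℕ} {F F' : ℕ → ℕ → E} (h : ∀ k G, Adm M k G → F k G = F' k G) :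
    Sm M F = Sm M F' := sum_congr rfl fun p _ => h _ _ (adm_path M p)

theorem Sm_sum {ι : Type*} (M : ℕ) (s : Finset ι) (F : ι → ℕ → ℕ → E) :
    Sm M (fun k G => ∑ i ∈ s, F i k G) = ∑ i ∈ s, Sm M (F i) := sum_comm

/-- concatenation; the first block `M1` is the LATER one in forward time -/
theorem Sm_add_len (M1 M2 : ℕ) (F : ℕ → ℕ → E) :
    Sm (M1 + M2) F =
      Sm M1 (fun k1 G1 => Sm M2 (fun k2 G2 => F (k1 + k2) (G1 * 2 ^ M2 + 3 ^ k1 * G2))) := by
  induction M1 generalizing F with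
  | zero => simp [Sm_zero]
  | succ M1 ih =>
    rw [show M1 + 1 + M2 = M1 + M2 + 1 by ring, Sm_succ, Sm_succ, ih, ih]
    congr 1
    refine Sm_congr fun k1 G1 _ => Sm_congr fun k2 G2 _ => ?_
    congr 1 <;> ring

theorem Sm_one (F : ℕ → ℕ → E) : Sm 1 F = F 0 0 + F 1 1 := by
  rw [Sm_succ, Sm_zero, Sm_zero]; simp

theorem Sm_succ' (M : ℕ) (F : ℕ → ℕ → E) :
    Sm (M + 1) F = Sm M (fun k G => F k (2 * G) + F (k + 1) (2 * G + 3 ^ k)) := by
  rw [Sm_add_len]
  refine Sm_congr fun k G _ => ?_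
  rw [Sm_one]; simp [mul_comm]

end

theorem Sm_le {M : ℕ} {F F' : ℕ → ℕ → ℝ} (h : ∀ k G, Adm M k G → F k G ≤ F' k G) :
    Sm M F ≤ Sm M F' := sum_le_sum fun p _ => h _ _ (adm_path M p)

theorem Sm_nonneg {M : ℕ} {F : ℕ → ℕ → ℝ} (h : ∀ k G, Adm M k G → 0 ≤ F k G) : 0 ≤ Sm M F :=
  sum_nonneg fun p _ => h _ _ (adm_path M p)

theorem Sm_mul {R : Type*} [CommRing R] (M : ℕ) (c : R) (F : ℕ → ℕ → R) :
    Sm M (fun k G => c * F k G) = c * Sm M F := (mul_sum _ _ _).symm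

theorem Sm_sub {R : Type*} [CommRing R] (M : ℕ) (F F' : ℕ → ℕ → R) :
    Sm M (fun k G => F k G - F' k G) = Sm M F - Sm M F' := sum_sub_distrib _ _

theorem Sm_const {R : Type*} [CommRing R] (M : ℕ) (c : R) : Sm M (fun _ _ => c) = 2 ^ M * c := by
  induction M with
  | zero => simp [Sm_zero]
  | succ M ih => rw [Sm_succ, ih]; ring

theorem Sm_abs_le (M : ℕ) (F : ℕ → ℕ → ℝ) : |Sm M F| ≤ Sm M (fun k G => |F k G|) :=
  abs_sum_le_sum_abs _ _

theorem Sm_norm_le (M : ℕ) (F : ℕ → ℕ → ℂ) : ‖Sm M F‖ ≤ Sm M (fun k G => ‖F k G‖) :=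
  norm_sum_le _ _

theorem Sm_G (M : ℕ) : Sm M (fun _ G => (G : ℝ)) = M * 4 ^ M / 4 := by
  induction M with
  | zero => simp [Sm_zero]
  | succ M ih =>
    rw [Sm_succ, ih]
    push_cast
    rw [Sm_add, Sm_const, Sm_mul, ih, ← mul_pow]
    norm_num only []; ring

/-- a path is determined by its pair `(k, G)` -/
theorem Sm_ind_le (M k0 G0 : ℕ) :
    Sm M (fun k G => if k = k0 ∧ G = G0 then (1 : ℝ) else 0) ≤ 1 := by
  induction M generalizing k0 G0 with
  | zero => rw [Sm_zero]; split_ifs <;> norm_num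
  | succ M ih =>
    rw [Sm_succ']
    rcases Nat.even_or_odd' G0 with ⟨g, rfl | rfl⟩
    · refine le_trans (Sm_le fun k G _ => ?_) (ih k0 g)
      have h3 : 3 ^ k % 2 = 1 := Nat.odd_iff.1 (Odd.pow (by decide))
      have : ¬ (k + 1 = k0 ∧ 2 * G + 3 ^ k = 2 * g) := by omega
      rw [if_neg this, add_zero]
      split_ifs <;> first | omega | norm_num
    · refine le_trans (Sm_le fun k G _ => ?_) (ih (k0 - 1) ((2 * g + 1 - 3 ^ (k0 - 1)) / 2))
      have : ¬ (k = k0 ∧ 2 * G = 2 * g + 1) := by omega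
      rw [if_neg this, zero_add]
      by_cases h : k + 1 = k0 ∧ 2 * G + 3 ^ k = 2 * g + 1
      · obtain ⟨rfl, h⟩ := h
        rw [if_pos ⟨rfl, h⟩, if_pos ⟨by simp, by simp only [Nat.add_sub_cancel]; omega⟩]
      · rw [if_neg h]; split_ifs <;> norm_num

/-- mean of `F` under the binomial law with `N` fair trials -/
noncomputable def Bn (N : ℕ) (F : ℕ → ℝ) : ℝ := Sm N (fun k _ => F k) / 2 ^ N

theorem Bn_zero (F : ℕ → ℝ) : Bn 0 F = F 0 := by simp [Bn, Sm_zero]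

theorem Bn_succ (N : ℕ) (F : ℕ → ℝ) :
    Bn (N + 1) F = (Bn N F + Bn N (fun k => F (k + 1))) / 2 := by
  simp only [Bn, Sm_succ]; ring

theorem Bn_mono {N : ℕ} {F F' : ℕ → ℝ} (h : ∀ k ≤ N, F k ≤ F' k) : Bn N F ≤ Bn N F' :=
  div_le_div_of_nonneg_right (Sm_le fun k _ hk => h k hk.k_le) (by positivity)

theorem Bn_congr {N : ℕ} {F F' : ℕ → ℝ} (h : ∀ k ≤ N, F k = F' k) : Bn N F = Bn N F' :=
  le_antisymm (Bn_mono fun k hk => (h k hk).le) (Bn_mono fun k hk => (h k hk).ge)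

theorem Bn_add (N : ℕ) (F F' : ℕ → ℝ) : Bn N (fun k => F k + F' k) = Bn N F + Bn N F' := by
  simp only [Bn, Sm_add]; ring

theorem Bn_sub (N : ℕ) (F F' : ℕ → ℝ) : Bn N (fun k => F k - F' k) = Bn N F - Bn N F' := by
  simp only [Bn, Sm_sub]; ring

theorem Bn_mul (N : ℕ) (c : ℝ) (F : ℕ → ℝ) : Bn N (fun k => c * F k) = c * Bn N F := by
  simp only [Bn, Sm_mul]; ring

theorem Bn_const (N : ℕ) (c : ℝ) : Bn N (fun _ => c) = c := by
  simp only [Bn, Sm_const]; field_simp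

theorem Bn_sum {ι : Type*} (N : ℕ) (s : Finset ι) (F : ι → ℕ → ℝ) :
    Bn N (fun k => ∑ i ∈ s, F i k) = ∑ i ∈ s, Bn N (F i) := by
  simp only [Bn, Sm_sum, sum_div]

theorem Bn_nonneg {N : ℕ} {F : ℕ → ℝ} (h : ∀ k ≤ N, 0 ≤ F k) : 0 ≤ Bn N F :=
  (Bn_const N 0).symm.le.trans (Bn_mono h)

theorem Bn_abs_le (N : ℕ) (F : ℕ → ℝ) : |Bn N F| ≤ Bn N (fun k => |F k|) := by
  rw [Bn, abs_div, abs_of_pos (by positivity : (0 : ℝ) < 2 ^ N)]
  exact div_le_div_of_nonneg_right (Sm_abs_le _ _) (by positivity)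

theorem Bn_abs_le_of {N : ℕ} {F : ℕ → ℝ} {B : ℝ} (h : ∀ k, |F k| ≤ B) : |Bn N F| ≤ B :=
  (Bn_abs_le N F).trans ((Bn_mono fun k _ => h k).trans (Bn_const N B).le)

theorem Bn_succ_succ (N : ℕ) (F : ℕ → ℝ) : Bn (N + 2) F =
    Bn N F / 4 + Bn N (fun k => F (k + 1)) / 2 + Bn N (fun k => F (k + 2)) / 4 := by
  rw [Bn_succ, Bn_succ, Bn_succ]; ring

theorem Bn_pow (N : ℕ) (l : ℝ) : Bn N (fun k => l ^ k) = ((1 + l) / 2) ^ N := by
  induction N with
  | zero => simp [Bn_zero]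
  | succ N ih =>
    rw [Bn_succ]; simp only [pow_succ', Bn_mul, ih]; ring

theorem Bn_id (N : ℕ) : Bn N (fun k => (k : ℝ)) = N / 2 := by
  induction N with
  | zero => simp [Bn_zero]
  | succ N ih =>
    rw [Bn_succ]; push_cast; rw [Bn_add, Bn_const, ih]; ring

theorem Bn_var (N : ℕ) : Bn N (fun k => (2 * (k : ℝ) - N) ^ 2) = N := by
  induction N with
  | zero => simp [Bn_zero]
  | succ N ih =>
    rw [Bn_succ, ← Bn_add, Bn_congr (F' := fun k => 2 * (2 * (k : ℝ) - N) ^ 2 + 2)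
      (fun k _ => by push_cast; ring), Bn_add, Bn_mul, Bn_const, ih]
    push_cast; ring

theorem Bn_absdev (N : ℕ) : Bn N (fun k => |2 * (k : ℝ) - N|) ≤ √N := by
  rcases Nat.eq_zero_or_pos N with rfl | hN
  · simp [Bn_zero]
  have hs : 0 < √(N : ℝ) := Real.sqrt_pos.2 (by exact_mod_cast hN)
  have hq : √(N : ℝ) ^ 2 = N := Real.sq_sqrt (by positivity)
  refine (Bn_mono (F' := fun k => (2 * √N)⁻¹ * ((2 * (k : ℝ) - N) ^ 2 + N)) fun k _ => ?_).trans ?_
  · rw [← div_eq_inv_mul, le_div_iff₀ (by positivity), ← sq_abs (2 * (k : ℝ) - N)]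
    linarith only [sq_nonneg (|2 * (k : ℝ) - N| - √N), hq]
  · rw [Bn_mul, Bn_add, Bn_var, Bn_const, ← div_eq_inv_mul, div_le_iff₀ (by positivity)]
    linarith only [hq]

theorem Bn_stein (N : ℕ) (F : ℕ → ℝ) :
    Bn (N + 1) (fun k => (2 * (k : ℝ) - (N + 1 : ℕ)) * F k) =
      (N + 1) / 2 * (Bn N (fun k => F (k + 1)) - Bn N F) := by
  induction N generalizing F with
  | zero => simp only [zero_add, Nat.cast_one, Bn_succ, Bn_zero, CharP.cast_eq_zero, mul_zero, zero_sub, neg_mul, one_mul, Nat.cast_add, mul_one, one_div]; ring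
  | succ N ih =>
    rw [Bn_succ (N + 1),
      Bn_congr (F' := fun k => (2 * (k : ℝ) - (N + 1 : ℕ)) * F k - F k)
        (fun k _ => by push_cast; ring),
      Bn_congr (N := N + 1)
        (F := fun k => (2 * ((k + 1 : ℕ) : ℝ) - (N + 1 + 1 : ℕ)) * F (k + 1))
        (F' := fun k => (2 * (k : ℝ) - (N + 1 : ℕ)) * F (k + 1) + F (k + 1))
        (fun k _ => by push_cast; ring),
      Bn_sub, Bn_add, ih, ih (fun k => F (k + 1))]
    simp only [Bn_succ]
    push_cast; ring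

theorem Bn_shift_one (N : ℕ) {F : ℕ → ℝ} {B : ℝ} (h : ∀ k, |F k| ≤ B) :
    |Bn N (fun k => F (k + 1)) - Bn N F| ≤ 2 * B / √(N + 1) := by
  have hB : 0 ≤ B := (abs_nonneg _).trans (h 0)
  have hs : 0 < √((N : ℝ) + 1) := Real.sqrt_pos.2 (by positivity)
  have hq : √((N : ℝ) + 1) ^ 2 = N + 1 := Real.sq_sqrt (by positivity)
  have h1 := Bn_abs_le (N + 1) (fun k => (2 * (k : ℝ) - (N + 1 : ℕ)) * F k)
  have h2 : Bn (N + 1) (fun k => |(2 * (k : ℝ) - (N + 1 : ℕ)) * F k|) ≤ B * √(N + 1) := by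
    refine (Bn_mono (F' := fun k => B * |2 * (k : ℝ) - (N + 1 : ℕ)|) fun k _ => ?_).trans ?_
    · rw [abs_mul, mul_comm]; exact mul_le_mul_of_nonneg_right (h k) (abs_nonneg _)
    · rw [Bn_mul]
      have := Bn_absdev (N + 1)
      rw [Nat.cast_succ] at this ⊢
      exact mul_le_mul_of_nonneg_left this hB
  rw [Bn_stein, abs_mul, abs_of_pos (by positivity : (0 : ℝ) < (N + 1) / 2)] at h1
  rw [le_div_iff₀ hs]
  refine le_of_mul_le_mul_right ?_ hs
  rw [mul_assoc, ← sq, hq]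
  linarith

/-- shifting the argument by `r` changes a binomial mean by at most `2 B r / sqrt (N + 1)` -/
theorem Bn_shift (N r : ℕ) {F : ℕ → ℝ} {B : ℝ} (h : ∀ k, |F k| ≤ B) :
    |Bn N (fun k => F (k + r)) - Bn N F| ≤ 2 * B * r / √(N + 1) := by
  induction r with
  | zero => simp
  | succ r ih =>
    have h1 := Bn_shift_one N (F := fun k => F (k + r)) (fun k => h _)
    have h2 : (fun k => F (k + (r + 1))) = fun k => F (k + 1 + r) := by
      funext k; congr 1; ring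
    rw [h2]
    have := abs_add_le (Bn N (fun k => F (k + 1 + r)) - Bn N (fun k => F (k + r)))
      (Bn N (fun k => F (k + r)) - Bn N F)
    rw [sub_add_sub_cancel] at this
    refine this.trans ((add_le_add h1 ih).trans (le_of_eq ?_))
    push_cast; ring

/-- typical number of odd steps -/
def Typ (N k : ℕ) : Prop := 500 * |2 * (k : ℤ) - N| ≤ N

instance (N k : ℕ) : Decidable (Typ N k) := by unfold Typ; infer_instance

/-- untypical paths have exponentially small mass -/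
theorem Bn_untyp (N : ℕ) :
    Bn N (fun k => if Typ N k then 0 else 1) ≤ 2 * Real.exp (-(N : ℝ) / 500000) := by
  have hc : ∀ l : ℝ, Bn N (fun k => Real.exp (l * (2 * k - N))) = Real.cosh l ^ N := by
    intro l
    rw [Bn_congr (F' := fun k => Real.exp (-l) ^ N * Real.exp (2 * l) ^ k) (fun k _ => by
      rw [← Real.exp_nat_mul, ← Real.exp_nat_mul, ← Real.exp_add]; congr 1; ring),
      Bn_mul, Bn_pow, ← mul_pow, Real.cosh_eq]
    congr 1
    have : Real.exp (-l) * Real.exp (2 * l) = Real.exp l := by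
      rw [← Real.exp_add]; congr 1; ring
    linarith
  have h1 : Bn N (fun k => if Typ N k then 0 else 1) ≤ Bn N (fun k => Real.exp (-(N : ℝ) / 250000) *
      (Real.exp (1 / 500 * (2 * k - N)) + Real.exp (-(1 / 500) * (2 * k - N)))) := by
    refine Bn_mono fun k _ => ?_
    split_ifs with h
    · positivity
    · have h' : (N : ℝ) ≤ 500 * |2 * (k : ℝ) - N| := by
        have := (not_le.1 h).le
        exact_mod_cast this
      rw [mul_add, ← Real.exp_add, ← Real.exp_add]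
      rcases abs_cases (2 * (k : ℝ) - N) with h2 | h2
      · have := Real.add_one_le_exp (-(N : ℝ) / 250000 + 1 / 500 * (2 * k - N))
        have := Real.exp_pos (-(N : ℝ) / 250000 + -(1 / 500) * (2 * k - N))
        linarith [h2.1]
      · have := Real.add_one_le_exp (-(N : ℝ) / 250000 + -(1 / 500) * (2 * k - N))
        have := Real.exp_pos (-(N : ℝ) / 250000 + 1 / 500 * (2 * k - N))
        linarith [h2.1]
  rw [Bn_mul, Bn_add, hc, hc, Real.cosh_neg] at h1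
  have h2 : Real.cosh (1 / 500) ^ N ≤ Real.exp ((N : ℝ) / 500000) := by
    refine (pow_le_pow_left₀ (Real.cosh_pos _).le (Real.cosh_le_exp_half_sq _) N).trans ?_
    rw [← Real.exp_nat_mul]; apply le_of_eq; congr 1; ring
  have h3 : Real.exp (-(N : ℝ) / 250000) * Real.exp ((N : ℝ) / 500000) =
      Real.exp (-(N : ℝ) / 500000) := by rw [← Real.exp_add]; congr 1; ring
  nlinarith only [Real.exp_pos (-(N : ℝ) / 250000), h1, h2, h3]

/-- a polynomial times a geometric sequence is bounded -/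
theorem geo_poly {θ : ℝ} (h0 : 0 ≤ θ) (h1 : θ < 1) (A : ℕ) :
    ∃ C : ℝ, 0 < C ∧ ∀ n : ℕ, θ ^ n ≤ C / ((n : ℝ) + 1) ^ A := by
  have h := tendsto_pow_const_mul_const_pow_of_abs_lt_one A (r := θ) (by rwa [abs_of_nonneg h0])
  obtain ⟨B, hB⟩ := h.bddAbove_range
  have hB' : ∀ n : ℕ, (n : ℝ) ^ A * θ ^ n ≤ B := fun n => hB ⟨n, rfl⟩
  have hB0 : 0 ≤ B := le_trans (by positivity) (hB' 0)
  refine ⟨2 ^ A * B + 1, by positivity, fun n => ?_⟩
  rw [le_div_iff₀ (by positivity)]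
  rcases Nat.eq_zero_or_pos n with rfl | hn
  · simp only [pow_zero, CharP.cast_eq_zero, zero_add, one_pow, mul_one, le_add_iff_nonneg_left, Nat.ofNat_pos, pow_pos, mul_nonneg_iff_of_pos_left]; positivity
  · have : ((n : ℝ) + 1) ^ A ≤ (2 * n) ^ A :=
      pow_le_pow_left₀ (by positivity) (by have : (1 : ℝ) ≤ n := by exact_mod_cast hn
                                           linarith only [this]) A
    rw [mul_pow] at this
    have h2 : θ ^ n * ((n : ℝ) + 1) ^ A ≤ θ ^ n * (2 ^ A * n ^ A) :=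
      mul_le_mul_of_nonneg_left this (by positivity)
    have h3 : 2 ^ A * ((n : ℝ) ^ A * θ ^ n) ≤ 2 ^ A * B :=
      mul_le_mul_of_nonneg_left (hB' n) (by positivity)
    linarith only [h2, h3]

end Pool.Agent.MP_158692_nt

end

-- part MP_158692_nt.Dyn
section

/-! The map `T`, its fibres, the transfer operators and means of periodic functions. -/

namespace Pool.Agent.MP_158692_nt

open Finset Function

/-- the `3x+1` map -/
def T (m : ℤ) : ℤ := if m % 2 = 0 then m / 2 else (3 * m + 1) / 2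

/-- number of odd steps among the first `M` steps -/
def od : ℕ → ℤ → ℕ
  | 0, _ => 0
  | M + 1, n => if T^[M] n % 2 = 0 then od M n else od M n + 1

/-- offset of the first `M` steps -/
def gg : ℕ → ℤ → ℕ
  | 0, _ => 0
  | M + 1, n => if T^[M] n % 2 = 0 then gg M n else 2 ^ M + 3 * gg M n

theorem dyn (M : ℕ) (n : ℤ) : 2 ^ M * T^[M] n = 3 ^ od M n * n + gg M n := by
  induction M with
  | zero => simp [od, gg]
  | succ M ih =>
    rw [iterate_succ_apply', od, gg, T]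
    split_ifs with h
    · have : 2 * (T^[M] n / 2) = T^[M] n := by omega
      rw [pow_succ, mul_assoc, this, ih]
    · have : 2 * ((3 * T^[M] n + 1) / 2) = 3 * T^[M] n + 1 := by omega
      rw [pow_succ, mul_assoc, this]
      push_cast
      linear_combination 3 * ih

theorem adm_od (M : ℕ) (n : ℤ) : Adm M (od M n) (gg M n) := by
  induction M with
  | zero => exact Adm.zero
  | succ M ih =>
    rw [od, gg]
    split_ifs
    · exact ih.even
    · exact ih.odd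

theorem abs_le_T (m : ℤ) : |m| ≤ 2 * |T m| := by
  unfold T
  split_ifs <;> simp only [abs_eq_max_neg] <;> omega

theorem abs_le_iter (M : ℕ) (n : ℤ) : |n| ≤ 2 ^ M * |T^[M] n| := by
  induction M with
  | zero => simp
  | succ M ih =>
    rw [iterate_succ_apply', pow_succ, mul_assoc]
    exact ih.trans (mul_le_mul_of_nonneg_left (abs_le_T _) (by positivity))

/-- the integers `n` with `T^[M] n = b` -/
noncomputable def fib (M : ℕ) (b : ℤ) : Finset ℤ :=
  (Icc (-(2 ^ M * |b|)) (2 ^ M * |b|)).filter (fun n => T^[M] n = b)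

theorem mem_fib {M : ℕ} {b n : ℤ} : n ∈ fib M b ↔ T^[M] n = b := by
  rw [fib, mem_filter, mem_Icc, ← abs_le]
  exact ⟨fun h => h.2, fun h => ⟨h ▸ abs_le_iter M n, h⟩⟩

theorem sum_fib {E : Type*} [AddCommMonoid E] (M : ℕ) (b : ℤ) (F : ℕ → ℕ → ℤ → E) :
    ∑ n ∈ fib M b, F (od M n) (gg M n) n =
      Sm M (fun k G => if (3 : ℤ) ^ k ∣ 2 ^ M * b - G then F k G ((2 ^ M * b - G) / 3 ^ k) else 0) := by
  induction M generalizing b F with
  | zero =>
    have : fib 0 b = {b} := by ext n; simp [mem_fib]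
    simp only [this, od, gg, sum_singleton, pow_zero, one_mul, Sm_zero, CharP.cast_eq_zero, sub_zero, isUnit_one, IsUnit.dvd, ↓ reduceIte, EuclideanDomain.div_one]
  | succ M ih =>
    rw [Sm_succ, ← sum_filter_add_sum_filter_not (fib (M + 1) b) (fun n => T^[M] n % 2 = 0)]
    congr 1
    · have h1 : (fib (M + 1) b).filter (fun n => T^[M] n % 2 = 0) = fib M (2 * b) := by
        ext n
        simp only [mem_filter, mem_fib, iterate_succ_apply', T]
        split_ifs <;> omega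
      rw [h1, show (2 : ℤ) ^ (M + 1) * b = 2 ^ M * (2 * b) by ring, ← ih]
      refine sum_congr rfl fun n hn => ?_
      have : T^[M] n % 2 = 0 := by rw [mem_fib.1 hn]; omega
      rw [od, gg, if_pos this, if_pos this]
    · by_cases hb : (3 : ℤ) ∣ 2 * b - 1
      · obtain ⟨c, hc⟩ := hb
        have h1 : (fib (M + 1) b).filter (fun n => ¬ T^[M] n % 2 = 0) = fib M c := by
          ext n
          simp only [mem_filter, mem_fib, iterate_succ_apply', T]
          split_ifs <;> omega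
        have h2 : ∀ G : ℕ, (2 : ℤ) ^ (M + 1) * b - ((2 ^ M + 3 * G : ℕ) : ℤ) =
            3 * (2 ^ M * c - G) := fun G => by push_cast; linear_combination 2 ^ M * hc
        simp only [h2, pow_succ' (3 : ℤ), Int.mul_dvd_mul_iff_left (by norm_num : (3 : ℤ) ≠ 0),
          Int.mul_ediv_mul_of_pos _ _ (by norm_num : (0 : ℤ) < 3)]
        rw [h1, ← ih c (fun k G n => F (k + 1) (2 ^ M + 3 * G) n)]
        refine sum_congr rfl fun n hn => ?_
        have : ¬ T^[M] n % 2 = 0 := by rw [mem_fib.1 hn]; omega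
        rw [od, gg, if_neg this, if_neg this]
      · have h1 : (fib (M + 1) b).filter (fun n => ¬ T^[M] n % 2 = 0) = ∅ := by
          ext n
          simp only [mem_filter, mem_fib, iterate_succ_apply', T, notMem_empty, iff_false]
          split_ifs <;> omega
        rw [h1, sum_empty]
        refine (sum_eq_zero fun p _ => if_neg fun h => hb ?_).symm
        have h3 : (3 : ℤ) ∣ 2 ^ M * (2 * b - 1) := by
          have h4 := (dvd_pow_self (3 : ℤ) (Nat.succ_ne_zero _)).trans h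
          push_cast at h4
          have := dvd_add h4 (dvd_mul_right 3 (GG M p : ℤ))
          rwa [show (2 : ℤ) ^ (M + 1) * b - (2 ^ M + 3 * GG M p) + 3 * GG M p =
            2 ^ M * (2 * b - 1) by ring] at this
        exact IsCoprime.dvd_of_dvd_mul_left (IsCoprime.pow_right (by norm_num)) h3

/-- the weight `3 ^ k * w n` of the predecessor `n = (2 ^ M b - G) / 3 ^ k` of `b`, if it exists -/
def pull {R : Type*} [CommRing R] (M k G : ℕ) (w : ℤ → R) (b : ℤ) : R :=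
  if (3 : ℤ) ^ k ∣ 2 ^ M * b - G then 3 ^ k * w ((2 ^ M * b - G) / 3 ^ k) else 0

/-- transfer operator; the weight may depend on the path through `(k, G)` -/
noncomputable def Tr (M : ℕ) (w : ℕ → ℕ → ℤ → ℝ) (b : ℤ) : ℝ :=
  Sm M (fun k G => pull M k G (w k G) b) / 2 ^ M

theorem Tr_eq_fib (M : ℕ) (w : ℕ → ℕ → ℤ → ℝ) (b : ℤ) :
    Tr M w b = ∑ n ∈ fib M b, 3 ^ od M n / 2 ^ M * w (od M n) (gg M n) n := by
  rw [Tr, sum_fib M b (fun k G n => 3 ^ k / 2 ^ M * w k G n), Sm, Sm, sum_div]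
  refine sum_congr rfl fun p _ => ?_
  unfold pull
  split_ifs <;> ring

theorem Tr_mono {M : ℕ} {w w' : ℕ → ℕ → ℤ → ℝ} (h : ∀ k G n, Adm M k G → w k G n ≤ w' k G n)
    (b : ℤ) : Tr M w b ≤ Tr M w' b := by
  rw [Tr_eq_fib, Tr_eq_fib]
  exact sum_le_sum fun n _ => mul_le_mul_of_nonneg_left (h _ _ _ (adm_od M n)) (by positivity)

theorem Tr_congr {M : ℕ} {w w' : ℕ → ℕ → ℤ → ℝ} (h : ∀ k G n, Adm M k G → w k G n = w' k G n)
    (b : ℤ) : Tr M w b = Tr M w' b :=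
  le_antisymm (Tr_mono (fun k G n a => (h k G n a).le) b) (Tr_mono (fun k G n a => (h k G n a).ge) b)

theorem Tr_add (M : ℕ) (w w' : ℕ → ℕ → ℤ → ℝ) (b : ℤ) :
    Tr M (fun k G n => w k G n + w' k G n) b = Tr M w b + Tr M w' b := by
  simp only [Tr_eq_fib, mul_add, sum_add_distrib]

theorem Tr_sub (M : ℕ) (w w' : ℕ → ℕ → ℤ → ℝ) (b : ℤ) :
    Tr M (fun k G n => w k G n - w' k G n) b = Tr M w b - Tr M w' b := by
  simp only [Tr_eq_fib, mul_sub, sum_sub_distrib]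

theorem Tr_mul (M : ℕ) (c : ℝ) (w : ℕ → ℕ → ℤ → ℝ) (b : ℤ) :
    Tr M (fun k G n => c * w k G n) b = c * Tr M w b := by
  simp only [Tr_eq_fib, mul_sum]
  exact sum_congr rfl fun _ _ => by ring

theorem Tr_sum {ι : Type*} (M : ℕ) (s : Finset ι) (w : ι → ℕ → ℕ → ℤ → ℝ) (b : ℤ) :
    Tr M (fun k G n => ∑ i ∈ s, w i k G n) b = ∑ i ∈ s, Tr M (w i) b := by
  simp only [Tr_eq_fib, mul_sum]
  exact sum_comm

theorem Tr_nonneg {M : ℕ} {w : ℕ → ℕ → ℤ → ℝ} (h : ∀ k G n, 0 ≤ w k G n) (b : ℤ) :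
    0 ≤ Tr M w b := by
  rw [Tr_eq_fib]
  exact sum_nonneg fun n _ => mul_nonneg (by positivity) (h _ _ _)

theorem Tr_abs_le (M : ℕ) (w : ℕ → ℕ → ℤ → ℝ) (b : ℤ) :
    |Tr M w b| ≤ Tr M (fun k G n => |w k G n|) b := by
  simp only [Tr_eq_fib]
  refine (abs_sum_le_sum_abs _ _).trans (sum_le_sum fun n _ => ?_)
  rw [abs_mul, abs_of_nonneg (by positivity)]

theorem Tr_zero (w : ℕ → ℕ → ℤ → ℝ) (b : ℤ) : Tr 0 w b = w 0 0 b := by
  simp only [Tr, pull, pow_zero, one_mul, Sm_zero, CharP.cast_eq_zero, sub_zero, isUnit_one, IsUnit.dvd, ↓ reduceIte, EuclideanDomain.div_one, div_one]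

theorem Tr_one (w : ℕ → ℕ → ℤ → ℝ) (b : ℤ) : Tr 1 w b =
    (w 0 0 (2 * b) + if (3 : ℤ) ∣ 2 * b - 1 then 3 * w 1 1 ((2 * b - 1) / 3) else 0) / 2 := by
  simp only [Tr, pull, pow_one, Sm_one, pow_zero, CharP.cast_eq_zero, sub_zero, isUnit_one, IsUnit.dvd, ↓ reduceIte, EuclideanDomain.div_one, one_mul, Nat.cast_one]

theorem pull_pull {R : Type*} [CommRing R] (M1 M2 k1 k2 G1 G2 : ℕ) (w : ℤ → R) (b : ℤ) :
    pull (M1 + M2) (k1 + k2) (G1 * 2 ^ M2 + 3 ^ k1 * G2) w b =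
      pull M1 k1 G1 (pull M2 k2 G2 w) b := by
  unfold pull
  have h3 : (3 : ℤ) ^ k1 ≠ 0 := by positivity
  by_cases h : (3 : ℤ) ^ k1 ∣ 2 ^ M1 * b - G1
  · obtain ⟨m, hm⟩ := h
    have e : (2 : ℤ) ^ (M1 + M2) * b - ((G1 * 2 ^ M2 + 3 ^ k1 * G2 : ℕ) : ℤ) =
        3 ^ k1 * (2 ^ M2 * m - G2) := by push_cast; linear_combination 2 ^ M2 * hm
    rw [e, hm, if_pos (dvd_mul_right _ _), Int.mul_ediv_cancel_left _ h3, pow_add (3 : ℤ),
      Int.mul_ediv_mul_of_pos _ _ (by positivity)]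
    simp only [Int.mul_dvd_mul_iff_left h3]
    split_ifs <;> ring
  · rw [if_neg h, if_neg]
    intro h'
    apply h
    have h4 := (pow_dvd_pow (3 : ℤ) (Nat.le_add_right k1 k2)).trans h'
    have h5 : (3 : ℤ) ^ k1 ∣ 2 ^ M2 * (2 ^ M1 * b - G1) := by
      have := dvd_add h4 (dvd_mul_right (3 ^ k1) (G2 : ℤ))
      rwa [show (2 : ℤ) ^ (M1 + M2) * b - ((G1 * 2 ^ M2 + 3 ^ k1 * G2 : ℕ) : ℤ) + 3 ^ k1 * G2 =
        2 ^ M2 * (2 ^ M1 * b - G1) by push_cast; ring] at this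
    exact IsCoprime.dvd_of_dvd_mul_left (IsCoprime.pow (by norm_num)) h5

/-- composition; the first block `M1` is the LATER one in forward time (next to `b`) -/
theorem Tr_add_len (M1 M2 : ℕ) (w : ℕ → ℕ → ℤ → ℝ) (b : ℤ) : Tr (M1 + M2) w b =
    Tr M1 (fun k1 G1 => Tr M2 (fun k2 G2 => w (k1 + k2) (G1 * 2 ^ M2 + 3 ^ k1 * G2))) b := by
  rw [Tr, Tr, Sm_add_len, pow_add, mul_comm ((2 : ℝ) ^ M1), ← div_div]
  congr 1
  rw [Sm, Sm, sum_div]
  refine sum_congr rfl fun p _ => ?_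
  simp only [pull_pull]
  simp only [pull, Tr]
  split_ifs
  · rw [Sm_mul]; ring
  · simp [Sm_const]

/-- mean over one period -/
noncomputable def avg (W : ℕ) (u : ℤ → ℝ) : ℝ := (∑ b ∈ range W, u b) / W

theorem avg_mono {W : ℕ} {u v : ℤ → ℝ} (h : ∀ b, u b ≤ v b) : avg W u ≤ avg W v :=
  div_le_div_of_nonneg_right (sum_le_sum fun _ _ => h _) (by positivity)

theorem avg_nonneg {W : ℕ} {u : ℤ → ℝ} (h : ∀ b, 0 ≤ u b) : 0 ≤ avg W u :=
  div_nonneg (sum_nonneg fun _ _ => h _) (by positivity)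

theorem avg_add (W : ℕ) (u v : ℤ → ℝ) : avg W (fun b => u b + v b) = avg W u + avg W v := by
  simp only [avg, sum_add_distrib, add_div]

theorem avg_sum {ι : Type*} (W : ℕ) (s : Finset ι) (u : ι → ℤ → ℝ) :
    avg W (fun b => ∑ i ∈ s, u i b) = ∑ i ∈ s, avg W (u i) := by
  simp only [avg, ← sum_div]; rw [sum_comm]

theorem avg_mul_left (W : ℕ) (c : ℝ) (u : ℤ → ℝ) : avg W (fun b => c * u b) = c * avg W u := by
  simp only [avg, ← mul_sum, mul_div_assoc]

theorem avg_const {W : ℕ} (hW : 0 < W) (c : ℝ) : avg W (fun _ => c) = c := by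
  have : (W : ℝ) ≠ 0 := by positivity
  simp only [avg, sum_const, card_range, nsmul_eq_mul]; field_simp

theorem sum_shift {R : Type*} [AddCommGroup R] {W : ℕ} {u : ℤ → R} (hu : Periodic u (W : ℤ))
    (a : ℤ) : ∑ b ∈ range W, u (a + b) = ∑ b ∈ range W, u b := by
  have step : ∀ a : ℤ, ∑ b ∈ range W, u (a + 1 + b) = ∑ b ∈ range W, u (a + b) := by
    intro a
    have h1 := sum_range_succ (fun b : ℕ => u (a + b)) W
    have h2 := sum_range_succ' (fun b : ℕ => u (a + b)) W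
    rw [h1, hu a] at h2
    simp only [Nat.cast_zero, add_zero, add_left_inj] at h2
    rw [h2]
    exact sum_congr rfl fun b _ => by congr 1; push_cast; ring
  induction a using Int.induction_on with
  | zero => simp
  | succ a ih => rw [step, ih]
  | pred a ih => rw [← step, ← ih]; simp

theorem sum_mul_period {R : Type*} [CommRing R] {W : ℕ} {u : ℤ → R} (hu : Periodic u (W : ℤ))
    (c : ℕ) (a : ℤ) : ∑ b ∈ range (c * W), u (a + b) = c * ∑ b ∈ range W, u b := by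
  induction c with
  | zero => simp only [zero_mul, range_zero, sum_empty, Nat.cast_zero]
  | succ c ih =>
    rw [Nat.succ_mul, sum_range_add, ih, ← sum_shift hu (a + (c * W : ℕ))]
    simp only [sum_shift hu]
    have : ∑ x ∈ range W, u (a + ((c * W + x : ℕ) : ℤ)) = ∑ b ∈ range W, u b := by
      rw [← sum_shift hu (a + (c * W : ℕ))]
      exact sum_congr rfl fun b _ => by congr 1; push_cast; ring
    rw [this]; push_cast; ring

theorem avg_mul {W c : ℕ} {u : ℤ → ℝ} (hu : Periodic u (W : ℤ)) (hc : 0 < c) :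
    avg (c * W) u = avg W u := by
  have h := sum_mul_period hu c 0
  simp only [zero_add] at h
  have : (c : ℝ) ≠ 0 := by positivity
  rw [avg, avg, h, Nat.cast_mul, mul_div_mul_left _ _ this]

/-- a periodic nonnegative function summed over integers of a real window of length `L` -/
theorem sum_window_le {W : ℕ} (hW : 0 < W) {u : ℤ → ℝ} (hu : Periodic u (W : ℤ))
    (h0 : ∀ n, 0 ≤ u n) (S : Finset ℤ) {x L : ℝ} (hL : 0 ≤ L)
    (hS : ∀ n ∈ S, x ≤ n ∧ (n : ℝ) ≤ x + L) : ∑ n ∈ S, u n ≤ (L + W) * avg W u := by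
  have hW' : (0 : ℝ) < W := by exact_mod_cast hW
  set c := ⌊L⌋₊ / W + 1 with hc
  have h1 : ⌊L⌋₊ < c * W := by
    rw [hc, add_mul, one_mul]; exact Nat.lt_div_mul_add hW
  have h2 : ((c * W : ℕ) : ℝ) ≤ L + W := by
    have : c * W ≤ ⌊L⌋₊ + W := by
      rw [hc, add_mul, one_mul]; exact Nat.add_le_add_right (Nat.div_mul_le_self _ _) _
    have h3 : ((c * W : ℕ) : ℝ) ≤ ⌊L⌋₊ + W := by exact_mod_cast this
    linarith only [Nat.floor_le hL, h3]
  have h3 : S ⊆ (range (c * W)).image (fun b : ℕ => ⌈x⌉ + (b : ℤ)) := by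
    intro n hn
    obtain ⟨ha, hb⟩ := hS n hn
    have ha' : ⌈x⌉ ≤ n := Int.ceil_le.2 ha
    obtain ⟨j, hj⟩ := Int.eq_ofNat_of_zero_le (sub_nonneg.2 ha')
    refine mem_image.2 ⟨j, mem_range.2 (lt_of_le_of_lt (Nat.le_floor ?_) h1), by omega⟩
    have : (n : ℝ) - ⌈x⌉ = j := by exact_mod_cast hj
    linarith only [Int.le_ceil x, hb, this]
  refine (sum_le_sum_of_subset_of_nonneg h3 fun _ _ _ => h0 _).trans ?_
  rw [sum_image (fun a _ b _ h => by simpa using h), sum_mul_period hu]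
  have h4 : 0 ≤ avg W u := avg_nonneg h0
  have h5 : ∑ b ∈ range W, u b = W * avg W u := by rw [avg]; field_simp
  rw [h5, ← mul_assoc]
  exact mul_le_mul_of_nonneg_right (by exact_mod_cast h2) h4

theorem pull_per {R : Type*} [CommRing R] (M k G : ℕ) {q : ℕ} {w : ℤ → R}
    (hw : Periodic w (q : ℤ)) : Periodic (pull M k G w) ((3 ^ k * q : ℕ) : ℤ) := by
  intro b
  unfold pull
  have e : (2 : ℤ) ^ M * (b + ((3 ^ k * q : ℕ) : ℤ)) - G = 2 ^ M * b - G + 2 ^ M * q * 3 ^ k := by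
    push_cast; ring
  rw [e, Int.add_mul_ediv_right _ _ (by positivity)]
  have := hw.int_mul (2 ^ M) ((2 ^ M * b - G) / 3 ^ k)
  simp only [Int.cast_id] at this
  rw [this]
  simp only [dvd_add_left (dvd_mul_left ((3 : ℤ) ^ k) (2 ^ M * q))]

/-- multiplication by a number prime to the period permutes the residues -/
theorem sum_affine {R : Type*} [AddCommGroup R] {W : ℕ} (hW : 0 < W) {u : ℤ → R}
    (hu : Periodic u (W : ℤ)) {c : ℤ} (hc : IsCoprime (W : ℤ) c) (a : ℤ) :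
    ∑ b ∈ range W, u (c * b + a) = ∑ b ∈ range W, u b := by
  have hW' : (0 : ℤ) < W := by exact_mod_cast hW
  have key : ∀ b : ℕ, (((c * b + a) % W).toNat : ℤ) = (c * b + a) % W :=
    fun b => Int.toNat_of_nonneg (Int.emod_nonneg _ hW'.ne')
  have hmap : ∀ b ∈ range W, ((c * b + a) % W).toNat ∈ range W := fun b _ => by
    have := Int.emod_lt_of_pos (c * b + a) hW'
    have := key b
    rw [mem_range]; omega
  have hinj : ∀ b ∈ range W, ∀ b' ∈ range W,
      ((c * b + a) % W).toNat = ((c * b' + a) % W).toNat → b = b' := fun b hb b' hb' h => by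
    have h1 : (c * b + a) % W = (c * b' + a) % W := by rw [← key b, h, key b']
    have h2 : (W : ℤ) ∣ c * (b' - b) := by
      have := Int.ModEq.dvd h1
      rwa [show c * b' + a - (c * b + a) = c * (b' - b) by ring] at this
    have h3 := Int.eq_zero_of_abs_lt_dvd (hc.dvd_of_dvd_mul_left h2)
      (by rw [mem_range] at hb hb'; rw [abs_lt]; constructor <;> omega)
    omega
  refine sum_bij (fun b _ => ((c * b + a) % W).toNat) hmap (fun b hb b' hb' => hinj b hb b' hb')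
    (fun y hy => ?_) (fun b _ => ?_)
  · obtain ⟨b, hb, e⟩ := surj_on_of_inj_on_of_card_le (fun (b : ℕ) _ => ((c * b + a) % W).toNat)
      hmap (fun b b' hb hb' => hinj b hb b' hb') le_rfl y hy
    exact ⟨b, hb, e.symm⟩
  · rw [key]
    have := hu.sub_int_mul_eq (x := c * b + a) ((c * b + a) / W)
    simp only [Int.cast_id] at this
    rw [← this, Int.emod_def]; congr 1; ring

theorem sum_pull {R : Type*} [CommRing R] (M k G : ℕ) {q : ℕ} (hq : Odd q) {w : ℤ → R}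
    (hw : Periodic w (q : ℤ)) :
    ∑ b ∈ range (3 ^ k * q), pull M k G w b = 3 ^ k * ∑ n ∈ range q, w n := by
  have hp := pull_per 0 k 0 hw
  have hc : IsCoprime ((3 ^ k * q : ℕ) : ℤ) (2 ^ M) := by
    refine IsCoprime.pow_right ?_
    have : Nat.Coprime (3 ^ k * q) 2 :=
      Nat.coprime_two_right.2 ((Odd.pow (by decide)).mul hq)
    exact_mod_cast Nat.isCoprime_iff_coprime.2 this
  have h1 := sum_affine (by have := hq.pos; positivity) hp hc (-G)
  have h2 : ∀ b : ℤ, pull M k G w b = pull 0 k 0 w (2 ^ M * b + -G) := fun b => by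
    simp only [pull, sub_eq_add_neg, pow_zero, one_mul, CharP.cast_eq_zero, neg_zero, add_zero]
  simp only [h2]
  rw [h1, mul_sum]
  symm
  refine sum_bij_ne_zero (fun n _ _ => 3 ^ k * n) (fun n hn _ => ?_) (fun n _ _ m _ _ h => ?_)
    (fun b hb h => ?_) (fun n _ _ => ?_)
  · exact mem_range.2 (Nat.mul_lt_mul_of_pos_left (mem_range.1 hn) (by positivity))
  · exact Nat.eq_of_mul_eq_mul_left (by positivity) h
  · have h3 : (3 : ℤ) ^ k ∣ b := by
      by_contra h'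
      exact h (by simp [pull, h'])
    obtain ⟨n, rfl⟩ : 3 ^ k ∣ b := by exact_mod_cast h3
    refine ⟨n, mem_range.2 (lt_of_mul_lt_mul_left (mem_range.1 hb) (Nat.zero_le _)), ?_, rfl⟩
    simpa only [ne_eq, pull, pow_zero, Nat.cast_mul, Nat.cast_pow, Nat.cast_ofNat, one_mul, CharP.cast_eq_zero, sub_zero, dvd_mul_right, ↓ reduceIte, pow_eq_zero_iff', OfNat.ofNat_ne_zero, false_and, not_false_eq_true, mul_div_cancel_left₀] using h
  · simp only [pull, pow_zero, Nat.cast_mul, Nat.cast_pow, Nat.cast_ofNat, one_mul, CharP.cast_eq_zero, sub_zero, dvd_mul_right, ↓ reduceIte, ne_eq, pow_eq_zero_iff', OfNat.ofNat_ne_zero, false_and, not_false_eq_true, mul_div_cancel_left₀]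

theorem Tr_per (M : ℕ) {q : ℕ} {w : ℕ → ℕ → ℤ → ℝ} (hw : ∀ k G, Periodic (w k G) (q : ℤ)) :
    Periodic (Tr M w) ((3 ^ M * q : ℕ) : ℤ) := by
  intro b
  unfold Tr
  congr 1
  refine Sm_congr fun k G h => ?_
  have := (pull_per M k G (hw k G)).nat_mul (3 ^ (M - k)) b
  rw [← this]
  congr 2
  push_cast
  rw [← mul_assoc, ← pow_add, Nat.sub_add_cancel h.k_le]

theorem avg_Tr (M : ℕ) {q : ℕ} (hq : Odd q) {w : ℕ → ℕ → ℤ → ℝ}
    (hw : ∀ k G, Periodic (w k G) (q : ℤ)) :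
    avg (3 ^ M * q) (Tr M w) = Sm M (fun k G => avg q (w k G)) / 2 ^ M := by
  have : Tr M w = fun b => (2 ^ M : ℝ)⁻¹ *
      ∑ p : Pth M, pull M (kk M p) (GG M p) (w (kk M p) (GG M p)) b := by
    funext b; rw [Tr, Sm, div_eq_inv_mul]
  rw [this, avg_mul_left, avg_sum, ← div_eq_inv_mul, Sm]
  congr 1
  refine sum_congr rfl fun p _ => ?_
  have e : 3 ^ M * q = 3 ^ (M - kk M p) * (3 ^ kk M p * q) := by
    rw [← mul_assoc, ← pow_add, Nat.sub_add_cancel (adm_path M p).k_le]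
  rw [e, avg_mul (pull_per _ _ _ (hw _ _)) (by positivity), avg, avg, sum_pull _ _ _ hq (hw _ _)]
  push_cast
  rw [mul_div_mul_left _ _ (by positivity)]

/-- the part of the transfer operator with exactly `κ` odd steps -/
noncomputable def Tk (M κ : ℕ) (f : ℤ → ℝ) : ℤ → ℝ := Tr M (fun k _ n => if k = κ then f n else 0)

theorem Tk_per (M κ : ℕ) {q : ℕ} {f : ℤ → ℝ} (hf : Periodic f (q : ℤ)) :
    Periodic (Tk M κ f) ((3 ^ κ * q : ℕ) : ℤ) := by
  intro b
  unfold Tk Tr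
  congr 1
  refine Sm_congr fun k G _ => ?_
  by_cases h : k = κ
  · subst h
    simp only [if_true]
    exact pull_per M k G hf b
  · simp only [pull, Nat.cast_mul, Nat.cast_pow, Nat.cast_ofNat, h, ↓ reduceIte, mul_zero, ite_self]

/-- total weight of the predecessors at depth `M` -/
noncomputable def rho (M : ℕ) : ℤ → ℝ := Tr M (fun _ _ _ => 1)

/-- the mean zero function of period 3 that drives the telescoping -/
noncomputable def f0 (n : ℤ) : ℝ := if (3 : ℤ) ∣ 2 * n - 1 then 1 else -1 / 2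

theorem f0_per : Periodic f0 ((3 : ℕ) : ℤ) := by
  intro n
  have : ((3 : ℤ) ∣ 2 * (n + ((3 : ℕ) : ℤ)) - 1) ↔ (3 : ℤ) ∣ 2 * n - 1 := by push_cast; omega
  simp only [f0, this]

theorem f0_sum : ∑ n ∈ range 3, f0 n = 0 := by
  simp only [sum_range_succ, f0]; norm_num

theorem f0_abs (n : ℤ) : |f0 n| ≤ 1 := by
  unfold f0; split_ifs <;> rw [abs_le] <;> constructor <;> norm_num

end Pool.Agent.MP_158692_nt

end

-- part MP_158692_nt.Decay
section

/-! Superpolynomial decay for the two-step walk (section 1 of the notes). -/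

namespace Pool.Agent.MP_158692_nt

open Finset

/-- the abstract properties of `Q t k = ‖Phi (2 t) k (X k)‖`, `X k = η / (3 ^ k q)` -/
structure Walk (q : ℕ) (Q : ℕ → ℤ → ℝ) (X : ℤ → ℝ) : Prop where
  nonneg : ∀ t k, 0 ≤ Q t k
  zero : ∀ k, Q 0 k ≤ if k = 0 then 1 else 0
  mul3 : ∀ k, X (k - 1) = 3 * X k
  step : ∀ t k, Q (t + 1) k ≤
    Q t k / 4 + |Real.cos (Real.pi * (4 ^ t * X k))| * Q t (k - 1) / 2 + Q t (k - 2) / 4
  sep : ∀ (t k : ℕ) (R : ℤ), 1 ≤ (q : ℝ) * 3 ^ k * |4 ^ t * X k - R|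

namespace Dec

open Real

theorem abs_cos_int (x : ℝ) (n : ℤ) : |cos (x + n * π)| = |cos x| := by
  rw [cos_add_int_mul_pi, abs_mul, abs_zpow]; simp

theorem cos_white {y ε : ℝ} (hε : 0 ≤ ε) (h : ∀ R : ℤ, ε ≤ |y - R|) :
    |cos (π * y)| ≤ 1 - 2 * ε ^ 2 := by
  have h1 := abs_sub_round y
  have h2 := h (round y)
  have e : π * y = π * (y - round y) + (round y : ℤ) * π := by ring
  rw [e, abs_cos_int]
  generalize y - round y = z at h1 h2
  have hp := pi_pos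
  obtain ⟨h3, h4⟩ := abs_le.1 h1
  rw [abs_of_nonneg (cos_nonneg_of_neg_pi_div_two_le_of_le (by nlinarith only [hp, h3]) (by nlinarith only [hp, h4]))]
  refine (cos_le_one_sub_mul_cos_sq (abs_le.2 ⟨by nlinarith only [hp, h3], by nlinarith only [hp, h4]⟩)).trans ?_
  have h5 : ε ^ 2 ≤ z ^ 2 := by rw [← sq_abs z]; gcongr
  have h6 : 2 / π ^ 2 * (π * z) ^ 2 = 2 * z ^ 2 := by field_simp
  linarith only [h5, h6]

theorem cos_pair (τ : ℕ) (a o : ℤ) (ho : Odd o) :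
    |cos (π * ((a : ℝ) / 4 ^ (τ + 1)))| +
      |cos (π * (((a + 2 * 4 ^ τ * o : ℤ) : ℝ) / 4 ^ (τ + 1)))| ≤ 36 / 25 := by
  obtain ⟨n, rfl⟩ := ho
  have e : π * (((a + 2 * 4 ^ τ * (2 * n + 1) : ℤ) : ℝ) / 4 ^ (τ + 1)) =
      π * ((a : ℝ) / 4 ^ (τ + 1)) + π / 2 + n * π := by
    push_cast; field_simp; ring
  rw [e, abs_cos_int, cos_add_pi_div_two, abs_neg]
  generalize π * ((a : ℝ) / 4 ^ (τ + 1)) = x
  have h := sin_sq_add_cos_sq x
  rw [← sq_abs (sin x), ← sq_abs (cos x)] at h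
  nlinarith only [sq_nonneg (|sin x| - |cos x|), h]

/-- majorant for `T` further levels -/
noncomputable def Gam : ℕ → ℕ → ℤ → ℝ
  | 0, _, _ => 1
  | T + 1, τ, y => Gam T (τ + 1) y / 4 +
      (|cos (π * ((y : ℝ) / 4 ^ (τ + 1)))| + 1 / 5) * Gam T (τ + 1) (3 * y) / 2 +
      Gam T (τ + 1) (9 * y) / 4

theorem gam_bd : ∀ (T τ : ℕ) (y : ℤ), 0 ≤ Gam T τ y ∧ Gam T τ y ≤ 2 ^ T
  | 0, _, _ => by simp [Gam]
  | T + 1, τ, y => by
    have h1 := gam_bd T (τ + 1) y
    have h2 := gam_bd T (τ + 1) (3 * y)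
    have h3 := gam_bd T (τ + 1) (9 * y)
    have h4 := abs_cos_le_one (π * ((y : ℝ) / 4 ^ (τ + 1)))
    have h5 := abs_nonneg (cos (π * ((y : ℝ) / 4 ^ (τ + 1))))
    rw [Gam, pow_succ (2 : ℝ)]
    constructor <;> nlinarith only [h1.1, h1.2, h2.1, h2.2, h3.1, h3.2, h5, h4]

theorem sum_four (n : ℕ) (f : ℕ → ℝ) : ∑ s ∈ range (4 * n), f s =
    ∑ s ∈ range n, f (4 * s) + ∑ s ∈ range n, f (4 * s + 1) + ∑ s ∈ range n, f (4 * s + 2) +
      ∑ s ∈ range n, f (4 * s + 3) := by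
  induction n with
  | zero => simp
  | succ n ih =>
    rw [show 4 * (n + 1) = 4 * n + 1 + 1 + 1 + 1 by ring]
    simp only [sum_range_succ, ih]
    ring

theorem gam_mean : ∀ (T τ : ℕ) (y w c e : ℤ), y * (w - 1) = c * 4 ^ τ → Odd c → w = 1 + 4 * e →
    ∑ s ∈ range (4 ^ T), Gam T τ (y * w ^ s) ≤ (96 / 25) ^ T := by
  intro T
  induction T with
  | zero => intro τ y w c e _ _ _; simp [Gam]
  | succ T ih =>
    intro τ y w c e h hc hw
    have hwo : Odd w := ⟨2 * e, by rw [hw]; ring⟩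
    have h4 : w ^ 4 = 1 + 4 * (4 * e + 24 * e ^ 2 + 64 * e ^ 3 + 64 * e ^ 4) := by rw [hw]; ring
    have key : ∀ u : ℕ, ∑ s ∈ range (4 ^ T), Gam (T + 1) τ (y * w ^ (4 * s + u)) ≤
        (3 / 5 + |cos (π * (((y * w ^ u : ℤ) : ℝ) / 4 ^ (τ + 1)))| / 2) * (96 / 25) ^ T := by
      intro u
      have hc' : Odd (w ^ u * c * (2 * (3 * e + 8 * e ^ 2 + 8 * e ^ 3) + 1)) :=
        (hwo.pow.mul hc).mul ⟨_, rfl⟩
      have h' : y * w ^ u * (w ^ 4 - 1) =
          w ^ u * c * (2 * (3 * e + 8 * e ^ 2 + 8 * e ^ 3) + 1) * 4 ^ (τ + 1) := by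
        calc y * w ^ u * (w ^ 4 - 1) = w ^ u * (y * (w - 1)) * (1 + w + w ^ 2 + w ^ 3) := by ring
          _ = _ := by rw [h]; nth_rewrite 2 [hw]; nth_rewrite 2 [hw]; nth_rewrite 2 [hw]; ring
      generalize w ^ u * c * (2 * (3 * e + 8 * e ^ 2 + 8 * e ^ 3) + 1) = c' at hc' h'
      have e1 : ∀ s, y * w ^ (4 * s + u) = y * w ^ u * (w ^ 4) ^ s := fun s => by
        rw [← pow_mul]; ring
      simp only [e1]
      generalize y * w ^ u = z at h'
      have i1 := ih (τ + 1) z _ c' _ h' hc' h4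
      have i2 := ih (τ + 1) (3 * z) _ (3 * c') _ (by rw [mul_assoc, h']; ring)
        ((by decide : Odd (3 : ℤ)).mul hc') h4
      have i3 := ih (τ + 1) (9 * z) _ (9 * c') _ (by rw [mul_assoc, h']; ring)
        ((by decide : Odd (9 : ℤ)).mul hc') h4
      have e2 : ∀ s : ℕ, |cos (π * (((z * (w ^ 4) ^ s : ℤ) : ℝ) / 4 ^ (τ + 1)))| =
          |cos (π * ((z : ℝ) / 4 ^ (τ + 1)))| := fun s => by
        obtain ⟨n, hn⟩ := sub_dvd_pow_sub_pow (w ^ 4) 1 s
        have e3 : z * (w ^ 4) ^ s = z + c' * n * 4 ^ (τ + 1) := by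
          rw [one_pow] at hn
          linear_combination z * hn + n * h'
        have e4 : π * (((z + c' * n * 4 ^ (τ + 1) : ℤ) : ℝ) / 4 ^ (τ + 1)) =
            π * ((z : ℝ) / 4 ^ (τ + 1)) + (c' * n : ℤ) * π := by
          push_cast; field_simp
        rw [e3, e4, abs_cos_int]
      simp only [Gam, e2, ← mul_assoc (3 : ℤ), ← mul_assoc (9 : ℤ), sum_add_distrib, ← sum_div,
        ← mul_sum]
      have h5 := abs_nonneg (cos (π * ((z : ℝ) / 4 ^ (τ + 1))))
      nlinarith only [i1, i2, i3, h5]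
    have pr : ∀ u : ℕ, |cos (π * (((y * w ^ u : ℤ) : ℝ) / 4 ^ (τ + 1)))| +
        |cos (π * (((y * w ^ (u + 2) : ℤ) : ℝ) / 4 ^ (τ + 1)))| ≤ 36 / 25 := fun u => by
      have e3 : y * w ^ (u + 2) = y * w ^ u + 2 * 4 ^ τ * (w ^ u * c * (2 * e + 1)) := by
        have : w + 1 = 2 * (2 * e + 1) := by rw [hw]; ring
        linear_combination w ^ u * (w + 1) * h + w ^ u * c * 4 ^ τ * this
      rw [e3]
      exact cos_pair τ _ _ ((hwo.pow.mul hc).mul ⟨_, rfl⟩)
    rw [pow_succ' 4 T, sum_four, pow_succ' (96 / 25 : ℝ)]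
    have k0 := key 0
    have k1 := key 1
    have k2 := key 2
    have k3 := key 3
    have p0 := pr 0
    have p1 := pr 1
    have hp : (0 : ℝ) < (96 / 25) ^ T := by positivity
    simp only [add_zero, zero_add, Nat.reduceAdd] at k0 p0 p1
    nlinarith

theorem bn_gam (T N : ℕ) (R : ℤ) (hR : ¬ (4 : ℤ) ∣ R) :
    Bn N (fun i => Gam T 2 (3 ^ i * R)) ≤ (24 / 25) ^ T + 8 * 8 ^ T / √(N + 1) := by
  obtain ⟨r, hr, c, e, h1, hc, h2⟩ : ∃ r : ℕ, r ≤ 4 ∧ ∃ c e : ℤ,
      R * (3 ^ r - 1) = c * 4 ^ 2 ∧ Odd c ∧ (3 : ℤ) ^ r = 1 + 4 * e := by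
    rcases Int.even_or_odd' R with ⟨a, rfl | rfl⟩
    · refine ⟨2, by norm_num, a, 2, by ring, ?_, by norm_num⟩
      rcases Int.even_or_odd' a with ⟨b, rfl | rfl⟩
      · exact absurd ⟨b, by ring⟩ hR
      · exact ⟨b, rfl⟩
    · exact ⟨4, le_rfl, 5 * (2 * a + 1), 20, by ring, ⟨5 * a + 2, by ring⟩, by norm_num⟩
  have hs : 0 < √((N : ℝ) + 1) := sqrt_pos.2 (by positivity)
  have h3 : ∀ s ∈ range (4 ^ T), Bn N (fun i => Gam T 2 (3 ^ i * R)) ≤
      Bn N (fun i => Gam T 2 (3 ^ (i + r * s) * R)) + 8 * 8 ^ T / √(N + 1) := fun s hs' => by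
    have h4 := Bn_shift N (r * s) (F := fun i => Gam T 2 (3 ^ i * R)) (B := 2 ^ T)
      fun i => by rw [abs_of_nonneg (gam_bd _ _ _).1]; exact (gam_bd _ _ _).2
    have h5 : ((r * s : ℕ) : ℝ) ≤ 4 * 4 ^ T := by
      exact_mod_cast Nat.mul_le_mul hr (mem_range.1 hs').le
    have h6 : 2 * 2 ^ T * ((r * s : ℕ) : ℝ) / √(N + 1) ≤ 8 * 8 ^ T / √(N + 1) := by
      refine div_le_div_of_nonneg_right ?_ hs.le
      calc 2 * 2 ^ T * ((r * s : ℕ) : ℝ) ≤ 2 * 2 ^ T * (4 * 4 ^ T) := by gcongr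
        _ = 8 * (2 * 4) ^ T := by rw [mul_pow]; ring
        _ = _ := by norm_num
    linarith only [(abs_le.1 h4).1, h6]
  have h7 := sum_le_sum h3
  rw [sum_const, sum_add_distrib, sum_const, ← Bn_sum, card_range] at h7
  have h8 : Bn N (fun i => ∑ s ∈ range (4 ^ T), Gam T 2 (3 ^ (i + r * s) * R)) ≤
      (96 / 25) ^ T := by
    refine (Bn_mono fun i _ => ?_).trans (Bn_const N _).le
    have e1 : ∀ s, (3 : ℤ) ^ (i + r * s) * R = 3 ^ i * R * (3 ^ r) ^ s := fun s => by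
      rw [← pow_mul]; ring
    simp only [e1]
    exact gam_mean T 2 _ _ (3 ^ i * c) e (by rw [mul_assoc, h1]; ring)
      ((by decide : Odd (3 : ℤ)).pow.mul hc) h2
  simp only [nsmul_eq_mul, Nat.cast_pow, Nat.cast_ofNat] at h7
  have h9 : (96 / 25 : ℝ) ^ T = 4 ^ T * (24 / 25) ^ T := by rw [← mul_pow]; norm_num
  refine le_of_mul_le_mul_left ?_ (by positivity : (0 : ℝ) < 4 ^ T)
  rw [mul_add]
  linarith

theorem run (x : ℝ) : ∀ s d : ℕ, (∃ R : ℤ, |4 ^ s * x - R| ≤ 1 / (2 * 4 ^ d)) →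
    ∃ (s' d' : ℕ) (R : ℤ), s' + d' = s + d ∧ |4 ^ s' * x - R| ≤ 1 / (2 * 4 ^ d') ∧
      ∀ u, s' = u + 1 → ∀ R' : ℤ, 1 / (2 * 4 ^ (d' + 1)) < |4 ^ u * x - R'| := by
  intro s
  induction s with
  | zero => exact fun d ⟨R, h⟩ => ⟨0, d, R, rfl, h, fun u hu => absurd hu (by omega)⟩
  | succ s ih =>
    intro d ⟨R, h⟩
    by_cases h1 : ∃ R : ℤ, |4 ^ s * x - R| ≤ 1 / (2 * 4 ^ (d + 1))
    · obtain ⟨s', d', R', e, h2⟩ := ih _ h1
      exact ⟨s', d', R', by omega, h2⟩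
    · push Not at h1
      refine ⟨s + 1, d, R, rfl, h, fun u hu => ?_⟩
      obtain rfl : s = u := by omega
      exact h1

theorem geo {n k : ℕ} {c : ℝ} (hc : 1 ≤ c) (h : 4 ^ n ≤ c * 3 ^ k) :
    (25 / 16 : ℝ) ^ n ≤ c * (29 / 20) ^ k := by
  refine le_of_pow_le_pow_left₀ (n := 3) (by norm_num) (by positivity) ?_
  calc ((25 / 16 : ℝ) ^ n) ^ 3 = ((25 / 16) ^ 3) ^ n := by rw [← pow_mul, ← pow_mul, mul_comm]
    _ ≤ 4 ^ n := by gcongr; norm_num
    _ ≤ c * 3 ^ k := h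
    _ ≤ c ^ 3 * ((29 / 20) ^ 3) ^ k := by
      gcongr
      · exact le_self_pow₀ hc (by norm_num)
      · norm_num
    _ = _ := by rw [mul_pow, ← pow_mul, ← pow_mul, mul_comm 3 k]

theorem far_le {i T k : ℕ} (h : 19 * k ≤ 20 * (i + 2 * T)) :
    (1 : ℝ) ≤ (9 / 4) ^ T * (681 / 1000) ^ k * (3 / 2) ^ i := by
  refine le_of_pow_le_pow_left₀ (n := 20) (by norm_num) (by positivity) ?_
  have e : ((9 / 4 : ℝ) ^ T * (681 / 1000) ^ k * (3 / 2) ^ i) ^ 20 =
      (3 / 2) ^ (20 * (i + 2 * T)) * ((681 / 1000) ^ 20) ^ k := by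
    rw [show (9 / 4 : ℝ) = (3 / 2) ^ 2 by norm_num]
    simp only [mul_pow, ← pow_mul]
    rw [mul_comm 20 k, mul_right_comm, ← pow_add]
    congr 2; ring
  rw [e, one_pow]
  calc (1 : ℝ) ≤ ((3 / 2) ^ 19 * (681 / 1000) ^ 20) ^ k := one_le_pow₀ (by norm_num)
    _ = (3 / 2) ^ (19 * k) * ((681 / 1000) ^ 20) ^ k := by rw [mul_pow, ← pow_mul]
    _ ≤ _ := by gcongr; norm_num

theorem good_le {i d : ℕ} {a : ℝ} (ha : 0 ≤ a) (h : 4 * i ≤ 5 * d)
    (h1 : a ^ 4 * (243 / 256) ^ d ≤ 1) : a * 3 ^ i ≤ 4 ^ d := by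
  refine le_of_pow_le_pow_left₀ (n := 4) (by norm_num) (by positivity) ?_
  calc (a * 3 ^ i) ^ 4 = a ^ 4 * 3 ^ (4 * i) := by rw [mul_pow, ← pow_mul, mul_comm i]
    _ ≤ a ^ 4 * 3 ^ (5 * d) := by gcongr; norm_num
    _ = a ^ 4 * (243 / 256) ^ d * 256 ^ d := by
      rw [mul_assoc, ← mul_pow, pow_mul]; norm_num
    _ ≤ 1 * 256 ^ d := by gcongr
    _ = (4 ^ d) ^ 4 := by rw [← pow_mul, mul_comm d, pow_mul]; norm_num

theorem ratio {γ : ℝ} (hγ : 0 < γ) (A L : ℕ) : ∃ k0 : ℕ, ∀ k : ℕ, k0 ≤ k →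
    0 < (k : ℝ) + 1 - L ∧ (1 - γ) * ((k : ℝ) + 1) ^ A ≤ ((k : ℝ) + 1 - L) ^ A := by
  obtain ⟨k0, h⟩ := exists_nat_ge (L + A * L / γ)
  refine ⟨k0, fun k hk => ?_⟩
  have h1 : (k0 : ℝ) ≤ k := by exact_mod_cast hk
  have h2 : 0 ≤ A * L / γ := by positivity
  have h3 : (0 : ℝ) ≤ L := by positivity
  have hk1 : (0 : ℝ) < k + 1 := by positivity
  refine ⟨by linarith only [h, h1, h2], ?_⟩
  have h4 : (L : ℝ) / (k + 1) ≤ 1 := (div_le_one hk1).2 (by linarith only [h, h1, h2])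
  have h5 := one_add_mul_le_pow (a := -((L : ℝ) / (k + 1))) (by linarith only [h4]) A
  have h6 : (k : ℝ) + 1 - L = (1 + -((L : ℝ) / (k + 1))) * (k + 1) := by field_simp; ring
  have h7 : A * ((L : ℝ) / (k + 1)) ≤ γ := by
    rw [← mul_div_assoc, div_le_iff₀ hk1]
    have : A * L / γ ≤ k + 1 := by linarith only [h, h1]
    rw [div_le_iff₀ hγ] at this
    linarith only [this]
  rw [h6, mul_pow]
  gcongr
  linarith only [h5, h7]

variable {q : ℕ} {Q : ℕ → ℤ → ℝ} {X : ℤ → ℝ}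

theorem step1 (h : Walk q Q X) (t : ℕ) (k : ℤ) :
    Q (t + 1) k ≤ Q t k / 4 + Q t (k - 1) / 2 + Q t (k - 2) / 4 := by
  have h1 := h.step t k
  have h2 := h.nonneg t (k - 1)
  have h3 := abs_cos_le_one (π * (4 ^ t * X k))
  nlinarith

theorem iter (h : Walk q Q X) (t s : ℕ) (k : ℤ) :
    Q (t + s) k ≤ Bn (2 * s) (fun i => Q t (k - i)) := by
  induction s generalizing k with
  | zero => simp [Bn_zero]
  | succ s ih =>
    rw [show 2 * (s + 1) = 2 * s + 2 by ring, Bn_succ_succ, ← add_assoc]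
    have e1 : (fun i : ℕ => Q t (k - ((i + 1 : ℕ) : ℤ))) = fun i : ℕ => Q t (k - 1 - i) := by
      funext i; congr 1; push_cast; ring
    have e2 : (fun i : ℕ => Q t (k - ((i + 2 : ℕ) : ℤ))) = fun i : ℕ => Q t (k - 2 - i) := by
      funext i; congr 1; push_cast; ring
    rw [e1, e2]
    linarith [step1 h (t + s) k, ih k, ih (k - 1), ih (k - 2)]

theorem le_bn (h : Walk q Q X) (t : ℕ) (k : ℤ) (F : ℕ → ℝ) (h0 : ∀ i, 0 ≤ F i)
    (h1 : ∀ i : ℕ, k = i → 1 ≤ F i) : Q t k ≤ Bn (2 * t) F := by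
  have h2 := iter h 0 t k
  rw [zero_add] at h2
  refine h2.trans (Bn_mono fun i _ => (h.zero _).trans ?_)
  split_ifs with e
  · exact h1 i (by omega)
  · exact h0 i

theorem le_one (h : Walk q Q X) (t : ℕ) (k : ℤ) : Q t k ≤ 1 :=
  (le_bn h t k (fun _ => 1) (fun _ => zero_le_one) fun _ _ => le_rfl).trans (Bn_const _ _).le

theorem le_zero (h : Walk q Q X) (t : ℕ) {k : ℤ} (hk : k < 0) : Q t k ≤ 0 :=
  (le_bn h t k (fun _ => 0) (fun _ => le_rfl) fun _ _ => by omega).trans (Bn_const _ _).le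

theorem le_pow (h : Walk q Q X) (t k : ℕ) {l : ℝ} (hl : 0 < l) :
    Q t k ≤ (l⁻¹) ^ k * (((1 + l) / 2) ^ 2) ^ t := by
  rw [← pow_mul, ← Bn_pow, ← Bn_mul]
  refine le_bn h t k _ (fun _ => by positivity) fun i e => ?_
  obtain rfl : k = i := by omega
  rw [← mul_pow, inv_mul_cancel₀ hl.ne', one_pow]

theorem X_sub (h : Walk q Q X) (k : ℤ) (i : ℕ) : X (k - i) = 3 ^ i * X k := by
  induction i with
  | zero => simp
  | succ i ih =>
    rw [show k - ((i + 1 : ℕ) : ℤ) = k - i - 1 by push_cast; ring, h.mul3, ih]; ring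

theorem gam_bound (h : Walk q Q X) (s : ℕ) {m : ℝ} (hm : 0 ≤ m) : ∀ (T τ : ℕ) (k y : ℤ) (ρ : ℝ),
    4 ^ (s + T) * X k = (y + ρ) / 4 ^ τ → 9 ^ T * |ρ| ≤ 1 / 4 →
    (∀ j : ℤ, k - 2 * T ≤ j → j ≤ k → Q s j ≤ m) → Q (s + T) k ≤ Gam T τ y * m := by
  intro T
  induction T with
  | zero => intro τ k y ρ _ _ h3; simpa [Gam] using h3 k (by simp) le_rfl
  | succ T ih =>
    intro τ k y ρ h1 h2 h3
    have hρ := abs_nonneg ρ
    have h9 : (1 : ℝ) ≤ 9 ^ T := one_le_pow₀ (by norm_num)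
    rw [pow_succ] at h2
    have e0 : 4 ^ (s + T) * X k = (y + ρ) / 4 ^ (τ + 1) := by
      rw [pow_succ (4 : ℝ) τ, ← div_div, ← h1, ← add_assoc, pow_succ]; ring
    have x1 := h.mul3 k
    have x2 : X (k - 2) = 9 * X k := by
      rw [show k - 2 = k - 1 - 1 by ring, h.mul3, x1]; ring
    have i0 := ih (τ + 1) k y ρ e0 (by linarith only [h2]) fun j a b => h3 j (by push_cast; omega) b
    have i1 := ih (τ + 1) (k - 1) (3 * y) (3 * ρ)
      (by rw [x1, mul_left_comm, e0]; push_cast; ring)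
      (by rw [abs_mul, abs_of_pos (by norm_num : (0 : ℝ) < 3)]; linarith only [h2])
      fun j a b => h3 j (by push_cast; omega) (by omega)
    have i2 := ih (τ + 1) (k - 2) (9 * y) (9 * ρ)
      (by rw [x2, mul_left_comm, e0]; push_cast; ring)
      (by rw [abs_mul, abs_of_pos (by norm_num : (0 : ℝ) < 9)]; linarith only [h2])
      fun j a b => h3 j (by push_cast; omega) (by omega)
    have hc : |cos (π * (4 ^ (s + T) * X k))| ≤
        |cos (π * ((y : ℝ) / 4 ^ (τ + 1)))| + 1 / 5 := by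
      have a1 := abs_cos_sub_cos_le (π * (4 ^ (s + T) * X k)) (π * ((y : ℝ) / 4 ^ (τ + 1)))
      have a2 : π * (4 ^ (s + T) * X k) - π * ((y : ℝ) / 4 ^ (τ + 1)) =
          π / 4 ^ (τ + 1) * ρ := by rw [e0]; ring
      have a3 : π / 4 ^ (τ + 1) ≤ 1 := by
        rw [div_le_one (by positivity)]
        exact pi_le_four.trans (le_self_pow₀ (by norm_num) (by omega))
      have a4 : 0 < π / 4 ^ (τ + 1) := by have := pi_pos; positivity
      rw [a2, abs_mul, abs_of_pos a4] at a1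
      have a5 := abs_sub_abs_le_abs_sub (cos (π * (4 ^ (s + T) * X k)))
        (cos (π * ((y : ℝ) / 4 ^ (τ + 1))))
      nlinarith only [h2, hρ, h9, a1, a3, a5]
    have h4 := h.step (s + T) k
    have h5 := mul_le_mul hc i1 (h.nonneg _ _) (by positivity)
    rw [← add_assoc, Gam]
    linarith only [i0, i2, h4, h5]

theorem caseA (h : Walk q Q X) (u d D : ℕ) (hd : d ≤ D) (k : ℤ) {m ε : ℝ} (hm : 0 ≤ m)
    (hε : 0 ≤ ε) (hw : ∀ R : ℤ, ε ≤ |4 ^ u * X k - R|)
    (hQ : ∀ j : ℤ, k - 2 * D - 2 ≤ j → Q u j ≤ m) :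
    Q (u + 1 + d) k ≤ (1 - ε ^ 2 * (1 / 4) ^ D) * m := by
  refine (iter h (u + 1) d k).trans ?_
  refine (Bn_mono (F' := fun i => m - ε ^ 2 * m * 0 ^ i) fun i hi => ?_).trans ?_
  · have q0 := hQ (k - i) (by omega)
    have q1 := hQ (k - i - 1) (by omega)
    have q2 := hQ (k - i - 2) (by omega)
    rcases Nat.eq_zero_or_pos i with rfl | hi0
    · simp only [Nat.cast_zero, sub_zero, pow_zero] at q0 q1 q2 ⊢
      have h1 := h.step u k
      have h2 := cos_white hε hw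
      have h3 := mul_le_mul h2 q1 (h.nonneg _ _) ((abs_nonneg _).trans h2)
      linarith only [q0, q2, h1, h3]
    · rw [zero_pow hi0.ne']
      linarith only [step1 h u (k - i), q0, q1, q2]
  · rw [Bn_sub, Bn_const, Bn_mul, Bn_pow, pow_mul]
    have h1 : (1 / 4 : ℝ) ^ D ≤ (((1 + 0) / 2) ^ 2) ^ d :=
      (pow_le_pow_of_le_one (by norm_num) (by norm_num) hd).trans (le_of_eq (by norm_num))
    have h2 : 0 ≤ ε ^ 2 * m := by positivity
    nlinarith only [h1, h2]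

theorem caseB (h : Walk q Q X) (s T d k : ℕ) (hd : 0 < d) (R : ℤ) {r m : ℝ} (hm : 0 ≤ m)
    (h1 : 4 ^ (s + T) * X k = (R + r) / 4 ^ 2) (hR : ¬ (4 : ℤ) ∣ R) (hr : |r| ≤ 8 / 4 ^ d)
    (hD : (32 * 9 ^ T : ℝ) ^ 4 * (243 / 256) ^ d ≤ 1)
    (hQ : ∀ s' ≤ s + T, ∀ j : ℤ, (k : ℤ) + 1 ≤ 20 * (j + 1) → Q s' j ≤ m) :
    Q (s + T + d) k ≤ m * ((24 / 25) ^ T + 8 * 8 ^ T / √((2 * d : ℕ) + 1) + 8 / d) +
      (9 / 4) ^ T * (681 / 1000) ^ k * (25 / 16) ^ d := by
  have d0 : (0 : ℝ) < d := by exact_mod_cast hd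
  refine (iter h (s + T) d k).trans ?_
  refine (Bn_mono (F' := fun i => m * Gam T 2 (3 ^ i * R) +
    m * (4 / d ^ 2) * (2 * (i : ℝ) - (2 * d : ℕ)) ^ 2 +
    (9 / 4) ^ T * (681 / 1000) ^ k * (3 / 2) ^ i) fun i hi => ?_).trans ?_
  · have p1 : 0 ≤ m * Gam T 2 (3 ^ i * R) := mul_nonneg hm (gam_bd _ _ _).1
    have p2 : 0 ≤ m * (4 / d ^ 2) * (2 * (i : ℝ) - (2 * d : ℕ)) ^ 2 := by positivity
    have p3 : (0 : ℝ) ≤ (9 / 4) ^ T * (681 / 1000) ^ k * (3 / 2) ^ i := by positivity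
    by_cases hf : 19 * k ≤ 20 * (i + 2 * T)
    · linarith only [far_le hf, le_one h (s + T) (k - i), p1, p2]
    by_cases hb : 4 * i ≤ 5 * d
    · have g1 := good_le (by positivity) hb hD
      have g2 := gam_bound h s hm T 2 (k - i) (3 ^ i * R) (3 ^ i * r)
        (by rw [X_sub h, mul_left_comm, h1]; push_cast; ring) (by
          rw [abs_mul, abs_of_pos (by positivity : (0 : ℝ) < 3 ^ i)]
          calc (9 : ℝ) ^ T * (3 ^ i * |r|) ≤ 9 ^ T * (3 ^ i * (8 / 4 ^ d)) := by gcongr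
            _ = 32 * 9 ^ T * 3 ^ i / 4 ^ d / 4 := by ring
            _ ≤ 1 / 4 := by
              gcongr
              exact (div_le_one (by positivity)).2 g1)
        fun j a b => hQ s (by omega) j (by omega)
      linarith only [p2, p3, g2]
    · have g1 := hQ (s + T) le_rfl (k - i) (by omega)
      have g2 : (5 * d : ℝ) ≤ 4 * i := by exact_mod_cast (not_le.1 hb).le
      have g3 : 1 ≤ (4 / d ^ 2) * (2 * (i : ℝ) - (2 * d : ℕ)) ^ 2 := by
        rw [div_mul_eq_mul_div, one_le_div (by positivity)]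
        push_cast
        nlinarith only [g2]
      have g4 := mul_le_mul_of_nonneg_left g3 hm
      rw [← mul_assoc] at g4
      linarith only [p1, p3, g1, g4]
  · rw [Bn_add, Bn_add, Bn_mul, Bn_mul, Bn_mul, Bn_var, Bn_pow, pow_mul]
    have g1 := mul_le_mul_of_nonneg_left (bn_gam T (2 * d) R hR) hm
    have g2 : m * (4 / d ^ 2) * ((2 * d : ℕ) : ℝ) = m * (8 / d) := by
      push_cast; field_simp; ring
    have g3 : (((1 + 3 / 2) / 2 : ℝ) ^ 2) = 25 / 16 := by norm_num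
    rw [g2, g3]
    linarith only [g1]

theorem params (A : ℕ) : ∃ T D : ℕ, ∀ d : ℕ, D ≤ d → 0 < d ∧
    (32 * 9 ^ T : ℝ) ^ 4 * (243 / 256) ^ d ≤ 1 ∧
    (20 : ℝ) ^ A * ((24 / 25) ^ T + 8 * 8 ^ T / √((2 * d : ℕ) + 1) + 8 / d) ≤ 3 / 4 := by
  have hA : (1 : ℝ) ≤ 20 ^ A := one_le_pow₀ (by norm_num)
  obtain ⟨T, hT⟩ := exists_pow_lt_of_lt_one (x := 1 / (4 * 20 ^ A)) (y := (24 / 25 : ℝ))
    (by positivity) (by norm_num)
  obtain ⟨D1, h1⟩ := exists_pow_lt_of_lt_one (x := 1 / (32 * 9 ^ T) ^ 4) (y := (243 / 256 : ℝ))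
    (by positivity) (by norm_num)
  obtain ⟨E, hE⟩ : ∃ E : ℝ, E = 32 * 20 ^ A * 8 ^ T := ⟨_, rfl⟩
  have h8 : (1 : ℝ) ≤ 8 ^ T := one_le_pow₀ (by norm_num)
  have hE1 : 32 * 20 ^ A ≤ E := by rw [hE]; nlinarith only [hA, h8]
  obtain ⟨D2, h2⟩ := exists_nat_ge (E ^ 2)
  refine ⟨T, D1 + D2, fun d hd => ?_⟩
  have h3 : E ^ 2 ≤ d := h2.trans (by exact_mod_cast (by omega : D2 ≤ d))
  have h4 : E ≤ d := by nlinarith only [hA, hE1, h3]
  have d0 : (0 : ℝ) < d := by linarith only [hA, hE1, h4]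
  refine ⟨by exact_mod_cast d0, ?_, ?_⟩
  · have h5 : (243 / 256 : ℝ) ^ d ≤ 1 / (32 * 9 ^ T) ^ 4 :=
      (pow_le_pow_of_le_one (by norm_num) (by norm_num) (by omega)).trans h1.le
    rwa [le_div_iff₀ (by positivity), mul_comm] at h5
  · have h5 : E ≤ √((2 * d : ℕ) + 1) := le_sqrt_of_sq_le (by push_cast; linarith only [hA, hE1, h3, h4])
    have h6 : 20 ^ A * (8 * 8 ^ T / √((2 * d : ℕ) + 1)) ≤ 1 / 4 := by
      rw [← mul_div_assoc, div_le_iff₀ (by linarith only [hA, hE1, h5])]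
      linarith only [hE, h5]
    have h7 : 20 ^ A * (8 / (d : ℝ)) ≤ 1 / 4 := by
      rw [← mul_div_assoc, div_le_iff₀ d0]
      linarith only [hE1, h4]
    rw [lt_div_iff₀ (by positivity)] at hT
    linarith

theorem decay (q A : ℕ) : ∃ C : ℝ, 0 < C ∧ ∀ Q X, Walk q Q X →
    ∀ t k : ℕ, Q t k ≤ C / ((k : ℝ) + 1) ^ A := by
  obtain ⟨T, D, hP⟩ := params A
  obtain ⟨k0, hk0⟩ := ratio (γ := (1 / (2 * 4 ^ (D + 1))) ^ 2 * (1 / 4) ^ D) (by positivity) A
    (2 * D + 2)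
  obtain ⟨C1, hC1, hg⟩ := geo_poly (θ := 99 / 100) (by norm_num) (by norm_num) A
  obtain ⟨c, hc⟩ : ∃ c : ℝ, c = 4 ^ (T + 2) * q + 1 := ⟨_, rfl⟩
  have c1 : 1 ≤ c := by rw [hc]; exact le_add_of_nonneg_left (by positivity)
  have h94 : (1 : ℝ) ≤ (9 / 4) ^ T := one_le_pow₀ (by norm_num)
  obtain ⟨C, hC⟩ : ∃ C : ℝ, C = ((k0 : ℝ) + 1) ^ A + 4 * ((9 / 4) ^ T * c * C1) := ⟨_, rfl⟩
  have p1 : 0 < ((k0 : ℝ) + 1) ^ A := by positivity
  have p2 : 0 < (9 / 4 : ℝ) ^ T * c * C1 := by positivity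
  have C0 : 0 < C := by linarith
  refine ⟨C, C0, fun Q X h t => ?_⟩
  induction t using Nat.strong_induction_on with
  | _ t ih =>
  intro k
  have pk : 0 < ((k : ℝ) + 1) ^ A := by positivity
  rcases le_total k k0 with hk | hk
  · refine (le_one h t k).trans ((one_le_div pk).2 ?_)
    have : ((k : ℝ) + 1) ^ A ≤ ((k0 : ℝ) + 1) ^ A := by gcongr
    linarith only [hC, p2, this]
  have ih' : ∀ s < t, ∀ (j : ℤ) (z : ℝ), 0 < z → z ≤ j + 1 → Q s j ≤ C / z ^ A := by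
    intro s hs j z hz hj
    have hj0 : 0 ≤ j := by
      have : (-1 : ℝ) < j := by linarith only [hz, hj]
      have : (-1 : ℤ) < j := by exact_mod_cast this
      omega
    obtain ⟨n, rfl⟩ := Int.eq_ofNat_of_zero_le hj0
    refine (ih s hs n).trans ?_
    gcongr
    exact_mod_cast hj
  obtain ⟨s, d, R, hsd, hR, hmax⟩ := run (X k) t 0
    ⟨round (4 ^ t * X k), by simpa only [pow_zero, mul_one, one_div] using abs_sub_round (4 ^ t * X k)⟩
  rw [add_zero] at hsd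
  have h4d : (4 : ℝ) ^ d ≤ q * 3 ^ k := by
    have h1 := (h.sep s k R).trans (mul_le_mul_of_nonneg_left hR (by positivity))
    rw [mul_one_div, one_le_div (by positivity)] at h1
    linarith only [pow_pos (by norm_num : (0 : ℝ) < 4) d, h1]
  have hgeo : ∀ n ≤ d + (T + 2), ∀ b : ℝ, 0 ≤ b → b ≤ 681 / 1000 →
      b ^ k * (25 / 16) ^ n ≤ c * C1 / ((k : ℝ) + 1) ^ A := by
    intro n hn b b0 b1
    have h1 : (4 : ℝ) ^ n ≤ c * 3 ^ k := by
      calc (4 : ℝ) ^ n ≤ 4 ^ (d + (T + 2)) := pow_le_pow_right₀ (by norm_num) hn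
        _ = 4 ^ (T + 2) * 4 ^ d := by rw [pow_add, mul_comm]
        _ ≤ 4 ^ (T + 2) * (q * 3 ^ k) := by gcongr
        _ = 4 ^ (T + 2) * q * 3 ^ k := by ring
        _ ≤ c * 3 ^ k := by gcongr; linarith only [hc]
    calc b ^ k * (25 / 16) ^ n ≤ b ^ k * (c * (29 / 20) ^ k) := by gcongr; exact geo c1 h1
      _ = c * (b * (29 / 20)) ^ k := by rw [mul_pow]; ring
      _ ≤ c * (99 / 100) ^ k := by gcongr; linarith only [b1]
      _ ≤ c * (C1 / ((k : ℝ) + 1) ^ A) := by gcongr; exact hg k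
      _ = _ := by ring
  rcases lt_or_ge s (T + 2) with hs | hs
  · have h1 := le_pow h t k (l := 3 / 2) (by norm_num)
    have h2 := hgeo t (by omega) (3 / 2)⁻¹ (by norm_num) (by norm_num)
    rw [show ((1 + 3 / 2) / 2 : ℝ) ^ 2 = 25 / 16 by norm_num] at h1
    refine (h1.trans h2).trans (div_le_div_of_nonneg_right ?_ pk.le)
    have : 0 < c * C1 := by positivity
    nlinarith only [h94, hC, p1, this]
  obtain ⟨u, rfl⟩ : ∃ u, s = u + T + 2 := ⟨s - (T + 2), by omega⟩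
  have hw := hmax (u + T + 1) rfl
  rcases le_total d D with hd | hd
  · obtain ⟨z0, hz⟩ := hk0 k hk
    have h1 := caseA h (u + T + 1) d D hd k (m := C / ((k : ℝ) + 1 - (2 * D + 2 : ℕ)) ^ A)
      (ε := 1 / (2 * 4 ^ (D + 1))) (by positivity) (by positivity)
      (fun R' => le_trans (by gcongr; norm_num) (hw R').le)
      fun j hj => ih' _ (by omega) j _ z0 (by
        have : ((k - 2 * D - 2 : ℤ) : ℝ) ≤ j := by exact_mod_cast hj
        push_cast at this ⊢
        linarith only [this])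
    rw [← hsd]
    refine h1.trans ?_
    rw [← mul_div_assoc, div_le_div_iff₀ (by positivity) pk]
    nlinarith only [hC, p1, p2, hz]
  · obtain ⟨d0, hD, hB⟩ := hP (d + 2) (by omega)
    have h1 := caseB h u T (d + 2) k d0 R (r := 4 ^ (u + T + 2) * X k - R)
      (m := C / (((k : ℝ) + 1) / 20) ^ A) (by positivity) (by ring) (by
        rintro ⟨R', rfl⟩
        refine absurd (hw R') (not_lt.2 ?_)
        have e : 4 ^ (u + T + 2) * X k - ((4 * R' : ℤ) : ℝ) =
            4 * (4 ^ (u + T + 1) * X k - R') := by push_cast; ring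
        rw [e, abs_mul, abs_of_pos (by norm_num : (0 : ℝ) < 4)] at hR
        have e2 : (1 : ℝ) / (2 * 4 ^ (d + 1)) = 1 / (2 * 4 ^ d) / 4 := by ring
        linarith only [hR, e2]) (hR.trans (le_of_eq (by ring))) hD
      fun s' hs' j hj => ih' _ (by omega) j _ (by positivity) (by
        have : (((k : ℤ) + 1 : ℤ) : ℝ) ≤ (20 * (j + 1) : ℤ) := by exact_mod_cast hj
        push_cast at this
        linarith only [this])
    rw [show t = u + T + (d + 2) by omega]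
    refine h1.trans ?_
    have h2 := hgeo (d + 2) (by omega) (681 / 1000) (by norm_num) le_rfl
    have h3 : C / (((k : ℝ) + 1) / 20) ^ A = C / ((k : ℝ) + 1) ^ A * 20 ^ A := by
      rw [div_pow]; field_simp
    have h4 : (9 / 4 : ℝ) ^ T * (c * C1 / ((k : ℝ) + 1) ^ A) ≤ C / ((k : ℝ) + 1) ^ A / 4 := by
      rw [← mul_div_assoc, div_right_comm]
      exact div_le_div_of_nonneg_right (by linarith only [hC, p1]) pk.le
    have h5 := mul_le_mul_of_nonneg_left h2 (zero_le_one.trans h94)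
    have h6 := mul_le_mul_of_nonneg_left hB (div_pos C0 pk).le
    rw [h3, mul_assoc, mul_assoc]
    linarith only [h4, h5, h6]

end Dec

theorem decay2 (q A : ℕ) : ∃ C : ℝ, 0 < C ∧ ∀ Q X, Walk q Q X →
    ∀ (t : ℕ) (j : ℤ), Q t j ≤ C / ((t : ℝ) + 1) ^ A := by
  obtain ⟨C, hC, h1⟩ := Dec.decay q A
  obtain ⟨C2, hC2, h2⟩ := geo_poly (θ := 27 / 32) (by norm_num) (by norm_num) A
  have p : 0 < 2 ^ A * C := by positivity
  refine ⟨2 ^ A * C + C2, by positivity, fun Q X h t j => ?_⟩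
  have pt : 0 < ((t : ℝ) + 1) ^ A := by positivity
  rcases lt_or_ge j 0 with hj | hj
  · exact (Dec.le_zero h t hj).trans (by positivity)
  obtain ⟨k, rfl⟩ := Int.eq_ofNat_of_zero_le hj
  rcases le_total t (2 * k) with hk | hk
  · refine (h1 Q X h t k).trans ?_
    have h3 : ((t : ℝ) + 1) ^ A ≤ (2 * ((k : ℝ) + 1)) ^ A := by
      have : (t : ℝ) ≤ 2 * k := by exact_mod_cast hk
      gcongr; linarith only [this]
    rw [mul_pow] at h3
    rw [div_le_div_iff₀ (by positivity) pt]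
    have h4 : 0 < C2 * ((k : ℝ) + 1) ^ A := by positivity
    nlinarith only [hC, h3, h4]
  · refine (Dec.le_pow h t k (l := 1 / 2) (by norm_num)).trans (le_trans ?_ ((h2 t).trans
      (div_le_div_of_nonneg_right (by linarith) pt.le)))
    have h3 : ((1 / 2 : ℝ)⁻¹) ^ k ≤ (3 / 2) ^ t := by
      refine le_of_pow_le_pow_left₀ (n := 2) (by norm_num) (by positivity) ?_
      calc (((1 / 2 : ℝ)⁻¹) ^ k) ^ 2 = 2 ^ (2 * k) := by rw [← pow_mul, mul_comm]; norm_num
        _ ≤ 2 ^ t := pow_le_pow_right₀ (by norm_num) hk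
        _ ≤ ((3 / 2) ^ 2) ^ t := by gcongr; norm_num
        _ = _ := by rw [← pow_mul, ← pow_mul, mul_comm]
    calc _ ≤ (3 / 2 : ℝ) ^ t * (((1 + 1 / 2) / 2) ^ 2) ^ t := by gcongr
      _ = _ := by rw [← mul_pow]; norm_num

end Pool.Agent.MP_158692_nt

end

-- part MP_158692_nt.Mix
section

/-! Mixing: the transfer operator kills mean zero periodic functions (section 2 of the notes). -/

namespace Pool.Agent.MP_158692_nt

open Finset Function

/-- the additive character `exp (2 π i x)` -/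
noncomputable def ee (x : ℝ) : ℂ := Complex.exp ((2 * Real.pi * x : ℝ) * Complex.I)

theorem ee_add (x y : ℝ) : ee (x + y) = ee x * ee y := by
  rw [ee, ee, ee, ← Complex.exp_add]; congr 1; push_cast; ring

theorem ee_zero : ee 0 = 1 := by simp [ee]

theorem ee_norm (x : ℝ) : ‖ee x‖ = 1 := Complex.norm_exp_ofReal_mul_I _

theorem ee_int (n : ℤ) : ee n = 1 := by
  rw [ee, ← Complex.exp_int_mul_two_pi_mul_I n]; congr 1; push_cast; ring

theorem ee_conj (x : ℝ) : (starRingEnd ℂ) (ee x) = ee (-x) := by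
  rw [ee, ee, ← Complex.exp_conj, map_mul, Complex.conj_ofReal, Complex.conj_I]
  congr 1; push_cast; ring

theorem ee_pow (n : ℕ) (x : ℝ) : ee (n * x) = ee x ^ n := by
  rw [ee, ee, ← Complex.exp_nat_mul]; congr 1; push_cast; ring

theorem ee_cos (y : ℝ) : ‖ee y + ee (2 * y)‖ = 2 * |Real.cos (Real.pi * y)| := by
  have h : ee y + ee (2 * y) = ee (3 / 2 * y) * ((2 * Real.cos (Real.pi * y) : ℝ) : ℂ) := by
    have h1 : ((2 * Real.cos (Real.pi * y) : ℝ) : ℂ) = ee (y / 2) + ee (-(y / 2)) := by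
      push_cast
      rw [Complex.two_cos, ee, ee]
      congr 2 <;> push_cast <;> ring
    rw [h1, mul_add, ← ee_add, ← ee_add, add_comm]
    congr 2 <;> ring
  rw [h, norm_mul, ee_norm, one_mul, Complex.norm_real, Real.norm_eq_abs, abs_mul, abs_two]

theorem ee_orth {W : ℕ} (hW : 0 < W) (z : ℤ) :
    ∑ η ∈ range W, ee (η * (z / W)) = if (W : ℤ) ∣ z then (W : ℂ) else 0 := by
  have hW' : (W : ℝ) ≠ 0 := by positivity
  simp only [ee_pow]
  split_ifs with h
  · obtain ⟨c, rfl⟩ := h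
    rw [show (((W : ℤ) * c : ℤ) : ℝ) / W = c by push_cast; field_simp, ee_int]
    simp
  · have h1 : ee (z / W) ≠ 1 := fun e => h (by
      obtain ⟨n, hn⟩ := Complex.exp_eq_one_iff.1 e
      have h2 : 2 * Real.pi * (z / W) = n * (2 * Real.pi) := by
        have := mul_right_cancel₀ Complex.I_ne_zero (hn.trans (mul_assoc _ _ _).symm)
        exact_mod_cast this
      have h3 : (z : ℝ) = W * n := by
        have := Real.pi_pos
        field_simp at h2
        linarith only [h2]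
      exact ⟨n, by exact_mod_cast h3⟩)
    rw [geom_sum_eq h1, ← ee_pow, show (W : ℝ) * (z / W) = z by field_simp, ee_int]
    simp

theorem ee_parseval {ι : Type*} {W : ℕ} (hW : 0 < W) (s : Finset ι) (a : ι → ℝ) (z : ι → ℤ) :
    ∑ η ∈ range W, ‖∑ i ∈ s, (a i : ℂ) * ee (η * (z i / W))‖ ^ 2 =
      W * ∑ i ∈ s, ∑ j ∈ s, if (W : ℤ) ∣ z i - z j then a i * a j else 0 := by
  apply Complex.ofReal_injective
  have h : ∀ η : ℕ, ((‖∑ i ∈ s, (a i : ℂ) * ee (η * (z i / W))‖ ^ 2 : ℝ) : ℂ) =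
      ∑ i ∈ s, ∑ j ∈ s, (a i * a j : ℂ) * ee (η * ((z i - z j : ℤ) / W)) := fun η => by
    rw [Complex.ofReal_pow, ← Complex.mul_conj', map_sum, sum_mul_sum]
    refine sum_congr rfl fun i _ => sum_congr rfl fun j _ => ?_
    rw [map_mul, Complex.conj_ofReal, ee_conj, mul_mul_mul_comm, ← ee_add]
    congr 2; push_cast; ring
  rw [Complex.ofReal_sum]
  simp only [h]
  rw [sum_comm, Complex.ofReal_mul, Complex.ofReal_sum, mul_sum]
  refine sum_congr rfl fun i _ => ?_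
  rw [sum_comm, Complex.ofReal_sum, mul_sum]
  refine sum_congr rfl fun j _ => ?_
  rw [← mul_sum, ee_orth hW]
  split_ifs <;> push_cast <;> ring

/-- the characteristic function of the offset on the paths with `k` odd steps -/
noncomputable def Phi (M : ℕ) (k : ℤ) (x : ℝ) : ℂ :=
  Sm M (fun k' G => if (k' : ℤ) = k then ee (x * G) else 0) / 2 ^ M

theorem Phi_succ (M : ℕ) (k : ℤ) (x : ℝ) :
    Phi (M + 1) k x = Phi M k x / 2 + ee (2 ^ M * x) * Phi M (k - 1) (3 * x) / 2 := by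
  have : Sm M (fun k' G => if ((k' + 1 : ℕ) : ℤ) = k then ee (x * ((2 ^ M + 3 * G : ℕ) : ℝ)) else 0)
      = ee (2 ^ M * x) * Sm M (fun k' G => if (k' : ℤ) = k - 1 then ee (3 * x * G) else 0) := by
    rw [← Sm_mul]
    refine Sm_congr fun k' G _ => ?_
    by_cases h : (k' : ℤ) = k - 1
    · rw [if_pos h, if_pos (by omega), ← ee_add]; congr 1; push_cast; ring
    · rw [if_neg h, if_neg (by omega), mul_zero]
  rw [Phi, Sm_succ, this, Phi, Phi]; ring

theorem Phi_add (M1 M2 : ℕ) (k : ℤ) (x : ℝ) : Phi (M1 + M2) k x =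
    ∑ k1 ∈ range (M1 + 1), Phi M1 k1 (2 ^ M2 * x) * Phi M2 (k - k1) (3 ^ k1 * x) := by
  have h : ∀ k1 : ℕ, Phi M1 k1 (2 ^ M2 * x) * Phi M2 (k - k1) (3 ^ k1 * x) =
      (2 ^ M1 : ℂ)⁻¹ * Sm M1 (fun k' G => if k' = k1 then
        ee (2 ^ M2 * x * G) * Phi M2 (k - k') (3 ^ k' * x) else 0) := fun k1 => by
    rw [Phi, div_eq_inv_mul, mul_assoc, mul_comm _ (Phi _ _ _), ← Sm_mul]
    congr 1
    refine Sm_congr fun k' G _ => ?_
    by_cases e : k' = k1
    · subst e; simp [mul_comm]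
    · rw [if_neg e, if_neg (by omega), mul_zero]
  simp only [h]
  rw [← mul_sum, ← Sm_sum, Phi, Sm_add_len, pow_add, mul_comm ((2 : ℂ) ^ M1), ← div_div,
    div_eq_inv_mul _ ((2 : ℂ) ^ M1), div_eq_inv_mul _ ((2 : ℂ) ^ M2), ← Sm_mul M1 (2 ^ M2 : ℂ)⁻¹]
  congr 1
  refine Sm_congr fun k1 G1 a => ?_
  rw [sum_ite_eq, if_pos (mem_range.2 (Nat.lt_succ_of_le a.k_le)), Phi,
    div_eq_inv_mul _ ((2 : ℂ) ^ M2), mul_left_comm, ← Sm_mul M2 (ee _)]
  congr 1
  refine Sm_congr fun k2 G2 _ => ?_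
  by_cases e : (k2 : ℤ) = k - k1
  · rw [if_pos e, if_pos (by push_cast; omega), ← ee_add]; congr 1; push_cast; ring
  · rw [if_neg e, if_neg (by push_cast; omega), mul_zero]

theorem mix_walk {q : ℕ} (hq : Odd q) {η : ℕ} (h : ¬ q ∣ η) :
    Walk q (fun t k => ‖Phi (2 * t) k (-η / (3 ^ k * q))‖) (fun k => -η / (3 ^ k * q)) := by
  have hq0 : (0 : ℝ) < q := by exact_mod_cast hq.pos
  have m3 : ∀ k : ℤ, -(η : ℝ) / (3 ^ (k - 1) * q) = 3 * (-η / (3 ^ k * q)) := fun k => by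
    rw [zpow_sub_one₀ (by norm_num)]; field_simp
  refine ⟨fun _ _ => norm_nonneg _, fun k => ?_, m3, fun t k => ?_, fun t k R => ?_⟩
  · simp only [Phi, mul_zero, Sm_zero, Nat.cast_zero, ee_zero, eq_comm (a := (0 : ℤ))]
    split_ifs <;> simp
  · rw [show k - 2 = k - 1 - 1 by ring, m3 (k - 1), m3 k]
    generalize -(η : ℝ) / (3 ^ k * q) = x
    rw [show 2 * (t + 1) = 2 * t + 1 + 1 by ring, Phi_succ, Phi_succ, Phi_succ, pow_succ, pow_mul,
      show (2 : ℝ) ^ 2 = 4 by norm_num, mul_right_comm, mul_comm _ (2 : ℝ)]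
    generalize Phi (2 * t) k x = a
    generalize Phi (2 * t) (k - 1) (3 * x) = b
    generalize Phi (2 * t) (k - 1 - 1) (3 * (3 * x)) = c
    generalize (4 : ℝ) ^ t * (3 * x) = y'
    generalize (4 : ℝ) ^ t * x = y
    rw [show (a / 2 + ee y * b / 2) / 2 + ee (2 * y) * (b / 2 + ee y' * c / 2) / 2 =
      a / 4 + (ee y + ee (2 * y)) * b / 4 + ee (2 * y) * ee y' * c / 4 by ring]
    refine norm_add₃_le.trans (le_of_eq ?_)
    simp only [norm_div, norm_mul, ee_norm, ee_cos, Complex.norm_ofNat]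
    ring
  · have e : (q : ℝ) * 3 ^ k * |4 ^ t * (-(η : ℝ) / (3 ^ (k : ℤ) * q)) - R| =
        ((|4 ^ t * (η : ℤ) + q * (3 ^ k * R)| : ℤ) : ℝ) := by
      rw [zpow_natCast, ← abs_of_pos (by positivity : (0 : ℝ) < q * 3 ^ k), ← abs_mul, ← abs_neg]
      push_cast
      congr 1; field_simp; ring
    rw [e]
    have : (4 : ℤ) ^ t * η + q * (3 ^ k * R) ≠ 0 := fun e => h (by
      have h1 : (q : ℤ) ∣ 4 ^ t * η := ⟨-(3 ^ k * R), by linarith only [e]⟩
      have h2 : q ∣ 4 ^ t * η := by exact_mod_cast h1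
      exact (Nat.Coprime.pow_right t (Nat.Coprime.pow_right 2
        (Nat.coprime_two_right.2 hq))).dvd_of_dvd_mul_left h2)
    exact_mod_cast Int.one_le_abs this

/-- the twisted Fourier coefficient of `Tk M κ f` -/
theorem mix_coef {q : ℕ} (hq : Odd q) {f : ℤ → ℝ} (hf : Periodic f (q : ℤ)) (M κ η : ℕ) :
    ∑ b ∈ range (3 ^ κ * q), (Tk M κ f b : ℂ) *
        ee (η * ((-(2 ^ M * b) : ℤ) / (3 ^ κ * q : ℕ))) =
      Phi M κ (-η / (3 ^ (κ : ℤ) * q)) * (3 ^ κ * ∑ n ∈ range q, (f n : ℂ) * ee (-η * n / q)) := by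
  have hq0 : (0 : ℝ) < q := by exact_mod_cast hq.pos
  have hp : Periodic (fun n : ℤ => (f n : ℂ) * ee (-η * n / q)) (q : ℤ) := fun n => by
    beta_reduce
    rw [hf n, show -(η : ℝ) * ((n + (q : ℤ) : ℤ) : ℝ) / q = -η * n / q + (-η : ℤ) by
      push_cast; field_simp; ring, ee_add, ee_int, mul_one]
  have h : ∀ b : ℤ, (Tk M κ f b : ℂ) * ee (η * ((-(2 ^ M * b) : ℤ) / (3 ^ κ * q : ℕ))) =
      (2 ^ M : ℂ)⁻¹ * Sm M (fun k G => (if (k : ℤ) = κ then ee (-η / (3 ^ (κ : ℤ) * q) * G) else 0) *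
        pull M κ G (fun n : ℤ => (f n : ℂ) * ee (-η * n / q)) b) := fun b => by
    rw [Tk, Tr, Sm, Sm, div_eq_inv_mul]
    push_cast
    rw [mul_assoc, sum_mul]
    congr 1
    refine sum_congr rfl fun p _ => ?_
    generalize kk M p = k
    generalize GG M p = G
    by_cases e : k = κ
    · subst e
      simp only [pull, if_true]
      split_ifs with d
      · obtain ⟨n, hn⟩ := d
        have hn' : (2 : ℝ) ^ M * b = 3 ^ k * n + G := by exact_mod_cast sub_eq_iff_eq_add.1 hn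
        rw [hn, Int.mul_ediv_cancel_left _ (by positivity), hn', zpow_natCast,
          show (η : ℝ) * (-(3 ^ k * n + G) / (3 ^ k * q)) =
            -η / (3 ^ k * q) * G + -η * n / q by field_simp; ring, ee_add]
        push_cast; ring
      · simp only [Complex.ofReal_zero, zero_mul, zpow_natCast, mul_zero]
    · simp only [pull, e, ↓ reduceIte, mul_zero, ite_self, Complex.ofReal_zero, zero_mul, Nat.cast_inj, neg_mul, mul_ite]
  simp only [h]
  rw [← mul_sum, ← Sm_sum, Phi, div_eq_inv_mul _ ((2 : ℂ) ^ M), mul_assoc, mul_comm (Sm _ _),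
    ← Sm_mul M (3 ^ κ * _)]
  congr 1
  refine Sm_congr fun k G _ => ?_
  rw [← mul_sum, sum_pull _ _ _ hq hp, mul_comm]
  simp only [Int.cast_natCast, neg_mul, Nat.cast_inj, zpow_natCast, mul_ite, mul_zero]

/-- paths with the same number of odd steps and congruent smaller offset -/
theorem mix_count {W : ℕ} (hW : 0 < W) (M k G : ℕ) :
    Sm M (fun k' G' => if k' = k ∧ G' ≤ G ∧ (W : ℤ) ∣ G - G' then (1 : ℝ) else 0) ≤ G / W + 1 := by
  have h1 : Sm M (fun k' G' => if k' = k ∧ G' ≤ G ∧ (W : ℤ) ∣ G - G' then (1 : ℝ) else 0) ≤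
      Sm M (fun k' G' => ∑ j ∈ range (G / W + 1), if k' = k ∧ G' = G - W * j then 1 else 0) := by
    refine Sm_le fun k' G' _ => ?_
    split_ifs with h
    · obtain ⟨h1, h2, h3⟩ := h
      obtain ⟨j, hj⟩ : W ∣ G - G' := by rw [← Nat.cast_sub h2] at h3; exact_mod_cast h3
      have hj' : j ∈ range (G / W + 1) := mem_range.2 (Nat.lt_succ_of_le
        ((Nat.le_div_iff_mul_le hW).2 (by rw [mul_comm]; omega)))
      refine le_trans (le_of_eq ?_) (single_le_sum (fun _ _ => by positivity) hj')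
      rw [if_pos ⟨h1, by omega⟩]
    · positivity
  rw [Sm_sum] at h1
  refine h1.trans ((sum_le_card_nsmul _ _ 1 fun j _ => Sm_ind_le _ _ _).trans ?_)
  rw [card_range, nsmul_one]
  push_cast
  linarith only [Nat.cast_div_le (α := ℝ) (m := G) (n := W)]

/-- the collision bound -/
theorem mix_coll {W : ℕ} (hW : Odd W) (M s : ℕ) (h : W ≤ 2 ^ M) :
    ∑ η ∈ range W, ∑ k ∈ range (M + 1), ‖Phi M k (2 ^ s * (-η / W))‖ ^ 2 ≤ M / 2 + 2 := by
  have hW0 : (0 : ℝ) < W := by exact_mod_cast hW.pos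
  have h2 : (0 : ℝ) < 2 ^ M := by positivity
  have hc : IsCoprime (W : ℤ) (2 ^ s) := IsCoprime.pow_right (by
    exact_mod_cast Nat.isCoprime_iff_coprime.2 (Nat.coprime_two_right.2 hW))
  have e : ∀ η k : ℕ, Phi M k (2 ^ s * (-η / W)) = ∑ p : Pth M,
      (((if kk M p = k then (2 ^ M)⁻¹ else 0 : ℝ) : ℝ) : ℂ) *
        ee (η * ((-(2 ^ s * GG M p) : ℤ) / W)) := fun η k => by
    rw [Phi, Sm, sum_div]
    refine sum_congr rfl fun p _ => ?_
    by_cases e : kk M p = k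
    · rw [if_pos e, if_pos (by omega), div_eq_inv_mul]
      push_cast
      congr 2; ring
    · rw [if_neg e, if_neg (by omega)]; simp
  simp only [e]
  rw [sum_comm]
  simp only [ee_parseval hW.pos]
  rw [← mul_sum, sum_comm]
  let c : Pth M → Pth M → ℝ := fun p p' =>
    if kk M p' = kk M p ∧ GG M p' ≤ GG M p ∧ (W : ℤ) ∣ GG M p - GG M p' then 1 else 0
  have h3 : ∑ p : Pth M, ∑ p' : Pth M, c p p' ≤ M * 4 ^ M / 4 / W + 2 ^ M := by
    refine (sum_le_sum fun p _ => mix_count hW.pos M (kk M p) (GG M p)).trans (le_of_eq ?_)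
    have := Sm_G M
    have h4 := Sm_const M (1 : ℝ)
    rw [Sm] at this h4
    rw [sum_add_distrib, ← sum_div, this, h4, mul_one]
  have h4 : ∀ p : Pth M, (∑ k ∈ range (M + 1), ∑ p' : Pth M,
      if (W : ℤ) ∣ -(2 ^ s * GG M p) - -(2 ^ s * GG M p') then
        (if kk M p = k then (2 ^ M)⁻¹ else 0) * (if kk M p' = k then (2 ^ M)⁻¹ else 0 : ℝ) else 0) ≤
      ∑ p' : Pth M, ((2 ^ M)⁻¹) ^ 2 * (c p p' + c p' p) := fun p => by
    rw [sum_comm]
    refine sum_le_sum fun p' _ => ?_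
    have c0 : ∀ a b, 0 ≤ c a b := fun a b => by simp only [c]; positivity
    rw [sum_eq_single (kk M p) (fun k _ hk => by simp only [sub_neg_eq_add, hk.symm, ↓ reduceIte, mul_ite, zero_mul, mul_zero, ite_self]) (fun hk => absurd
      (mem_range.2 (Nat.lt_succ_of_le (adm_path M p).k_le)) hk)]
    split_ifs with d _ e'
    · have d' : (W : ℤ) ∣ GG M p' - GG M p := hc.dvd_of_dvd_mul_left (by
        rwa [show -(2 ^ s * (GG M p : ℤ)) - -(2 ^ s * GG M p') = 2 ^ s * (GG M p' - GG M p) by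
          ring] at d)
      rw [← sq]
      refine le_mul_of_one_le_right (by positivity) ?_
      rcases le_total (GG M p) (GG M p') with l | l
      · have : c p' p = 1 := if_pos ⟨e'.symm, l, d'⟩
        linarith only [c0 p p', this]
      · have : c p p' = 1 := if_pos ⟨e', l, dvd_sub_comm.1 d'⟩
        linarith only [c0 p' p, this]
    · rw [mul_zero]; exact mul_nonneg (by positivity) (add_nonneg (c0 _ _) (c0 _ _))
    · contradiction
    · contradiction
    · exact mul_nonneg (by positivity) (add_nonneg (c0 _ _) (c0 _ _))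
  refine (mul_le_mul_of_nonneg_left (sum_le_sum fun p _ => h4 p) hW0.le).trans ?_
  simp only [← mul_sum, sum_add_distrib]
  rw [sum_comm (f := fun p p' => c p' p)]
  have h5 : (W : ℝ) ≤ 2 ^ M := by exact_mod_cast h
  have h6 : (4 : ℝ) ^ M = (2 ^ M) ^ 2 := by rw [← pow_mul, mul_comm, pow_mul]; norm_num
  calc _ ≤ W * (((2 : ℝ) ^ M)⁻¹ ^ 2 * (2 * (M * 4 ^ M / 4 / W + 2 ^ M))) := by gcongr; linarith only [h3]
    _ = M / 2 + 2 * (W / 2 ^ M) := by rw [h6]; field_simp; ring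
    _ ≤ _ := by have := (div_le_one h2).2 h5; linarith only [this]

/-- small periods -/
theorem mix_small {q : ℕ} (hq : Odd q) {f : ℤ → ℝ} (hf : Periodic f (q : ℤ))
    (h0 : ∑ n ∈ range q, f n = 0) (h1 : ∀ n, |f n| ≤ 1) (M t κ : ℕ) {δ : ℝ} (hδ : 0 ≤ δ)
    (hd : ∀ Q X, Walk q Q X → ∀ j, Q t j ≤ δ) (h : 3 ^ κ * q ≤ 2 ^ M) :
    avg (3 ^ κ * q) (fun b => |Tk (M + 2 * t) κ f b|) ≤ δ * (2 * (M + 1)) := by
  have hq0 : (0 : ℝ) < q := by exact_mod_cast hq.pos
  have hW : Odd (3 ^ κ * q) := (Odd.pow (by decide)).mul hq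
  have hWe : ((3 ^ κ * q : ℕ) : ℝ) = 3 ^ (κ : ℤ) * q := by rw [zpow_natCast]; push_cast; rfl
  have P := ee_parseval hW.pos (range (3 ^ κ * q)) (fun b => Tk (M + 2 * t) κ f b)
    (fun b => -(2 ^ (M + 2 * t) * b))
  simp only [mix_coef hq hf] at P
  have C := mix_coll hW M (2 * t) h
  rw [hWe] at C
  have hb : ∀ η : ℕ, ‖Phi (M + 2 * t) κ (-η / (3 ^ (κ : ℤ) * q)) *
      (3 ^ κ * ∑ n ∈ range q, (f n : ℂ) * ee (-η * n / q))‖ ^ 2 ≤
      (δ * (3 ^ κ * q : ℕ)) ^ 2 * (M + 1) *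
        ∑ k ∈ range (M + 1), ‖Phi M k (2 ^ (2 * t) * (-η / (3 ^ (κ : ℤ) * q)))‖ ^ 2 := fun η => by
    by_cases d : q ∣ η
    · obtain ⟨c, rfl⟩ := d
      have : ∀ n : ℕ, ee (-(q * c : ℕ) * n / q) = 1 := fun n => by
        rw [← ee_int (-(c * n))]; congr 1; push_cast; field_simp
      simp only [this, mul_one]
      rw [← Complex.ofReal_sum, h0]
      simp only [Complex.ofReal_zero, mul_zero, norm_zero]
      rw [zero_pow two_ne_zero]; positivity
    · have a1 : ‖(3 ^ κ * ∑ n ∈ range q, (f n : ℂ) * ee (-η * n / q))‖ ≤ (3 ^ κ * q : ℕ) := by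
        rw [norm_mul, norm_pow, Complex.norm_ofNat]
        push_cast
        gcongr
        refine (norm_sum_le _ _).trans ((sum_le_card_nsmul _ _ 1 fun n _ => ?_).trans (by simp))
        rw [norm_mul, ee_norm, mul_one, Complex.norm_real]; exact h1 _
      have a2 : ‖Phi (M + 2 * t) κ (-η / (3 ^ (κ : ℤ) * q))‖ ≤
          δ * ∑ k ∈ range (M + 1), ‖Phi M k (2 ^ (2 * t) * (-η / (3 ^ (κ : ℤ) * q)))‖ := by
        rw [Phi_add, mul_sum]
        refine (norm_sum_le _ _).trans (sum_le_sum fun k _ => ?_)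
        rw [norm_mul, mul_comm]
        gcongr
        have := hd _ _ (mix_walk hq d) (κ - k)
        rwa [show -(η : ℝ) / (3 ^ ((κ : ℤ) - k) * q) = 3 ^ k * (-η / (3 ^ (κ : ℤ) * q)) by
          rw [zpow_sub₀ (by norm_num), zpow_natCast, zpow_natCast]; field_simp] at this
      have a3 := sq_sum_le_card_mul_sum_sq (s := range (M + 1))
        (f := fun k : ℕ => ‖Phi M k (2 ^ (2 * t) * (-η / (3 ^ (κ : ℤ) * q)))‖)
      rw [card_range, Nat.cast_succ] at a3
      rw [norm_mul]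
      calc _ ≤ (δ * (∑ k ∈ range (M + 1), ‖Phi M k (2 ^ (2 * t) * (-η / (3 ^ (κ : ℤ) * q)))‖) *
            (3 ^ κ * q : ℕ)) ^ 2 := by gcongr
        _ = _ := by rw [mul_right_comm, mul_pow]
        _ ≤ _ := by rw [mul_assoc]; gcongr
  have hc : IsCoprime ((3 ^ κ * q : ℕ) : ℤ) (2 ^ (M + 2 * t)) := IsCoprime.pow_right (by
    exact_mod_cast Nat.isCoprime_iff_coprime.2 (Nat.coprime_two_right.2 hW))
  have hW0 : (0 : ℝ) < (3 ^ κ * q : ℕ) := by exact_mod_cast hW.pos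
  generalize 3 ^ κ * q = W at *
  generalize Tk (M + 2 * t) κ f = u at *
  have e : (∑ i ∈ range W, ∑ j ∈ range W, if (W : ℤ) ∣ -(2 ^ (M + 2 * t) * (i : ℤ)) -
      -(2 ^ (M + 2 * t) * (j : ℤ)) then u i * u j else 0) = ∑ i ∈ range W, |u i| ^ 2 := by
    refine sum_congr rfl fun i hi => ?_
    rw [sum_eq_single_of_mem i hi fun j hj ne => if_neg fun d => ne ?_, if_pos (by simp), sq_abs, sq]
    have d' : (W : ℤ) ∣ j - i := hc.dvd_of_dvd_mul_left (by
      rwa [show -(2 ^ (M + 2 * t) * (i : ℤ)) - -(2 ^ (M + 2 * t) * (j : ℤ)) =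
        2 ^ (M + 2 * t) * (j - i) by ring] at d)
    have := Int.eq_zero_of_abs_lt_dvd d'
      (by rw [mem_range] at hi hj; rw [abs_lt]; constructor <;> omega)
    omega
  have S := sum_le_sum fun η (_ : η ∈ range W) => hb η
  rw [P, e, ← mul_sum] at S
  have a4 := sq_sum_le_card_mul_sum_sq (s := range W) (f := fun b : ℕ => |u b|)
  rw [card_range] at a4
  rw [avg, div_le_iff₀ hW0]
  refine (pow_le_pow_iff_left₀ (by positivity) (by positivity) two_ne_zero).1 (a4.trans (S.trans ?_))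
  have : (0 : ℝ) ≤ M := by positivity
  calc _ ≤ (δ * W) ^ 2 * (M + 1) * (4 * (M + 1)) := by gcongr; linarith only [C]
    _ = _ := by ring

/-- large periods -/
theorem mix_large {q : ℕ} (hq : Odd q) {f : ℤ → ℝ} (h1 : ∀ n, |f n| ≤ 1) {M κ : ℕ} (h : κ ≤ M) :
    avg (3 ^ κ * q) (fun b => |Tk M κ f b|) ≤ Bn M (fun k => if k = κ then 1 else 0) := by
  have e : 3 ^ M * q = 3 ^ (M - κ) * (3 ^ κ * q) := by
    rw [← mul_assoc, ← pow_add, Nat.sub_add_cancel h]
  have h2 := avg_Tr M hq (w := fun k _ _ => if k = κ then 1 else 0) fun _ _ _ => rfl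
  simp only [avg_const hq.pos] at h2
  rw [e] at h2
  refine (avg_mono (v := Tk M κ fun _ => 1) fun b => (Tr_abs_le _ _ _).trans
    (Tr_mono (fun k _ n _ => ?_) b)).trans (le_of_eq ?_)
  · split_ifs
    · exact h1 n
    · simp
  · rw [← avg_mul (Tk_per M κ fun _ => rfl) (c := 3 ^ (M - κ)) (by positivity)]
    exact h2

theorem mix_num {q M M1 k : ℕ} (hq : 0 < q) (hM : 19 * M ≤ 20 * M1) (h : 2 ^ M1 ≤ 3 ^ k * q) :
    (127 / 100 : ℝ) ^ M ≤ q * (3 / 2) ^ k := by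
  have hq1 : (1 : ℝ) ≤ q := by exact_mod_cast hq
  have h' : (2 : ℝ) ^ M1 ≤ 3 ^ k * q := by exact_mod_cast h
  refine (pow_le_pow_iff_left₀ (by positivity) (by positivity) (by norm_num : 380 ≠ 0)).1 ?_
  calc ((127 / 100 : ℝ) ^ M) ^ 380 = ((127 / 100) ^ 20) ^ (19 * M) := by
        rw [← pow_mul, ← pow_mul]; congr 1; ring
    _ ≤ (2 ^ 7) ^ (19 * M) := pow_le_pow_left₀ (by positivity) (by norm_num) _
    _ ≤ (2 ^ 7) ^ (20 * M1) := pow_le_pow_right₀ (by norm_num) hM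
    _ = (2 ^ M1) ^ 140 := by rw [← pow_mul, ← pow_mul]; congr 1; ring
    _ ≤ (3 ^ k * q) ^ 140 := pow_le_pow_left₀ (by positivity) h' _
    _ = q ^ 140 * (3 ^ 7) ^ (20 * k) := by
        rw [mul_pow, mul_comm, ← pow_mul, ← pow_mul]; congr 2; ring
    _ ≤ q ^ 380 * ((3 / 2) ^ 19) ^ (20 * k) := mul_le_mul (pow_le_pow_right₀ hq1 (by norm_num))
        (pow_le_pow_left₀ (by positivity) (by norm_num) _) (by positivity) (by positivity)
    _ = _ := by rw [mul_pow, ← pow_mul, ← pow_mul]; congr 2; ring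

theorem mix {q : ℕ} (hq : Odd q) (A : ℕ) : ∃ C : ℝ, 0 < C ∧ ∀ f : ℤ → ℝ, Periodic f (q : ℤ) →
    ∑ n ∈ range q, f n = 0 → (∀ n, |f n| ≤ 1) → ∀ M : ℕ,
      ∑ κ ∈ range (M + 1), avg (3 ^ κ * q) (fun b => |Tk M κ f b|) ≤ C / ((M : ℝ) + 1) ^ A := by
  obtain ⟨C, hC, hd⟩ := decay2 q (A + 2)
  obtain ⟨D, hD, hg⟩ := geo_poly (θ := 125 / 127) (by norm_num) (by norm_num) A
  refine ⟨2 * C * 40 ^ (A + 2) + q * D, by positivity, fun f hf h0 h1 M => ?_⟩
  obtain ⟨t, ht⟩ : ∃ t, t = M / 40 := ⟨_, rfl⟩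
  obtain ⟨M1, hM⟩ : ∃ M1, M = M1 + 2 * t := ⟨M - 2 * t, by omega⟩
  have hM0 : (0 : ℝ) < M + 1 := by positivity
  have hδ : C / ((t : ℝ) + 1) ^ (A + 2) ≤ C * 40 ^ (A + 2) / (M + 1) ^ (A + 2) := by
    have : (M : ℝ) + 1 ≤ 40 * (t + 1) := by exact_mod_cast (by omega : M + 1 ≤ 40 * (t + 1))
    rw [div_le_div_iff₀ (by positivity) (by positivity), mul_assoc, ← mul_pow]
    gcongr
  have key : ∀ κ ∈ range (M + 1), avg (3 ^ κ * q) (fun b => |Tk M κ f b|) ≤
      C * 40 ^ (A + 2) / (M + 1) ^ (A + 2) * (2 * (M + 1)) +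
        Bn M (fun k => if k = κ then ((127 / 100 : ℝ) ^ M)⁻¹ * q * (3 / 2) ^ k else 0) := by
    intro κ hκ
    rcases le_total (3 ^ κ * q) (2 ^ M1) with h | h
    · have := mix_small hq hf h0 h1 M1 t κ (by positivity)
        (fun Q X w j => (hd Q X w t j).trans hδ) h
      rw [← hM] at this
      refine le_add_of_le_of_nonneg (this.trans ?_) (Bn_nonneg fun _ _ => by positivity)
      have : (M1 : ℝ) ≤ M := by exact_mod_cast (by omega : M1 ≤ M)
      gcongr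
    · refine le_add_of_nonneg_of_le (by positivity) ((mix_large hq h1
        (Nat.le_of_lt_succ (mem_range.1 hκ))).trans (Bn_mono fun k _ => ?_))
      split_ifs with e
      · subst e
        rw [mul_assoc, ← div_eq_inv_mul, one_le_div (by positivity)]
        exact mix_num hq.pos (by omega) h
      · rfl
  refine (sum_le_sum key).trans ?_
  rw [sum_add_distrib, ← Bn_sum, sum_const, card_range, nsmul_eq_mul, add_div,
    Bn_congr (F' := fun k => ((127 / 100 : ℝ) ^ M)⁻¹ * q * (3 / 2) ^ k) fun k hk => by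
      rw [sum_ite_eq, if_pos (mem_range.2 (Nat.lt_succ_of_le hk))], Bn_mul, Bn_pow]
  refine add_le_add (le_of_eq ?_) ?_
  · push_cast; field_simp; ring
  · rw [mul_right_comm, ← inv_pow, ← mul_pow, mul_div_assoc, mul_comm]
    gcongr
    exact le_of_eq_of_le (by norm_num) (hg M)

end Pool.Agent.MP_158692_nt

end

-- part MP_158692_nt.Tele
section

/-! Telescoping: depth `m + s` against depth `m`. -/

namespace Pool.Agent.MP_158692_nt

open Finset Function

theorem per_pow {u : ℤ → ℝ} {a b : ℕ} (hu : Periodic u ((3 ^ a : ℕ) : ℤ)) (h : a ≤ b) :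
    Periodic u ((3 ^ b : ℕ) : ℤ) := by
  have := hu.nat_mul (3 ^ (b - a))
  rwa [← Nat.cast_mul, ← pow_add, Nat.sub_add_cancel h] at this

theorem avg_pow {u : ℤ → ℝ} {a b : ℕ} (hu : Periodic u ((3 ^ a : ℕ) : ℤ)) (h : a ≤ b) :
    avg (3 ^ b) u = avg (3 ^ a) u := by
  rw [← avg_mul hu (by positivity : 0 < 3 ^ (b - a)), ← pow_add, Nat.sub_add_cancel h]

theorem Tr_per_pow (M : ℕ) {L : ℕ} {w : ℕ → ℕ → ℤ → ℝ}
    (hw : ∀ k G, Periodic (w k G) ((3 ^ L : ℕ) : ℤ)) : Periodic (Tr M w) ((3 ^ (M + L) : ℕ) : ℤ) := by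
  rw [pow_add]; exact Tr_per M hw

theorem Tr_per_const (M : ℕ) (c : ℕ → ℕ → ℝ) :
    Periodic (Tr M (fun k G _ => c k G)) ((3 ^ M : ℕ) : ℤ) :=
  Tr_per_pow M (L := 0) fun _ _ _ => rfl

theorem avg_Tr_pow (M : ℕ) {L : ℕ} {w : ℕ → ℕ → ℤ → ℝ}
    (hw : ∀ k G, Periodic (w k G) ((3 ^ L : ℕ) : ℤ)) :
    avg (3 ^ (M + L)) (Tr M w) = Sm M (fun k G => avg (3 ^ L) (w k G)) / 2 ^ M := by
  rw [pow_add]; exact avg_Tr M (Odd.pow (by decide)) hw

theorem avg_Tr_const (M : ℕ) (c : ℕ → ℕ → ℝ) :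
    avg (3 ^ M) (Tr M (fun k G _ => c k G)) = Sm M c / 2 ^ M := by
  have := avg_Tr_pow M (L := 0) (w := fun k G _ => c k G) fun _ _ _ => rfl
  simpa only [add_zero, avg_const (by positivity : 0 < 3 ^ 0)] using this

theorem Tr_succ_const (j : ℕ) (c : ℕ → ℝ) (b : ℤ) : Tr (j + 1) (fun k _ _ => c k) b =
    Tr j (fun k _ _ => (c k + c (k + 1)) / 2) b + ∑ κ ∈ range (j + 1), c (κ + 1) * Tk j κ f0 b := by
  simp only [Tk, ← Tr_mul]
  rw [Tr_add_len, ← Tr_sum, ← Tr_add]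
  refine Tr_congr (fun k G n h => ?_) b
  rw [Tr_one, sum_eq_single k (fun κ _ hκ => by rw [if_neg hκ.symm, mul_zero])
    (fun hk => absurd (mem_range.2 (Nat.lt_succ_of_le h.k_le)) hk), if_pos rfl, f0, add_zero]
  split_ifs <;> ring

theorem tele (A : ℕ) : ∃ C : ℝ, 0 < C ∧ ∀ (m s : ℕ) (c : ℕ → ℝ), (∀ k, |c k| ≤ 1) →
    avg (3 ^ (m + s)) (fun b => |Tr (m + s) (fun k _ _ => c k) b -
      Tr m (fun k _ _ => Bn s (fun i => c (k + i))) b|) ≤ C / ((m : ℝ) + 1) ^ A := by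
  obtain ⟨C, hC, h⟩ := mix (q := 3) (by decide) (A + 2)
  have h := h f0 f0_per f0_sum f0_abs
  have key : ∀ (m s : ℕ) (c : ℕ → ℝ), (∀ k, |c k| ≤ 1) →
      avg (3 ^ (m + s)) (fun b => |Tr (m + s) (fun k _ _ => c k) b -
        Tr m (fun k _ _ => Bn s (fun i => c (k + i))) b|) ≤
          2 * C / ((m : ℝ) + 1) ^ A * (1 - 1 / (s + 1)) := by
    intro m s
    induction s with
    | zero => intro c _; simp [Bn_zero, avg]
    | succ s ih =>
      intro c hc
      have h1 := ih (fun k => (c k + c (k + 1)) / 2) fun k => by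
        have := abs_le.1 (hc k); have := abs_le.1 (hc (k + 1))
        rw [abs_le]; constructor <;> linarith
      rw [← avg_pow (b := m + (s + 1)) (fun b => by
        simp only [Tr_per_const (m + s) (fun k _ => (c k + c (k + 1)) / 2) b,
          per_pow (Tr_per_const m (fun k _ => Bn s (fun i => (c (k + i) + c (k + i + 1)) / 2)))
            (Nat.le_add_right m s) b]) (by omega)] at h1
      have h2 : avg (3 ^ (m + (s + 1))) (fun b => ∑ κ ∈ range (m + s + 1), |Tk (m + s) κ f0 b|) ≤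
          C / (((m + s : ℕ) : ℝ) + 1) ^ (A + 2) := by
        rw [avg_sum]
        refine le_trans (le_of_eq (sum_congr rfl fun κ hκ => ?_)) (h (m + s))
        rw [← pow_succ]
        refine avg_pow (fun b => ?_) (by have := mem_range.1 hκ; omega)
        simp only [pow_succ, Tk_per (m + s) κ f0_per b]
      refine (avg_mono fun b => ?_).trans ((avg_add _ _ _).le.trans ((add_le_add h1 h2).trans ?_))
      · have e : ∀ k, Bn (s + 1) (fun i => c (k + i)) =
            Bn s (fun i => (c (k + i) + c (k + i + 1)) / 2) := fun k => by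
          rw [Bn_succ, ← Bn_add]
          simp only [div_eq_inv_mul, Bn_mul, add_assoc]
        simp only [e]
        rw [← add_assoc, Tr_succ_const, add_sub_right_comm]
        refine (abs_add_le _ _).trans (add_le_add le_rfl ((abs_sum_le_sum_abs _ _).trans
          (sum_le_sum fun κ _ => ?_)))
        rw [abs_mul]
        exact mul_le_of_le_one_left (abs_nonneg _) (hc _)
      · push_cast
        have h3 : C / ((m : ℝ) + s + 1) ^ (A + 2) ≤ C / ((m + 1) ^ A * (s + 1) ^ 2) := by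
          rw [pow_add]
          gcongr <;> linarith only []
        have h4 : 1 / ((s : ℝ) + 1) ^ 2 ≤ 2 * (1 / (s + 1) - 1 / (s + 1 + 1)) := by
          rw [div_sub_div _ _ (by positivity) (by positivity), ← mul_div_assoc,
            div_le_div_iff₀ (by positivity) (by positivity)]
          nlinarith only []
        have h5 := mul_le_mul_of_nonneg_left h4 (by positivity : 0 ≤ C / ((m : ℝ) + 1) ^ A)
        rw [div_mul_div_comm, mul_one] at h5
        rw [mul_div_assoc]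
        linarith only [h3, h5]
  refine ⟨2 * C, by positivity, fun m s c hc => (key m s c hc).trans ?_⟩
  exact mul_le_of_le_one_right (by positivity) (sub_le_self _ (by positivity))

end Pool.Agent.MP_158692_nt

end

-- part MP_158692_nt.Mass
section

/-! The mass of typical predecessors stays bounded below along a geometric sequence of depths. -/

namespace Pool.Agent.MP_158692_nt

open Finset Function

/-- drift of `log (2 ^ N / 3 ^ k)` per step -/
noncomputable def mu : ℝ := Real.log 2 - Real.log 3 / 2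

theorem log_three_le : Real.log 3 ≤ 8 / 5 * Real.log 2 := by
  have : Real.log (3 ^ 5) ≤ Real.log (2 ^ 8) := Real.log_le_log (by norm_num) (by norm_num)
  rw [Real.log_pow, Real.log_pow] at this
  push_cast at this; linarith

theorem log_three_le' : Real.log 3 ≤ 5 / 4 := by linarith [log_three_le, Real.log_two_lt_d9]

theorem mu_ge : 1 / 8 ≤ mu := by unfold mu; linarith [log_three_le, Real.log_two_gt_d9]

theorem wt_eq (N k : ℕ) :
    (2 : ℝ) ^ N / 3 ^ k = Real.exp (mu * N - (2 * k - N) * (Real.log 3 / 2)) := by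
  rw [← Real.exp_log (by norm_num : (0 : ℝ) < 2), ← Real.exp_log (by norm_num : (0 : ℝ) < 3),
    ← Real.exp_nat_mul, ← Real.exp_nat_mul, ← Real.exp_sub, Real.exp_log (by norm_num),
    Real.exp_log (by norm_num), mu]
  congr 1; ring

theorem Typ.dev {N k : ℕ} (h : Typ N k) : |(2 * k - N) * (Real.log 3 / 2)| ≤ N / 800 := by
  have h' : 500 * |2 * (k : ℝ) - N| ≤ N := by unfold Typ at h; exact_mod_cast h
  have h3 : 0 ≤ Real.log 3 := Real.log_nonneg (by norm_num)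
  rw [abs_mul, abs_of_nonneg (by positivity : 0 ≤ Real.log 3 / 2)]
  nlinarith only [log_three_le', h', h3]

theorem Typ.le_wt {N k : ℕ} (h : Typ N k) : Real.exp ((mu - 1 / 800) * N) ≤ 2 ^ N / 3 ^ k := by
  rw [wt_eq]; exact Real.exp_le_exp.2 (by linarith [(abs_le.1 h.dev).2])

theorem Typ.wt_le {N k : ℕ} (h : Typ N k) : (2 : ℝ) ^ N / 3 ^ k ≤ Real.exp ((mu + 1 / 800) * N) := by
  rw [wt_eq]; exact Real.exp_le_exp.2 (by linarith [(abs_le.1 h.dev).1])

theorem Typ.add {N k M j : ℕ} (h : Typ N k) (h' : Typ M j) : Typ (N + M) (k + j) := by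
  unfold Typ at *
  simp only [abs_eq_max_neg] at *
  push_cast; omega

theorem Typ.level {N k L : ℕ} (h : Typ N k) (hL : 14 * L ≤ N) :
    (3 : ℝ) ^ k * 3 ^ L ≤ Real.exp (-(N : ℝ) / 30) * 2 ^ N := by
  have h1 := h.le_wt
  rw [le_div_iff₀ (by positivity)] at h1
  have h2 : (3 : ℝ) ^ L ≤ Real.exp (-(N : ℝ) / 30) * Real.exp ((mu - 1 / 800) * N) := by
    rw [← Real.exp_log (by norm_num : (0 : ℝ) < 3), ← Real.exp_nat_mul, ← Real.exp_add]
    have : (14 : ℝ) * L ≤ N := by exact_mod_cast hL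
    refine Real.exp_le_exp.2 ?_
    nlinarith only [log_three_le', mu_ge, this]
  calc (3 : ℝ) ^ k * 3 ^ L ≤ 3 ^ k * (Real.exp (-(N : ℝ) / 30) * Real.exp ((mu - 1 / 800) * N)) := by
        gcongr
    _ = Real.exp (-(N : ℝ) / 30) * (Real.exp ((mu - 1 / 800) * N) * 3 ^ k) := by ring
    _ ≤ _ := by gcongr

/-- indicator of good paths: typical number of odd steps and small offset -/
noncomputable def cN (K : ℝ) (N k G : ℕ) : ℝ := if Typ N k ∧ (G : ℝ) ≤ K * 2 ^ N then 1 else 0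

theorem cN_nonneg (K : ℝ) (N k G : ℕ) : 0 ≤ cN K N k G := by unfold cN; split_ifs <;> norm_num

/-- the good predecessors are spread out, so they see the mean of a function of small period -/
theorem dens {N L : ℕ} (hL : 14 * L ≤ N) {K E : ℝ} (hK : 0 ≤ K) {u : ℕ → ℤ → ℝ}
    (hu : ∀ k, Periodic (u k) ((3 ^ L : ℕ) : ℤ)) (h0 : ∀ k n, 0 ≤ u k n)
    (hE : ∀ k, avg (3 ^ L) (u k) ≤ E) (a : ℤ) :
    Tr N (fun k G n => cN K N k G * u k n) a ≤ (N + 1) * (K + 1) * E := by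
  have hE0 : 0 ≤ E := (avg_nonneg (h0 0)).trans (hE 0)
  rw [Tr_eq_fib, ← sum_fiberwise_of_maps_to (t := range (N + 1)) (g := od N)
    (fun n _ => mem_range.2 (Nat.lt_succ_of_le (adm_od N n).k_le))]
  refine (sum_le_card_nsmul _ _ ((K + 1) * E) fun κ _ => ?_).trans
    (by rw [card_range, nsmul_eq_mul]; push_cast; rw [mul_assoc])
  by_cases ht : Typ N κ
  · have h1 : ∑ n ∈ (fib N a).filter (fun n => od N n = κ),
        3 ^ od N n / 2 ^ N * (cN K N (od N n) (gg N n) * u (od N n) n) = 3 ^ κ / 2 ^ N *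
        ∑ n ∈ ((fib N a).filter (fun n => od N n = κ)).filter
          (fun n => (gg N n : ℝ) ≤ K * 2 ^ N), u κ n := by
      rw [sum_filter (fun n => (gg N n : ℝ) ≤ K * 2 ^ N), mul_sum]
      refine sum_congr rfl fun n hn => ?_
      rw [(mem_filter.1 hn).2, cN]
      simp only [ht, true_and]
      split_ifs <;> simp
    have h3 : (0 : ℝ) < 3 ^ κ := by positivity
    rw [h1]
    refine (mul_le_mul_of_nonneg_left (sum_window_le (by positivity) (hu κ) (h0 κ) _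
      (x := (2 ^ N * a - K * 2 ^ N) / 3 ^ κ) (L := K * 2 ^ N / 3 ^ κ) (by positivity)
      fun n hn => ?_) (by positivity)).trans ?_
    · simp only [mem_filter, mem_fib] at hn
      have hd := dyn N n
      rw [hn.1.1, hn.1.2] at hd
      have hd' : (2 : ℝ) ^ N * a = 3 ^ κ * n + gg N n := by exact_mod_cast hd
      rw [← add_div, div_le_iff₀ h3, le_div_iff₀ h3]
      constructor <;> linarith only [hn.2, hd']
    · rw [← mul_assoc]
      refine mul_le_mul ?_ (hE κ) (avg_nonneg (h0 κ)) (by positivity)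
      have h4 := ht.level hL
      have h5 : Real.exp (-(N : ℝ) / 30) ≤ 1 := Real.exp_le_one_iff.2 (by
        have : (0 : ℝ) ≤ N := by positivity
        linarith)
      have h6 : (3 : ℝ) ^ κ * 3 ^ L ≤ 2 ^ N := h4.trans (mul_le_of_le_one_left (by positivity) h5)
      have h7 : (3 : ℝ) ^ κ / 2 ^ N * (K * 2 ^ N / 3 ^ κ + ((3 ^ L : ℕ) : ℝ)) =
          K + 3 ^ κ * 3 ^ L / 2 ^ N := by push_cast; field_simp
      rw [h7]
      exact add_le_add le_rfl ((div_le_one (by positivity)).2 h6)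
  · refine (sum_nonpos fun n hn => ?_).trans (by positivity)
    rw [(mem_filter.1 hn).2, cN]
    simp [ht]

theorem offset_le {N M k G k' G' : ℕ} {K : ℝ} (hM : 14 * M ≤ N) (ht : Typ N k)
    (hG : (G : ℝ) ≤ K * 2 ^ N) (h : Adm M k' G') :
    ((G * 2 ^ M + 3 ^ k * G' : ℕ) : ℝ) ≤ (K + Real.exp (-(N : ℝ) / 30)) * 2 ^ (N + M) := by
  have h1 : (G' : ℝ) ≤ 3 ^ M := by exact_mod_cast (Nat.le_add_right _ _).trans h.G_le
  have h2 := ht.level hM
  have h3 : (1 : ℝ) ≤ 2 ^ M := one_le_pow₀ (by norm_num)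
  have h4 : (3 : ℝ) ^ k * G' ≤ Real.exp (-(N : ℝ) / 30) * 2 ^ N * 2 ^ M :=
    ((mul_le_mul_of_nonneg_left h1 (by positivity)).trans h2).trans
      (le_mul_of_one_le_right (by positivity) h3)
  have h5 : (G : ℝ) * 2 ^ M ≤ K * 2 ^ N * 2 ^ M := mul_le_mul_of_nonneg_right hG (by positivity)
  push_cast
  rw [pow_add]; linarith only [h4, h5]

theorem Tr_comp_ge {N M : ℕ} {w : ℕ → ℕ → ℤ → ℝ} {c : ℕ → ℕ → ℝ} {v : ℕ → ℕ → ℤ → ℝ}
    (h : ∀ k G k' G' n, Adm M k' G' →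
      c k G * v k k' n ≤ w (k + k') (G * 2 ^ M + 3 ^ k * G') n) (a : ℤ) :
    Tr N (fun k G b => c k G * Tr M (fun k' _ n => v k k' n) b) a ≤ Tr (N + M) w a := by
  rw [Tr_add_len]
  refine Tr_mono (fun k G b _ => ?_) a
  rw [← Tr_mul]
  exact Tr_mono (fun k' G' n h' => h k G k' G' n h') b

theorem rho_nonneg (M : ℕ) (b : ℤ) : 0 ≤ rho M b := Tr_nonneg (fun _ _ _ => zero_le_one) b

theorem rho_per (M : ℕ) : Periodic (rho M) ((3 ^ M : ℕ) : ℤ) := Tr_per_const M fun _ _ => 1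

theorem avg_rho (M : ℕ) : avg (3 ^ M) (rho M) = 1 := by
  rw [rho, avg_Tr_const M (fun _ _ => 1), Sm_const]; simp

/-- indicator of untypical `k` -/
noncomputable def unt (N k : ℕ) : ℝ := if Typ N k then 0 else 1

theorem unt_nonneg (N k : ℕ) : 0 ≤ unt N k := by unfold unt; split_ifs <;> norm_num

/-- weight of the good predecessors of `a` at depth `N`, continued for `N / 50` more steps -/
noncomputable def mass (K : ℝ) (N : ℕ) : ℤ → ℝ :=
  Tr N (fun k G n => cN K N k G * rho (N / 50) n)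

/-- the two error terms at depth `m` are at most `E` -/
def Err (m : ℕ) (E : ℝ) : Prop :=
  Bn m (unt m) ≤ E ∧ ∀ (s : ℕ) (c : ℕ → ℝ), (∀ k, |c k| ≤ 1) →
    avg (3 ^ (m + s)) (fun b => |Tr (m + s) (fun k _ _ => c k) b -
      Tr m (fun k _ _ => Bn s (fun i => c (k + i))) b|) ≤ E

theorem exists_err : ∃ C : ℝ, 0 < C ∧ ∀ m : ℕ, Err m (C / ((m : ℝ) + 1) ^ 5) := by
  obtain ⟨C, hC, h⟩ := tele 5
  obtain ⟨C', hC', h'⟩ := geo_poly (θ := Real.exp (-1 / 500000)) (Real.exp_pos _).le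
    (Real.exp_lt_one_iff.2 (by norm_num)) 5
  refine ⟨C + 2 * C', by positivity, fun m => ⟨(Bn_untyp m).trans ?_, fun s c hc =>
    (h m s c hc).trans (by gcongr; linarith)⟩⟩
  have h1 := h' m
  rw [← Real.exp_nat_mul, show (m : ℝ) * (-1 / 500000) = -(m : ℝ) / 500000 by ring] at h1
  have h2 : 0 ≤ C / ((m : ℝ) + 1) ^ 5 := by positivity
  rw [add_div, mul_div_assoc]; linarith

theorem mass_step {N : ℕ} {K K' E : ℝ} (hK : 0 ≤ K) (hK' : K + Real.exp (-(N : ℝ) / 30) ≤ K')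
    (hE : Err (N / 50) E) (a : ℤ) :
    mass K N a - (N + 1) * (K + 1) * (2 * E) ≤ mass K' (N + N / 50) a := by
  set m := N / 50 with hm
  set s := (N + m) / 50 with hs
  have hU : Periodic (Tr m (fun k _ n => unt m k * rho s n)) ((3 ^ (m + s) : ℕ) : ℤ) :=
    Tr_per_pow m fun k _ n => by simp only [rho_per s n]
  have h1 := dens (N := N) (L := m + s) (by omega) hK (E := 2 * E)
    (u := fun _ b => Tr m (fun k _ n => unt m k * rho s n) b + |rho (m + s) b - rho m b|)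
    (fun _ b => by simp only [hU b, rho_per (m + s) b, per_pow (rho_per m) (Nat.le_add_right m s) b])
    (fun _ b => add_nonneg (Tr_nonneg (fun _ _ _ => mul_nonneg (unt_nonneg _ _) (rho_nonneg _ _)) b)
      (abs_nonneg _))
    (fun _ => by
      have h2 := hE.2 s (fun _ => 1) (fun _ => by simp)
      simp only [Bn_const] at h2
      rw [avg_add, avg_Tr_pow m (fun k _ n => by simp only [rho_per s n]), two_mul]
      simp only [avg_mul_left, avg_rho, mul_one]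
      exact add_le_add hE.1 h2) a
  refine le_trans ?_ (Tr_comp_ge (c := cN K N) (v := fun _ k n => (1 - unt m k) * rho s n)
    (fun k G k' G' n h => ?_) a)
  · refine (sub_le_sub_left h1 _).trans ?_
    rw [mass, ← Tr_sub]
    refine Tr_mono (fun k G b _ => ?_) a
    rw [← mul_sub]
    refine mul_le_mul_of_nonneg_left ?_ (cN_nonneg _ _ _ _)
    simp only [sub_mul, one_mul, Tr_sub]
    have : Tr m (fun _ _ n => rho s n) b = rho (m + s) b := by rw [rho, rho, Tr_add_len]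
    rw [this]
    linarith only [neg_abs_le (rho (m + s) b - rho m b)]
  · rw [← mul_assoc]
    refine mul_le_mul_of_nonneg_right ?_ (rho_nonneg _ _)
    by_cases h1 : Typ N k ∧ (G : ℝ) ≤ K * 2 ^ N
    · by_cases h2 : Typ m k'
      · have := (offset_le (by omega) h1.1 h1.2 h).trans
          (mul_le_mul_of_nonneg_right hK' (by positivity))
        rw [cN, cN, unt, if_pos h1, if_pos h2, if_pos ⟨h1.1.add h2, this⟩]; norm_num
      · rw [unt, if_neg h2, sub_self, mul_zero]; exact cN_nonneg _ _ _ _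
    · rw [cN, if_neg h1, zero_mul]; exact cN_nonneg _ _ _ _

theorem mass_start {N : ℕ} (hN : 0 < N) (hE : Bn N (unt N) ≤ 1 / 4) : ∃ b : ℤ, ¬ (3 : ℤ) ∣ b ∧
    ∀ a : ℤ, a ≡ b [ZMOD 3 ^ (N + N / 50)] → 1 / 2 ≤ mass N N a := by
  have hN' : (0 : ℝ) < N := by exact_mod_cast hN
  have hp : ∀ k G, Periodic (fun n => cN N N k G * rho (N / 50) n) ((3 ^ (N / 50) : ℕ) : ℤ) :=
    fun k G n => by simp only [rho_per _ n]
  have h1 : 1 / 2 ≤ avg (3 ^ (N + N / 50)) (mass N N) := by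
    rw [mass, avg_Tr_pow N hp]
    simp only [avg_mul_left, avg_rho, mul_one]
    have h2 : Sm N (fun k G => 1 - unt N k - ((N : ℝ) * 2 ^ N)⁻¹ * G) ≤ Sm N (cN N N) := by
      refine Sm_le fun k G _ => ?_
      have h3 : 0 ≤ ((N : ℝ) * 2 ^ N)⁻¹ * G := by positivity
      rw [cN, unt]
      by_cases ht : Typ N k
      · by_cases hG : (G : ℝ) ≤ N * 2 ^ N
        · rw [if_pos ht, if_pos ⟨ht, hG⟩]; linarith only [h3]
        · rw [if_pos ht, if_neg fun h => hG h.2, ← div_eq_inv_mul]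
          linarith only [(one_le_div (by positivity : (0 : ℝ) < N * 2 ^ N)).2 (not_le.1 hG).le]
      · rw [if_neg ht, if_neg fun h => ht h.1]; linarith only [h3]
    rw [Sm_sub, Sm_sub, Sm_const, Sm_mul, Sm_G] at h2
    rw [Bn, div_le_iff₀ (by positivity)] at hE
    have h4 : ((N : ℝ) * 2 ^ N)⁻¹ * (N * 4 ^ N / 4) = 1 / 4 * 2 ^ N := by
      rw [show (4 : ℝ) ^ N = 2 ^ N * 2 ^ N by rw [← mul_pow]; norm_num]; field_simp
    rw [le_div_iff₀ (by positivity)]; linarith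
  rw [avg, le_div_iff₀ (by positivity)] at h1
  obtain ⟨b, -, hb⟩ := exists_le_of_sum_le (s := range (3 ^ (N + N / 50))) (f := fun _ => (1 / 2 : ℝ))
    (g := fun b : ℕ => mass N N b) ⟨0, mem_range.2 (by positivity)⟩
    (by rwa [sum_const, card_range, nsmul_eq_mul, mul_comm])
  refine ⟨b, fun h3 => ?_, fun a ha => ?_⟩
  · refine absurd (hb.trans (le_of_eq ?_)) (by norm_num : ¬ (1 / 2 : ℝ) ≤ 0)
    rw [mass, Tr_eq_fib]
    refine sum_eq_zero fun n hn => ?_
    have hd := dyn N n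
    rw [mem_fib.1 hn] at hd
    have hk : od N n = 0 := by
      by_contra hk
      refine (adm_od N n).not_dvd (Nat.pos_of_ne_zero hk) ?_
      have : (3 : ℤ) ∣ gg N n := by
        rw [← sub_eq_of_eq_add' hd]
        exact dvd_sub (h3.mul_left _) ((dvd_pow_self 3 hk).mul_right _)
      exact_mod_cast this
    have : ¬ Typ N 0 := by unfold Typ; simp only [abs_eq_max_neg]; omega
    simp [hk, cN, this]
  · obtain ⟨t, ht⟩ := ha.symm.dvd
    have := (Tr_per_pow N hp).int_mul t b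
    rw [show a = b + t * ((3 ^ (N + N / 50) : ℕ) : ℤ) by push_cast; linarith only [ht], mass]
    simp only [Int.cast_id] at this
    rw [this]; exact hb

end Pool.Agent.MP_158692_nt

end

-- part MP_158692_nt.Root
section

/-! A non periodic predecessor in a prescribed unit class (section 4 of the notes). -/

namespace Pool.Agent.MP_158692_nt

open Function

theorem root_four (L : ℕ) : ∃ w : ℤ, (2 : ℤ) ^ (2 * 3 ^ L) = 1 + 3 ^ (L + 1) * (1 + 3 * w) := by
  induction L with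
  | zero => exact ⟨0, by norm_num⟩
  | succ L ih =>
    obtain ⟨w, h⟩ := ih
    refine ⟨w + 3 ^ L * (1 + 3 * w) ^ 2 + (3 ^ L) ^ 2 * (1 + 3 * w) ^ 3, ?_⟩
    rw [pow_succ 3 L, ← mul_assoc, pow_mul, h]
    ring

theorem root_gen (L : ℕ) : ∃ J : ℕ, ∀ u b : ℤ, u % 3 ≠ 0 → b % 3 ≠ 0 →
    ∃ j ≤ J, (3 : ℤ) ^ (L + 1) ∣ 2 ^ j * u - b := by
  induction L with
  | zero =>
    refine ⟨1, fun u b hu hb => ?_⟩
    have h1 : u % 3 = 1 ∨ u % 3 = 2 := by omega
    have h2 : b % 3 = 1 ∨ b % 3 = 2 := by omega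
    rcases h1 with h1 | h1 <;> rcases h2 with h2 | h2
    exacts [⟨0, by omega, by omega⟩, ⟨1, by omega, by omega⟩, ⟨1, by omega, by omega⟩,
      ⟨0, by omega, by omega⟩]
  | succ L ih =>
    obtain ⟨J, h⟩ := ih
    obtain ⟨w, hw⟩ := root_four L
    refine ⟨J + 2 * 3 ^ L * 2, fun u b hu hb => ?_⟩
    obtain ⟨j, hj, c, hc⟩ := h u b hu hb
    obtain ⟨t, ht, e, he⟩ : ∃ t : ℕ, t ≤ 2 ∧ (3 : ℤ) ∣ c + t * b := by
      have h1 : c % 3 = 0 ∨ c % 3 = 1 ∨ c % 3 = 2 := by omega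
      have h2 : b % 3 = 1 ∨ b % 3 = 2 := by omega
      rcases h1 with h1 | h1 | h1 <;> rcases h2 with h2 | h2
      exacts [⟨0, by omega, by omega⟩, ⟨0, by omega, by omega⟩, ⟨2, by omega, by omega⟩,
        ⟨1, by omega, by omega⟩, ⟨1, by omega, by omega⟩, ⟨2, by omega, by omega⟩]
    refine ⟨j + 2 * 3 ^ L * t, by gcongr, ?_⟩
    rw [pow_add 2, pow_mul 2 _ t, hw, mul_right_comm, eq_add_of_sub_eq hc,
      eq_sub_of_add_eq he]
    interval_cases t
    · exact ⟨e, by push_cast; ring⟩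
    · exact ⟨e + b * w + 3 ^ L * (3 * e - b) * (1 + 3 * w), by push_cast; ring⟩
    · exact ⟨e + 2 * b * w + 3 ^ L * (1 + 3 * w) * (2 * (3 * e - 2 * b) + (1 + 3 * w) *
        (3 ^ (L + 1) * (3 * e - 2 * b) + b)), by push_cast; ring⟩

theorem root_iter (j : ℕ) (a : ℤ) : T^[j] (2 ^ j * a) = a := by
  induction j with
  | zero => simp
  | succ j ih =>
    have : T (2 ^ (j + 1) * a) = 2 ^ j * a := by
      rw [T, pow_succ', mul_assoc, if_pos (by omega)]
      omega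
    rw [iterate_succ_apply, this, ih]

theorem root_step {a : ℤ} (ha : a % 3 ≠ 0) : ∃ c : ℤ, c % 3 ≠ 0 ∧ |c| ≤ 16 * |a| ∧
    (∃ j, T^[j] c = a) ∧ c ∉ periodicPts T := by
  obtain ⟨i, z, hi, hz, h3⟩ : ∃ (i : ℕ) (z : ℤ), i ≤ 3 ∧ 2 * (2 ^ i * a) = 3 * z + 1 ∧ z % 3 ≠ 0 := by
    have : a % 9 = 1 ∨ a % 9 = 2 ∨ a % 9 = 4 ∨ a % 9 = 5 ∨ a % 9 = 7 ∨ a % 9 = 8 := by omega
    rcases this with h | h | h | h | h | h
    · exact ⟨1, (4 * a - 1) / 3, by omega, by omega, by omega⟩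
    · exact ⟨0, (2 * a - 1) / 3, by omega, by omega, by omega⟩
    · exact ⟨1, (4 * a - 1) / 3, by omega, by omega, by omega⟩
    · exact ⟨2, (8 * a - 1) / 3, by omega, by omega, by omega⟩
    · exact ⟨3, (16 * a - 1) / 3, by omega, by omega, by omega⟩
    · exact ⟨0, (2 * a - 1) / 3, by omega, by omega, by omega⟩
  have h1 : T z = 2 ^ i * a := by
    rw [T, if_neg (by omega)]
    omega
  have h2 : T (2 * (2 ^ i * a)) = 2 ^ i * a := by
    rw [T, if_pos (by omega)]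
    omega
  have k : ∀ c, T c = 2 ^ i * a → ∃ j, T^[j] c = a := fun c h =>
    ⟨i + 1, by rw [iterate_succ_apply, h, root_iter]⟩
  by_cases p : z ∈ periodicPts T
  · refine ⟨_, by omega, ?_, k _ h2, fun q => ?_⟩
    · interval_cases i <;> simp only [abs_eq_max_neg] <;> omega
    · have := (bijOn_periodicPts (f := T)).injOn p q (h1.trans h2.symm)
      interval_cases i <;> omega
  · refine ⟨z, h3, ?_, k _ h1, p⟩
    interval_cases i <;> simp only [abs_eq_max_neg] <;> omega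

theorem exists_root (L : ℕ) : ∃ D : ℕ, ∀ b : ℤ, ¬ (3 : ℤ) ∣ b → ∀ a : ℤ, a % 3 ≠ 0 → ∃ a' : ℤ,
    a' ≡ b [ZMOD 3 ^ L] ∧ |a'| ≤ D * |a| ∧ (∃ j, T^[j] a' = a) ∧ ∀ j, 0 < j → T^[j] a' ≠ a' := by
  obtain ⟨J, h⟩ := root_gen L
  refine ⟨2 ^ J * 16, fun b hb a ha => ?_⟩
  obtain ⟨c, h3, hc, ⟨i, hi⟩, np⟩ := root_step ha
  obtain ⟨j, hj, e⟩ := h c b h3 (by omega)
  refine ⟨2 ^ j * c, (Int.modEq_iff_dvd.2 ((pow_dvd_pow 3 L.le_succ).trans e)).symm, ?_,
    ⟨i + j, by rw [iterate_add_apply, root_iter, hi]⟩, fun k hk q => np ?_⟩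
  · rw [abs_mul, abs_pow, abs_two]
    push_cast
    rw [mul_assoc]
    gcongr
    norm_num
  · exact root_iter j c ▸ mk_mem_periodicPts hk (IsPeriodicPt.apply_iterate q j)

end Pool.Agent.MP_158692_nt

end
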