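import Mathlib
import Pool.Agent.MP_158692_nt.H6.Cnt
import Pool.Agent.MP_158692_nt.Mg.Root

-- part MP_158692_nt.H6.Renew
section

/-! A renewal lemma: a bounded, asymptotically uniformly continuous function which is harmonic
for the walk with steps `-α`, `β` up to an error `C / u ^ 2` has a limit at infinity. -/

namespace Pool.Agent.MP_158692_nt.H6

open Filter Topology

/-- minimum principle for the walk with steps `-α`, `β` and negative drift -/
theorem min_principle {α β a m B : ℝ} {H : ℝ → ℝ} (hβ : 0 < β) (hα : β < α)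
    (hB : ∀ u, a - α ≤ u → B ≤ H u) (hH : ∀ u, a ≤ u → (H (u - α) + H (u + β)) / 2 ≤ H u)
    (hm : ∀ u, a - α ≤ u → u < a → m ≤ H u) {v : ℝ} (hv : a - α ≤ v) : m ≤ H v := by
  have key : ∀ ε > 0, ∀ u, a - α ≤ u → m ≤ H u + ε * (u - (a - α)) := by
    intro ε hε
    have hbd : BddBelow ((fun u => H u + ε * (u - (a - α))) '' Set.Ici (a - α)) := by
      refine ⟨B, ?_⟩
      rintro _ ⟨u, hu, rfl⟩
      have : 0 ≤ ε * (u - (a - α)) := mul_nonneg hε.le (sub_nonneg.2 hu)
      linarith [hB u hu]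
    have hle : ∀ u, a - α ≤ u → sInf ((fun u => H u + ε * (u - (a - α))) '' Set.Ici (a - α)) ≤
        H u + ε * (u - (a - α)) := fun u hu => csInf_le hbd ⟨u, hu, rfl⟩
    generalize hM : sInf ((fun u => H u + ε * (u - (a - α))) '' Set.Ici (a - α)) = M at hle
    intro u hu
    refine le_trans (le_of_not_gt fun hlt => ?_) (hle u hu)
    have hp : 0 < ε * (α - β) / 2 := by have := sub_pos.2 hα; positivity
    obtain ⟨_, ⟨w, hw, rfl⟩, h⟩ := exists_lt_of_csInf_lt
      (⟨_, a - α, Set.self_mem_Ici, rfl⟩ :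
        ((fun u => H u + ε * (u - (a - α))) '' Set.Ici (a - α)).Nonempty)
      (b := min m (M + ε * (α - β) / 2)) (by rw [hM]; exact lt_min hlt (lt_add_of_pos_right M hp))
    have hw' : a - α ≤ w := hw
    rw [lt_min_iff] at h
    by_cases hwa : w < a
    · have : 0 ≤ ε * (w - (a - α)) := mul_nonneg hε.le (sub_nonneg.2 hw')
      linarith only [hm w hw' hwa, h.1, this]
    · rw [not_lt] at hwa
      have h1 := hle (w - α) (by linarith only [hwa])
      have h2 := hle (w + β) (by linarith only [hβ, hα, hwa])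
      linarith only [hH w hwa, h.2, h1, h2]
  refine le_of_forall_pos_le_add fun η hη => ?_
  have hp : 0 < v - (a - α) + 1 := by linarith
  refine (key (η / (v - (a - α) + 1)) (by positivity) v hv).trans (add_le_add le_rfl ?_)
  rw [div_mul_eq_mul_div, div_le_iff₀ hp]
  linarith only [hη]

/-- points `b β - a α` form a fine net of the interval from `-α` to `0` -/
theorem exists_net {α β δ : ℝ} (hβ : 0 < β) (hα : β < α) (hirr : Irrational (β / α)) (hδ : 0 < δ) :
    ∃ N : ℕ, ∀ t, -α ≤ t → t ≤ 0 → ∃ a ≤ N, ∃ b ≤ N, |t - ((b : ℝ) * β - (a : ℝ) * α)| ≤ δ := by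
  have h0 : 0 < α := hβ.trans hα
  obtain ⟨n, hn⟩ := exists_nat_gt (α / δ)
  have hn0 : 0 < n := by exact_mod_cast (div_pos h0 hδ).trans hn
  obtain ⟨k, hk, -, h⟩ := Real.exists_nat_abs_mul_sub_round_le (β / α) hn0
  have hr : 0 ≤ round (k * (β / α)) := by
    rw [round_eq]; exact Int.floor_nonneg.2 (by positivity)
  obtain ⟨l, hl⟩ := Int.eq_ofNat_of_zero_le hr
  rw [hl, Int.cast_natCast] at h
  have hs : (k : ℝ) * β - l * α = α * (k * (β / α) - l) := by field_simp
  have hs0 : (k : ℝ) * β - l * α ≠ 0 := by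
    rw [hs]
    refine mul_ne_zero h0.ne' (sub_ne_zero.2 ?_)
    exact (hirr.natCast_mul hk.ne').ne_nat l
  have hsd : |(k : ℝ) * β - l * α| ≤ δ := by
    rw [hs, abs_mul, abs_of_pos h0]
    rw [div_lt_iff₀ hδ] at hn
    refine (mul_le_mul_of_nonneg_left h h0.le).trans ?_
    rw [mul_one_div, div_le_iff₀ (by positivity)]
    linarith only [hδ, hn]
  generalize hsd' : (k : ℝ) * β - l * α = s at hs0 hsd
  have hp : 0 < |s| := abs_pos.2 hs0
  have fl : ∀ x, 0 ≤ x → x ≤ α → ∃ j : ℕ, j ≤ ⌊α / |s|⌋₊ ∧ |x - j * (|s|)| ≤ δ := fun x h1 h2 => by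
    refine ⟨⌊x / |s|⌋₊, Nat.floor_mono (by gcongr), ?_⟩
    have a1 := Nat.floor_le (div_nonneg h1 hp.le)
    have a2 := Nat.lt_floor_add_one (x / |s|)
    rw [le_div_iff₀ hp] at a1
    rw [div_lt_iff₀ hp] at a2
    rw [abs_le]; constructor <;> linarith only [hδ, a1, hsd, a2]
  refine ⟨⌊α / |s|⌋₊ * (k + l) + 1, fun t h1 h2 => ?_⟩
  rcases hs0.lt_or_gt with hneg | hpos
  · obtain ⟨j, hj, e⟩ := fl (-t) (by linarith only [h2]) (by linarith only [h1])
    refine ⟨j * l, by nlinarith only [hj], j * k, by nlinarith only [hj], ?_⟩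
    rw [abs_of_neg hneg, ← hsd', ← abs_neg] at e
    convert e using 2
    push_cast; ring
  · obtain ⟨j, hj, e⟩ := fl (t + α) (by linarith only [h1]) (by linarith only [h2])
    refine ⟨j * l + 1, by nlinarith only [hj], j * k,
      by nlinarith only [hj], ?_⟩
    rw [abs_of_pos hpos, ← hsd'] at e
    convert e using 2
    push_cast; ring

theorem renew {α β B C : ℝ} {F : ℝ → ℝ} (hβ : 0 < β) (hα : β < α) (hirr : Irrational (β / α))
    (hB : ∀ᶠ u in atTop, |F u| ≤ B)
    (hL : ∀ η > 0, ∃ δ > 0, ∀ᶠ u in atTop, ∀ v, |v - u| ≤ δ → |F v - F u| ≤ η)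
    (hE : ∀ᶠ u in atTop, |F u - (F (u - α) + F (u + β)) / 2| ≤ C / u ^ 2) :
    ∃ c, Tendsto F atTop (𝓝 c) := by
  have h0 : 0 < α := hβ.trans hα
  have hup : ∀ θ > 0, ∀ᶠ u in atTop, F u < limsup F atTop + θ := fun θ h =>
    eventually_lt_of_limsup_lt (lt_add_of_pos_right _ h) ⟨B, hB.mono fun u h => (abs_le.1 h).2⟩
  have hfr : ∀ θ > 0, ∃ᶠ u in atTop, limsup F atTop - θ < F u := fun θ h =>
    frequently_lt_of_lt_limsup
      (IsBoundedUnder.isCoboundedUnder_le ⟨-B, hB.mono fun u h => (abs_le.1 h).1⟩) (sub_lt_self _ h)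
  generalize limsup F atTop = L at hup hfr
  have hC : Tendsto (fun u : ℝ => C / u ^ 2) atTop (𝓝 0) :=
    tendsto_const_nhds.div_atTop (tendsto_pow_atTop two_ne_zero)
  choose x hx1 hx2 using fun j : ℕ =>
    frequently_atTop.1 (hfr (1 / ((j : ℝ) + 1)) (by positivity)) (j : ℝ)
  have hx : ∀ s, Tendsto (fun j => x j + s) atTop atTop := fun s =>
    tendsto_atTop_add_const_right _ s (tendsto_atTop_mono hx1 tendsto_natCast_atTop_atTop)
  have step : ∀ s, (∀ θ > 0, ∀ᶠ j in atTop, L - θ < F (x j + s)) →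
      (∀ θ > 0, ∀ᶠ j in atTop, L - θ < F (x j + (s - α))) ∧
      ∀ θ > 0, ∀ᶠ j in atTop, L - θ < F (x j + (s + β)) := fun s h => by
    constructor <;> intro θ hθ <;>
    · filter_upwards [h (θ / 5) (by positivity), (hx s).eventually hE,
        (hx s).eventually (hC.eventually (gt_mem_nhds (by positivity : 0 < θ / 5))),
        (hx (s - α)).eventually (hup (θ / 5) (by positivity)),
        (hx (s + β)).eventually (hup (θ / 5) (by positivity))] with j a b c d e
      rw [add_sub_assoc, add_assoc] at b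
      linarith only [(abs_le.1 b).2, a, c, e, d]
  have all : ∀ a b : ℕ, ∀ θ > 0, ∀ᶠ j in atTop, L - θ < F (x j + ((b : ℝ) * β - (a : ℝ) * α)) := by
    intro a b
    induction a with
    | zero =>
      induction b with
      | zero =>
        intro θ hθ
        filter_upwards [(tendsto_one_div_add_atTop_nhds_zero_nat (𝕜 := ℝ)).eventually
          (gt_mem_nhds hθ)] with j h
        simp only [Nat.cast_zero, zero_mul, sub_zero, add_zero]
        linarith [hx2 j]
      | succ b ih => convert (step _ ih).2 using 6; push_cast; ring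
    | succ a ih => convert (step _ ih).1 using 6; push_cast; ring
  refine ⟨L, tendsto_order.2 ⟨fun c hc => ?_, fun c hc => by
    simpa only [eventually_atTop, add_sub_cancel] using hup (c - L) (sub_pos.2 hc)⟩⟩
  obtain ⟨η, hη, rfl⟩ : ∃ η > 0, c = L - 4 * η := ⟨(L - c) / 4, by linarith only [hc], by ring⟩
  obtain ⟨δ, hδ, hL⟩ := hL η hη
  obtain ⟨N, hN⟩ := exists_net hβ hα hirr hδ
  have hD : 0 < α - β := sub_pos.2 hα
  obtain ⟨D, hD0, hDC⟩ : ∃ D, 0 ≤ D ∧ 2 * C ≤ D * (α - β) :=
    ⟨2 * |C| / (α - β), by positivity, by rw [div_mul_cancel₀ _ hD.ne']; linarith [le_abs_self C]⟩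
  have hw : ∀ᶠ u : ℝ in atTop, D / u < η :=
    (tendsto_const_nhds.div_atTop tendsto_id).eventually (gt_mem_nhds hη)
  obtain ⟨U, hU⟩ := eventually_atTop.1 (hB.and (hL.and (hE.and (hw.and (eventually_gt_atTop 0)))))
  obtain ⟨j, hj, hj'⟩ := (((eventually_all_finset (Finset.range (N + 1) ×ˢ Finset.range (N + 1))).2
    fun p _ => all p.1 p.2 η hη).and
      ((hx (-α - δ)).eventually (eventually_ge_atTop U))).exists
  refine eventually_atTop.2 ⟨x j, fun v hv => ?_⟩
  have := min_principle (H := fun u => F u - D / u) (a := x j) (m := L - 3 * η) (B := -B - η) hβ hα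
    (fun u hu => ?_) (fun u hu => ?_) (fun u h1 h2 => ?_) (v := v) (by linarith)
  · have : 0 ≤ D / v := div_nonneg hD0 (hU v (by linarith only [hβ, hα, hδ, hj', hv])).2.2.2.2.le
    linarith
  · have := hU u (by linarith)
    linarith only [(abs_le.1 this.1).1, this.2.2.2.1]
  · have h1 := (hU (u - α) (by linarith)).2.2.2.2
    have h2 : 0 < u := by linarith
    have h3 : D / u + D * α / u ^ 2 ≤ D / (u - α) := by
      rw [div_add_div _ _ h2.ne' (by positivity), div_le_div_iff₀ (by positivity) h1]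
      have : 0 ≤ D * u * α ^ 2 := by positivity
      linarith only [this]
    have h4 : D / u - D * β / u ^ 2 ≤ D / (u + β) := by
      rw [div_sub_div _ _ h2.ne' (by positivity), div_le_div_iff₀ (by positivity) (by positivity)]
      have : 0 ≤ D * u * β ^ 2 := by positivity
      linarith only [this]
    have h5 : 2 * C / u ^ 2 ≤ D * (α - β) / u ^ 2 := by gcongr
    have h6 := (abs_le.1 (hU u (by linarith only [hβ, hα, hδ, hj', hu])).2.2.1).1
    rw [mul_sub, sub_div, mul_div_assoc] at h5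
    linarith
  · obtain ⟨a, ha, b, hb, e⟩ := hN (u - x j) (by linarith) (by linarith)
    have h3 := hj (a, b) (by simp [ha, hb])
    have h4 := (hU (x j + (b * β - a * α)) (by linarith only [(abs_le.1 e).2, hj', h1])).2.1 u
      (by rwa [← sub_sub])
    linarith only [(abs_le.1 h4).1, (hU u (by linarith only [hδ, hj', h1])).2.2.2.1, h3]

end Pool.Agent.MP_158692_nt.H6

end

-- part MP_158692_nt.H6.Dens
section

/-! Existence of the natural density of an almost invariant function, in every residue class,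
from the mixing estimate. -/

namespace Pool.Agent.MP_158692_nt.H6

open Finset Filter Topology

noncomputable section

/-- the mixing estimate -/
def Mix : Prop := ∀ q : ℕ, q % 2 = 1 → ∀ f : ℤ → ℝ, Function.Periodic f (q : ℤ) →
  ∑ b ∈ range q, f b = 0 → (∀ n, |f n| ≤ 1) → ∃ C : ℝ, ∀ M : ℕ, 1 ≤ M →
    ∑ k ∈ range (M + 1), (∑ b ∈ range (3 ^ k * q), |U f M k b|) / ((3 ^ k * q : ℕ) : ℝ) ≤ C / M ^ 2

variable {h : ℤ → ℝ} {n₀ : ℕ}

theorem exp_neg_half {u : ℝ} (hu : 0 < u) : Real.exp (u / 2) / Real.exp u ≤ 8 / u ^ 2 := by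
  have h1 : Real.exp u = Real.exp (u / 2) * Real.exp (u / 2) := by rw [← Real.exp_add, add_halves]
  have h2 := Real.quadratic_le_exp_of_nonneg (x := u / 2) (by positivity)
  rw [h1, div_mul_cancel_left₀ (Real.exp_pos _).ne', inv_eq_one_div,
    div_le_div_iff₀ (Real.exp_pos _) (by positivity)]
  linarith only [hu, h2]

theorem Inv.small (I : Inv h n₀) (mix : Mix) {q : ℕ} (hq : q % 2 = 1) {f : ℤ → ℝ}
    (hf : Function.Periodic f (q : ℤ)) (h0 : ∑ b ∈ range q, f b = 0) (h1 : ∀ n, |f n| ≤ 1) :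
    ∃ C, ∀ u ≥ 6, |cnt h f (Real.exp u) / Real.exp u| ≤ C / u ^ 2 := by
  obtain ⟨C, hC⟩ := mix q hq f hf h0 h1
  refine ⟨(3 + q) * (36 * |C|) + 8 * (4 * n₀ + 4), fun u hu => ?_⟩
  obtain ⟨M, hM, hM'⟩ : ∃ M : ℕ, (M : ℝ) ≤ u / 3 ∧ u / 6 ≤ M :=
    ⟨⌊u / 3⌋₊, Nat.floor_le (by linarith only [hu]), by linarith only [Nat.lt_floor_add_one (u / 3), hu]⟩
  have hM1 : 1 ≤ M := by exact_mod_cast (by linarith only [hu, hM'] : (1 : ℝ) ≤ M)
  have hu0 : 0 < u := by linarith only [hu]
  have hy := Real.exp_pos u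
  have e4 : (4 : ℝ) ^ M ≤ Real.exp (u / 2) := by
    refine le_trans ?_ (Real.exp_le_exp.2 (by linarith only [hM] : (M : ℝ) * (3 / 2) ≤ u / 2))
    rw [Real.exp_nat_mul]
    gcongr
    rw [show (3 / 2 : ℝ) = 1 + 1 / 2 by norm_num, Real.exp_add]
    nlinarith only [Real.exp_one_gt_d9, Real.add_one_le_exp (1 / 2 : ℝ)]
  have e2 : (2 : ℝ) ^ M ≤ Real.exp u :=
    (pow_le_pow_left₀ (by norm_num) (by norm_num) M).trans
      (e4.trans (Real.exp_le_exp.2 (by linarith only [hu])))
  have a1 : |∑ k ∈ range (M + 1), 2 ^ M / 3 ^ k * cnt h (U f M k) (3 ^ k * Real.exp u / 2 ^ M)| ≤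
      (3 + q) * Real.exp u * (C / M ^ 2) := by
    refine (abs_sum_le_sum_abs _ _).trans (le_trans ?_
      (mul_le_mul_of_nonneg_left (hC M hM1) (by positivity)))
    rw [mul_sum]
    refine sum_le_sum fun k _ => ?_
    have hW : 0 < 3 ^ k * q := Nat.mul_pos (by positivity) (by omega)
    rw [_root_.abs_mul, abs_of_pos (by positivity : (0 : ℝ) < 2 ^ M / 3 ^ k)]
    refine (mul_le_mul_of_nonneg_left (I.abs_cnt_per hW (by exact_mod_cast U_per hf M k)
      (by positivity)) (by positivity)).trans ?_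
    rw [← mul_assoc]
    refine mul_le_mul_of_nonneg_right ?_ (by positivity)
    have h3 : (2 : ℝ) ^ M / 3 ^ k ≤ Real.exp u :=
      (div_le_self (by positivity) (one_le_pow₀ (by norm_num))).trans e2
    have h4 : (2 : ℝ) ^ M / 3 ^ k * (2 * (3 ^ k * Real.exp u / 2 ^ M) + 1 + (3 ^ k * q : ℕ)) =
        2 * Real.exp u + 2 ^ M / 3 ^ k + q * 2 ^ M := by push_cast; field_simp
    rw [h4]
    linarith only [mul_le_mul_of_nonneg_left e2 (Nat.cast_nonneg (α := ℝ) q), h3]
  have a2 := I.core h1 (Real.exp u) M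
  have a3 : C / M ^ 2 ≤ 36 * |C| / u ^ 2 := by
    rw [div_le_div_iff₀ (by positivity) (by positivity)]
    have : u ^ 2 ≤ 36 * M ^ 2 := by nlinarith only [hu, hM']
    linarith only [le_abs_self C, abs_nonneg C, mul_le_mul_of_nonneg_left this (abs_nonneg C), mul_le_mul_of_nonneg_right (le_abs_self C) (sq_nonneg u)]
  have a4 : |cnt h f (Real.exp u)| ≤ (3 + q) * Real.exp u * (36 * |C| / u ^ 2) +
      Real.exp (u / 2) * (4 * n₀ + 4) := by
    have b1 := mul_le_mul_of_nonneg_left a3 (by positivity : 0 ≤ (3 + q) * Real.exp u)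
    have b2 := mul_le_mul_of_nonneg_right e4 (by positivity : (0 : ℝ) ≤ 4 * n₀ + 4)
    rw [mul_one] at a2
    rw [abs_le] at a1 a2 ⊢
    constructor <;> linarith only [a1.1, a1.2, a2.1, a2.2, b1, b2]
  rw [abs_div, abs_of_pos hy]
  refine (div_le_div_of_nonneg_right a4 hy.le).trans ?_
  have b3 := mul_le_mul_of_nonneg_right (exp_neg_half hu0) (by positivity : (0 : ℝ) ≤ 4 * n₀ + 4)
  rw [add_div, add_div, mul_right_comm, mul_div_cancel_right₀ _ hy.ne',
    mul_div_right_comm (Real.exp _), mul_div_assoc (3 + q : ℝ), mul_div_right_comm 8]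
  linarith only [b3]

theorem tendsto_of_exp {G : ℝ → ℝ} {c : ℝ} (H : Tendsto (fun u => G (Real.exp u)) atTop (𝓝 c)) :
    Tendsto G atTop (𝓝 c) :=
  (H.comp Real.tendsto_log_atTop).congr' ((eventually_gt_atTop 0).mono fun y hy => by
    simp [Real.exp_log hy])

theorem Inv.small' (I : Inv h n₀) (mix : Mix) {q : ℕ} (hq : q % 2 = 1) {f : ℤ → ℝ}
    (hf : Function.Periodic f (q : ℤ)) (h0 : ∑ b ∈ range q, f b = 0) (h1 : ∀ n, |f n| ≤ 1) :
    Tendsto (fun y => cnt h f y / y) atTop (𝓝 0) := by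
  obtain ⟨C, hC⟩ := I.small mix hq hf h0 h1
  exact tendsto_of_exp (G := fun y => cnt h f y / y) (squeeze_zero_norm'
    ((eventually_ge_atTop 6).mono hC)
    (tendsto_const_nhds.div_atTop (tendsto_pow_atTop two_ne_zero)))

theorem Inv.abs_cnt (I : Inv h n₀) {y : ℝ} (hy : 1 ≤ y) : |cnt h 1 y| ≤ 3 * y := by
  have := abs_sum_le (s := box y) (B := 1) fun n => I.abs_mul (w := 1) (fun _ => by simp) n n
  linarith [card_box (y := y) (by linarith), show |cnt h 1 y| ≤ (box y).card * 1 from this]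

theorem Inv.lip (I : Inv h n₀) {y z : ℝ} (hy : 0 ≤ y) (hz : 0 ≤ z) :
    |cnt h 1 y - cnt h 1 z| ≤ 2 * |y - z| + 2 := by
  wlog hle : z ≤ y generalizing y z
  · rw [abs_sub_comm, abs_sub_comm y]; exact this hz hy (not_le.1 hle).le
  have hs : box z ⊆ box y := fun n hn => by
    rw [mem_box] at hn ⊢
    constructor <;> linarith [hn.1, hn.2]
  have c : ∀ x : ℝ, 0 ≤ x → ((box x).card : ℝ) = 2 * ⌊x⌋ + 1 := fun x hx => by
    have h := Int.floor_nonneg.2 hx
    have : ((box x).card : ℤ) = 2 * ⌊x⌋ + 1 := by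
      rw [box, Int.card_Icc_of_le _ _ (by omega)]; ring
    exact_mod_cast this
  have := abs_sum_sub_le (s := box y) (t := box z) (B := 1)
    fun n => I.abs_mul (w := 1) (fun _ => by simp) n n
  rw [sdiff_eq_empty_iff_subset.2 hs, cast_card_sdiff hs, c y hy, c z hz] at this
  refine le_trans this ?_
  rw [abs_of_nonneg (sub_nonneg.2 hle)]
  simp only [card_empty, Nat.cast_zero]
  linarith only [Int.floor_le y, Int.lt_floor_add_one z]

theorem irr_log : Irrational (Real.log (3 / 2) / Real.log 2) := by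
  have h2 : 0 < Real.log 2 := Real.log_pos (by norm_num)
  have h3 : 0 < Real.log (3 / 2) := Real.log_pos (by norm_num)
  rintro ⟨r, hr⟩
  have hr0 : 0 < r := by exact_mod_cast hr ▸ div_pos h3 h2
  obtain ⟨a, ha⟩ := Int.eq_ofNat_of_zero_le (Rat.num_pos.2 hr0).le
  rw [Rat.cast_def, ha, Int.cast_natCast, div_eq_div_iff (by exact_mod_cast r.den_nz) h2.ne',
    mul_comm (Real.log _), ← Real.log_pow, ← Real.log_pow] at hr
  have h4 := Real.log_injOn_pos (Set.mem_Ioi.2 (by positivity)) (Set.mem_Ioi.2 (by positivity)) hr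
  rw [div_pow, eq_div_iff (by positivity)] at h4
  have h5 : 2 ^ a * 2 ^ r.den = 3 ^ r.den := by exact_mod_cast h4
  have h6 : 2 ∣ 3 ^ r.den := h5 ▸ Dvd.dvd.mul_left (dvd_pow_self 2 r.den_nz) _
  exact absurd (Nat.prime_two.dvd_of_dvd_pow h6) (by norm_num)

theorem Inv.exists_limit (I : Inv h n₀) (mix : Mix) :
    ∃ c, Tendsto (fun y => cnt h 1 y / y) atTop (𝓝 c) := by
  obtain ⟨C, hC⟩ := I.small mix (q := 3) rfl (f := fun b => if b % 3 = 2 then 1 else -1 / 2)
    (fun b => by simp) (by simp only [sum_range_succ, range_one, sum_singleton, CharP.cast_eq_zero, EuclideanDomain.zero_mod, OfNat.zero_ne_ofNat, ↓ reduceIte, Nat.cast_one, Int.reduceMod, OfNat.one_ne_ofNat, add_halves, Nat.cast_ofNat, neg_add_cancel])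
    (fun b => by split_ifs <;> rw [abs_le] <;> norm_num)
  have h3 : 0 < Real.log (3 / 2) := Real.log_pos (by norm_num)
  obtain ⟨c, hc⟩ := renew (F := fun u => cnt h 1 (Real.exp u) / Real.exp u) (B := 3)
    (C := |C| + 8 * (4 * n₀ + 4)) h3 (Real.log_lt_log (by norm_num) (by norm_num)) irr_log
    ((eventually_ge_atTop 0).mono fun u hu => by
      rw [abs_div, abs_of_pos (Real.exp_pos u), div_le_iff₀ (Real.exp_pos u)]
      exact I.abs_cnt (Real.one_le_exp hu))
    (fun η hη => ⟨min 1 (η / 20), by positivity, by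
      filter_upwards [eventually_ge_atTop 0, eventually_ge_atTop (4 / η)] with u hu hu' v hv
      have hv1 := hv.trans (min_le_left _ _)
      have hy := Real.exp_pos u
      have hz := Real.exp_pos v
      have e1 : |Real.exp v - Real.exp u| ≤ η / 10 * Real.exp v := by
        have := Real.abs_exp_sub_one_le (x := u - v) (by rwa [abs_sub_comm])
        rw [show Real.exp v - Real.exp u = -(Real.exp (u - v) - 1) * Real.exp v by
          rw [Real.exp_sub]; field_simp; ring, _root_.abs_mul, abs_neg, abs_of_pos hz]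
        rw [abs_sub_comm u] at this
        exact mul_le_mul_of_nonneg_right (by linarith only [hv.trans (min_le_right _ _), this]) hz.le
      have e2 : 4 ≤ η * Real.exp v := by
        rw [div_le_iff₀ hη] at hu'
        nlinarith only [Real.add_one_le_exp v, (abs_le.1 hv1).1, hη, hu']
      have e3 := I.lip hz.le hy.le
      have e4 : |cnt h 1 (Real.exp u) / Real.exp u| ≤ 3 := by
        rw [abs_div, abs_of_pos hy, div_le_iff₀ hy]
        exact I.abs_cnt (Real.one_le_exp hu)
      rw [show cnt h 1 (Real.exp v) / Real.exp v - cnt h 1 (Real.exp u) / Real.exp u =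
        (cnt h 1 (Real.exp v) - cnt h 1 (Real.exp u) -
          cnt h 1 (Real.exp u) / Real.exp u * (Real.exp v - Real.exp u)) / Real.exp v by
            field_simp; ring, abs_div, abs_of_pos hz, div_le_iff₀ hz]
      refine (abs_sub _ _).trans ?_
      rw [_root_.abs_mul]
      linarith [mul_le_mul_of_nonneg_right e4 (abs_nonneg (Real.exp v - Real.exp u))]⟩)
    ((eventually_ge_atTop 6).mono fun u hu => by
      have hy := Real.exp_pos u
      have hu0 : 0 < u := by linarith
      have s := I.step (w := 1) (B := 1) (fun _ => by simp) (Real.exp u)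
      have e0 : t0 1 = fun n => 1 / 2 * (1 : ℤ → ℝ) n := by ext n; simp [t0]
      have e1 : t1 1 = (fun n => 1 / 2 * (1 : ℤ → ℝ) n) +
          fun b => if b % 3 = 2 then 1 else -1 / 2 := by
        ext n; simp only [t1, Pi.add_apply, Pi.one_apply]; split_ifs <;> norm_num
      rw [e0, e1, cnt_add, cnt_mul, cnt_mul] at s
      have f := hC (u + Real.log (3 / 2)) (by linarith only [h3, hu])
      have f' : C / (u + Real.log (3 / 2)) ^ 2 ≤ |C| / u ^ 2 :=
        div_le_div₀ (abs_nonneg C) (le_abs_self C) (by positivity) (by gcongr; linarith only [h3])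
      have x0 : Real.exp (u - Real.log 2) = Real.exp u / 2 := by
        rw [Real.exp_sub, Real.exp_log two_pos]
      have x1 : Real.exp (u + Real.log (3 / 2)) = 3 * Real.exp u / 2 := by
        rw [Real.exp_add, Real.exp_log (by norm_num)]; ring
      rw [x1] at f
      simp only [x0, x1]
      have g : (4 * n₀ + 4) * 1 / Real.exp u ≤ 8 * (4 * n₀ + 4) / u ^ 2 := by
        rw [mul_div_assoc, mul_comm 8, mul_div_assoc]
        gcongr _ * ?_
        exact le_trans (by gcongr; exact Real.one_le_exp (by positivity)) (exp_neg_half hu0)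
      have s' := (div_le_div_of_nonneg_right s hy.le).trans g
      rw [← abs_of_pos hy, ← abs_div, abs_of_pos hy] at s'
      generalize cnt h 1 (Real.exp u) = x, cnt h 1 (Real.exp u / 2) = y,
        cnt h 1 (3 * Real.exp u / 2) = z, cnt h _ (3 * Real.exp u / 2) = w at s' f ⊢
      rw [show x / Real.exp u - (y / (Real.exp u / 2) + z / (3 * Real.exp u / 2)) / 2 =
        (x - (2 * (1 / 2 * y) + 2 / 3 * (1 / 2 * z + w))) / Real.exp u +
          w / (3 * Real.exp u / 2) by field_simp; ring, add_div |C|]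
      linarith only [abs_add_le ((x - (2 * (1 / 2 * y) + 2 / 3 * (1 / 2 * z + w))) / Real.exp u)
        (w / (3 * Real.exp u / 2)), f', s', f])
  exact ⟨c, tendsto_of_exp (G := fun y => cnt h 1 y / y) hc⟩

/-- indicator of a residue class -/
def cls (q : ℕ) (r : ℤ) (n : ℤ) : ℝ := if n ≡ r [ZMOD q] then 1 else 0

theorem Inv.classes (I : Inv h n₀) (mix : Mix) {c : ℝ}
    (hc : Tendsto (fun y => cnt h 1 y / y) atTop (𝓝 c)) (s : ℕ) : ∀ m : ℕ, m % 2 = 1 → ∀ r : ℤ,
    Tendsto (fun y => cnt h (cls (2 ^ s * m) r) y / y) atTop (𝓝 (c / (2 ^ s * m : ℕ))) := by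
  induction s with
  | zero =>
    intro m hm r
    have hm0 : (1 : ℝ) ≤ m := by exact_mod_cast (by omega : 1 ≤ m)
    have h1 := I.small' mix hm (f := fun n => cls m r n - 1 / m)
      (fun n => by simp only [cls, Int.ModEq, Int.add_emod_right]; rfl) ?_ fun n => ?_
    · rw [pow_zero, one_mul]
      have := (hc.const_mul (1 / m : ℝ)).add h1
      rw [add_zero, mul_comm, mul_one_div] at this
      refine this.congr fun y => ?_
      rw [← mul_div_assoc, ← add_div, ← cnt_mul, ← cnt_add]
      congr 2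
      ext n
      simp
    · have hm' : (0 : ℤ) < m := by omega
      rw [sum_sub_distrib, sum_eq_single (r % m).toNat]
      · rw [cls, Int.toNat_of_nonneg (Int.emod_nonneg _ hm'.ne'), if_pos (Int.mod_modEq _ _)]
        simp only [sum_const, card_range, nsmul_eq_mul]
        field_simp; ring
      · intro b hb hne
        refine if_neg fun e => hne ?_
        rw [Int.ModEq, Int.emod_eq_of_lt (by omega) (by exact_mod_cast mem_range.1 hb)] at e
        rw [← e, Int.toNat_natCast]
      · intro hn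
        have := Int.emod_lt_of_pos r hm'
        exact absurd (mem_range.2 (by omega)) hn
    · have : 0 ≤ 1 / (m : ℝ) := by positivity
      have : 1 / (m : ℝ) ≤ 1 := by rw [div_le_one (by linarith only [hm0])]; exact hm0
      rw [cls, abs_le]
      split_ifs <;> constructor <;> linarith
  | succ s ih =>
    intro m hm r
    have hw : ∀ n, |cls (2 ^ (s + 1) * m) r n| ≤ 1 := fun n => by
      rw [cls]; split_ifs <;> simp
    have hm0 : (m : ℝ) ≠ 0 := by exact_mod_cast (by omega : m ≠ 0)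
    have key : Tendsto (fun y => (2 * cnt h (t0 (cls (2 ^ (s + 1) * m) r)) (y / 2) +
        2 / 3 * cnt h (t1 (cls (2 ^ (s + 1) * m) r)) (3 * y / 2)) / y) atTop
        (𝓝 (c / (2 ^ (s + 1) * m : ℕ))) := by
      have hQ : ((2 ^ (s + 1) * m : ℕ) : ℤ) = 2 * ((2 ^ s * m : ℕ) : ℤ) := by push_cast; ring
      rcases Int.even_or_odd' r with ⟨r, rfl | rfl⟩
      · have e0 : t0 (cls (2 ^ (s + 1) * m) (2 * r)) = fun n => 1 / 2 * cls (2 ^ s * m) r n := by
          ext n
          rw [t0, cls, cls, hQ, if_congr (Q := n ≡ r [ZMOD (2 ^ s * m : ℕ)])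
            ⟨Int.ModEq.mul_left_cancel' two_ne_zero, Int.ModEq.mul_left'⟩ rfl rfl]
          ring
        have e1 : t1 (cls (2 ^ (s + 1) * m) (2 * r)) = 0 := by
          ext n
          rw [t1, cls, hQ, Pi.zero_apply]
          split_ifs with h1 h2
          · obtain ⟨j, hj⟩ := h2.dvd
            rw [mul_assoc] at hj
            omega
          · simp
          · rfl
        have := ((ih m hm r).comp (tendsto_id.atTop_div_const two_pos)).const_mul (1 / 2 : ℝ)
        rw [e0, e1]
        convert this.congr' ((eventually_gt_atTop 0).mono fun y hy => ?_) using 2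
        · push_cast; field_simp; ring
        · simp only [cnt_mul, Function.comp, id]
          simp only [cnt, Pi.zero_apply, mul_zero, sum_const_zero]
          field_simp; ring
      · have e0 : t0 (cls (2 ^ (s + 1) * m) (2 * r + 1)) = 0 := by
          ext n
          rw [t0, cls, hQ, Pi.zero_apply, if_neg, zero_div]
          intro h2
          obtain ⟨j, hj⟩ := h2.dvd
          rw [mul_assoc] at hj
          omega
        have e1 : t1 (cls (2 ^ (s + 1) * m) (2 * r + 1)) =
            fun n => 3 / 2 * cls (2 ^ s * (3 * m)) (3 * r + 2) n := by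
          ext n
          have hQ' : ((2 ^ s * (3 * m) : ℕ) : ℤ) = 3 * ((2 ^ s * m : ℕ) : ℤ) := by push_cast; ring
          rw [t1, cls, cls, hQ, hQ']
          generalize ((2 ^ s * m : ℕ) : ℤ) = Q
          simp only [Int.modEq_iff_dvd]
          by_cases h1 : n % 3 = 2
          · rw [if_pos h1, if_congr (Q := 3 * Q ∣ 3 * r + 2 - n) ?_ rfl rfl]
            constructor <;> rintro ⟨j, hj⟩ <;> refine ⟨j, ?_⟩ <;> rw [mul_assoc] at hj ⊢ <;> omega
          · rw [if_neg h1, if_neg, mul_zero]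
            rintro ⟨j, hj⟩
            rw [mul_assoc] at hj
            omega
        have := ((ih (3 * m) (by omega) (3 * r + 2)).comp
          ((tendsto_id.const_mul_atTop three_pos).atTop_div_const two_pos)).const_mul (3 / 2 : ℝ)
        rw [e0, e1]
        convert this.congr' ((eventually_gt_atTop 0).mono fun y hy => ?_) using 2
        · push_cast; field_simp; ring
        · simp only [cnt_mul, Function.comp, id]
          simp only [cnt, Pi.zero_apply, mul_zero, sum_const_zero]
          field_simp; ring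
    have z : Tendsto (fun y : ℝ => (cnt h (cls (2 ^ (s + 1) * m) r) y -
        (2 * cnt h (t0 (cls (2 ^ (s + 1) * m) r)) (y / 2) +
        2 / 3 * cnt h (t1 (cls (2 ^ (s + 1) * m) r)) (3 * y / 2))) / y) atTop (𝓝 0) :=
      squeeze_zero_norm' ((eventually_gt_atTop 0).mono fun y hy => by
        rw [Real.norm_eq_abs, abs_div, abs_of_pos hy]
        exact div_le_div_of_nonneg_right (I.step hw y) hy.le)
        (tendsto_const_nhds.div_atTop tendsto_id)
    have := z.add key
    rw [zero_add] at this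
    exact this.congr fun y => by ring

end

end Pool.Agent.MP_158692_nt.H6

end

-- part MP_158692_nt.Core
section

/-! Existence of the density of a `T`-invariant weight (section 3 of the notes). -/

namespace Pool.Agent.MP_158692_nt

open Finset Function Filter Topology

theorem core_U (f : ℤ → ℝ) : ∀ M k : ℕ, H6.U f M k = Tk M k f
  | 0, 0 => by ext b; simp [H6.U, Tk, Tr_zero]
  | 0, k + 1 => by ext b; simp [H6.U, Tk, Tr_zero]
  | M + 1, 0 => by
    ext b
    rw [H6.U, H6.t0, core_U f M 0, Tk, Tk, add_comm M, Tr_add_len, Tr_one]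
    simp only [Tr_eq_fib, mul_ite, mul_zero, zero_add, Nat.add_eq_zero_iff, one_ne_zero, false_and, ↓ reduceIte, sum_const_zero, ite_self, add_zero]
  | M + 1, k + 1 => by
    ext b
    rw [H6.U, Pi.add_apply, H6.t0, H6.t1, core_U f M k, core_U f M (k + 1), Tk, Tk, Tk,
      add_comm M, Tr_add_len, Tr_one, if_congr (show (3 : ℤ) ∣ 2 * b - 1 ↔ b % 3 = 2 by omega) rfl rfl]
    simp only [zero_add, add_comm 1, add_left_inj]
    split_ifs <;> ring

theorem core_mix : H6.Mix := fun q hq f hf h0 h1 => by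
  obtain ⟨C, hC, h⟩ := mix (Nat.odd_iff.2 hq) 2
  refine ⟨C, fun M hM => ?_⟩
  simp only [core_U]
  refine (h f hf h0 h1 M).trans ?_
  gcongr
  linarith only []

theorem exists_density (h : ℤ → ℝ) (a : ℤ) (hb : ∀ n, |h n| ≤ 1)
    (hinv : ∀ n, n ≠ a → h (T n) = h n) :
    ∃ c : ℝ, ∀ q : ℕ, 0 < q → ∀ r : ℤ, Tendsto (fun x : ℕ =>
      (∑ n ∈ Icc (-(x : ℤ)) x, if n ≡ r [ZMOD (q : ℤ)] then h n else 0) / (x : ℝ))
        atTop (𝓝 (c / q)) := by
  have I : H6.Inv h a.natAbs := ⟨hb, fun n hn => hinv n fun e => by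
    rw [e, Int.natCast_natAbs] at hn
    exact lt_irrefl _ hn⟩
  obtain ⟨c, hc⟩ := I.exists_limit core_mix
  refine ⟨c, fun q hq r => ?_⟩
  obtain ⟨s, m, hm, rfl⟩ := Nat.exists_eq_two_pow_mul_odd hq.ne'
  refine ((I.classes core_mix hc s m (Nat.odd_iff.1 hm) r).comp
    tendsto_natCast_atTop_atTop).congr fun x => ?_
  simp only [Function.comp, H6.cnt, H6.box, H6.cls, Int.floor_natCast, mul_ite, mul_one, mul_zero]

end Pool.Agent.MP_158692_nt

end
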