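import Pool.Agent.MP_158692_nt.Mg.Root

/-! Uniform positive density of the predecessors. -/

namespace Pool.Agent.MP_158692_nt

open Finset Function

/-- indicator of the window `Y / 2 < 2 ^ d / 3 ^ k ≤ Y` -/
noncomputable def win (Y : ℝ) (d k : ℕ) : ℝ :=
  if Y / 2 < 2 ^ d / 3 ^ k ∧ (2 : ℝ) ^ d / 3 ^ k ≤ Y then 1 else 0

theorem win_nonneg (Y : ℝ) (d k : ℕ) : 0 ≤ win Y d k := by unfold win; split_ifs <;> norm_num

/-- a walk that starts below `Y` and ends above `Y` passes through the window -/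
theorem hit {Y : ℝ} {d k : ℕ} (h : (2 : ℝ) ^ d / 3 ^ k ≤ Y) (H : ℕ) :
    2 * Bn H (fun i => if Y < 2 ^ (d + H) / 3 ^ (k + i) then 1 else 0) ≤
      ∑ j ∈ range H, Bn j (fun i => win Y (d + j) (k + i)) := by
  induction H with
  | zero => simp [Bn_zero, not_lt.2 h]
  | succ H ih =>
    rw [sum_range_succ, Bn_succ]
    have h1 : Bn H (fun i => if Y < 2 ^ (d + (H + 1)) / 3 ^ (k + i) then (1 : ℝ) else 0) ≤
        Bn H (fun i => (if Y < 2 ^ (d + H) / 3 ^ (k + i) then (1 : ℝ) else 0) +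
          win Y (d + H) (k + i)) := by
      refine Bn_mono fun i _ => ?_
      rw [win, ← add_assoc, pow_succ, mul_div_right_comm]
      generalize (2 : ℝ) ^ (d + H) / 3 ^ (k + i) = x
      by_cases h1 : Y < x
      · rw [if_pos h1]; split_ifs <;> norm_num
      · by_cases h2 : Y < x * 2
        · rw [if_pos h2, if_neg h1, if_pos ⟨by linarith only [h2], by linarith only [h1]⟩]; norm_num
        · rw [if_neg h2, if_neg h1]; split_ifs <;> norm_num
    have h2 : Bn H (fun i => if Y < 2 ^ (d + (H + 1)) / 3 ^ (k + (i + 1)) then (1 : ℝ) else 0) ≤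
        Bn H (fun i => if Y < 2 ^ (d + H) / 3 ^ (k + i) then (1 : ℝ) else 0) := by
      refine Bn_mono fun i _ => ?_
      rw [← add_assoc, ← add_assoc, pow_succ, pow_succ, mul_div_mul_comm]
      have : (0 : ℝ) < 2 ^ (d + H) / 3 ^ (k + i) := by positivity
      generalize (2 : ℝ) ^ (d + H) / 3 ^ (k + i) = x at this
      by_cases h1 : Y < x
      · rw [if_pos h1]; split_ifs <;> norm_num
      · rw [if_neg h1, if_neg (by linarith only [this, h1])]
    rw [Bn_add] at h1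
    linarith

theorem hit' {Y : ℝ} {d k H : ℕ} (ht : Typ d k) (h1 : Real.exp ((mu + 1 / 800) * d) ≤ Y)
    (h2 : Y < Real.exp ((mu - 1 / 800) * (d + H : ℕ))) (hH : Bn H (unt H) ≤ 1 / 2) :
    1 ≤ ∑ j ∈ range H, Bn j (fun i => win Y (d + j) (k + i)) := by
  refine le_trans ?_ (hit (ht.wt_le.trans h1) H)
  have : Bn H (fun i => 1 - unt H i) ≤
      Bn H (fun i => if Y < 2 ^ (d + H) / 3 ^ (k + i) then 1 else 0) := by
    refine Bn_mono fun i _ => ?_
    rw [unt]
    by_cases h : Typ H i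
    · rw [if_pos h, if_pos (h2.trans_le (ht.add h).le_wt)]; norm_num
    · rw [if_neg h]; split_ifs <;> norm_num
  rw [Bn_sub, Bn_const] at this
  linarith only [hH, this]

/-- the predecessors at depth `d` whose weight lies in the window -/
noncomputable def nodes (Y K : ℝ) (d : ℕ) (a : ℤ) : Finset ℤ :=
  (fib d a).filter fun n => (Y / 2 < 2 ^ d / 3 ^ od d n ∧ (2 : ℝ) ^ d / 3 ^ od d n ≤ Y) ∧
    (gg d n : ℝ) ≤ K * 2 ^ d

theorem nodes_card (Y K : ℝ) (d : ℕ) (a : ℤ) :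
    Y / 2 * Tr d (fun k G _ => win Y d k * if (G : ℝ) ≤ K * 2 ^ d then 1 else 0) a ≤
      (nodes Y K d a).card := by
  rw [Tr_eq_fib, nodes, card_filter, mul_sum]
  push_cast
  refine sum_le_sum fun n _ => ?_
  rw [win]
  by_cases h1 : Y / 2 < 2 ^ d / 3 ^ od d n ∧ (2 : ℝ) ^ d / 3 ^ od d n ≤ Y
  · by_cases h2 : (gg d n : ℝ) ≤ K * 2 ^ d
    · rw [if_pos h1, if_pos h2, if_pos ⟨h1, h2⟩, mul_one, mul_one, ← mul_div_assoc,
        div_le_one (by positivity)]
      exact ((lt_div_iff₀ (by positivity)).1 h1.1).le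
    · simp only [h2, ↓ reduceIte, mul_zero, and_false, Std.le_refl]
  · simp only [h1, if_false, false_and]; simp

theorem nodes_abs {Y K : ℝ} (hK : 0 ≤ K) {d : ℕ} {a n : ℤ} (h : n ∈ nodes Y K d a) :
    |(n : ℝ)| ≤ (|(a : ℝ)| + K) * Y := by
  simp only [nodes, mem_filter, mem_fib] at h
  have hd := dyn d n
  rw [h.1] at hd
  have hd' : (2 : ℝ) ^ d * a = 3 ^ od d n * n + gg d n := by exact_mod_cast hd
  have h3 : (0 : ℝ) < 3 ^ od d n := by positivity
  have h4 : 3 ^ od d n * |(n : ℝ)| ≤ (|(a : ℝ)| + K) * 2 ^ d := by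
    rw [← abs_of_pos h3, ← abs_mul, eq_sub_of_add_eq hd'.symm]
    refine (abs_sub _ _).trans ?_
    rw [abs_mul, abs_of_pos (by positivity : (0 : ℝ) < 2 ^ d), Nat.abs_cast]
    linarith only [h.2.2]
  have h5 := (div_le_iff₀ h3).1 h.2.1.2
  refine le_of_mul_le_mul_left (h4.trans ?_) h3
  have := mul_le_mul_of_nonneg_left h5 (by positivity : 0 ≤ |(a : ℝ)| + K)
  linarith only [this]

theorem sum_nodes {N : ℕ} {K E Y : ℝ} (hK : 0 ≤ K) (hE : Err (N / 50) E)
    (hH : Bn (N / 20) (unt (N / 20)) ≤ 1 / 2)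
    (h1 : Real.exp ((mu + 1 / 800) * (N + N / 50 : ℕ)) ≤ Y)
    (h2 : Y < Real.exp ((mu - 1 / 800) * (N + N / 50 + N / 20 : ℕ))) (a : ℤ) :
    Y / 2 * (mass K N a - ((N / 20 : ℕ) + 1) * ((N + 1) * (K + 1) * E)) ≤
      ∑ j ∈ range (N / 20), ((nodes Y (K + 1) (N + (N / 50 + j)) a).card : ℝ) := by
  have hY : 0 < Y := (Real.exp_pos _).trans_le h1
  set m := N / 50 with hm
  set H := N / 20 with hH'
  refine le_trans ?_ (sum_le_sum fun j _ => nodes_card Y _ _ a)
  rw [← mul_sum]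
  refine mul_le_mul_of_nonneg_left ?_ (by positivity)
  have h3 : ∀ j ∈ range H, Tr N (fun k G b => cN K N k G *
      Tr m (fun k' _ _ => Bn j (fun i => win Y (N + m + j) (k + k' + i))) b) a -
        (N + 1) * (K + 1) * E ≤ Tr (N + (m + j)) (fun k G _ => win Y (N + (m + j)) k *
          if (G : ℝ) ≤ (K + 1) * 2 ^ (N + (m + j)) then 1 else 0) a := by
    intro j hj
    have hj' : 14 * (m + j) ≤ N := by have := mem_range.1 hj; omega
    have h4 := dens (N := N) (L := m + j) hj' hK (E := E)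
      (u := fun k b => |Tr (m + j) (fun k' _ _ => win Y (N + m + j) (k + k')) b -
        Tr m (fun k' _ _ => Bn j (fun i => win Y (N + m + j) (k + (k' + i)))) b|)
      (fun k b => by
        simp only [Tr_per_const (m + j) (fun k' _ => win Y (N + m + j) (k + k')) b,
          per_pow (Tr_per_const m (fun k' _ => Bn j (fun i => win Y (N + m + j) (k + (k' + i)))))
            (Nat.le_add_right m j) b])
      (fun _ _ => abs_nonneg _)
      (fun k => hE.2 j (fun k' => win Y (N + m + j) (k + k')) fun k' => by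
        unfold win; split_ifs <;> norm_num) a
    refine le_trans ?_ (Tr_comp_ge (c := cN K N) (v := fun k k' _ => win Y (N + m + j) (k + k'))
      (fun k G k' G' n h => ?_) a)
    · refine (sub_le_sub_left h4 _).trans ?_
      rw [← Tr_sub]
      refine Tr_mono (fun k G b _ => ?_) a
      rw [← mul_sub]
      refine mul_le_mul_of_nonneg_left ?_ (cN_nonneg _ _ _ _)
      simp only [add_assoc k]
      linarith only [neg_abs_le (Tr (m + j) (fun k' _ _ => win Y (N + m + j) (k + k')) b -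
        Tr m (fun k' _ _ => Bn j (fun i => win Y (N + m + j) (k + (k' + i)))) b)]
    · rw [cN, add_assoc]
      by_cases h5 : Typ N k ∧ (G : ℝ) ≤ K * 2 ^ N
      · have h6 : Real.exp (-(N : ℝ) / 30) ≤ 1 := Real.exp_le_one_iff.2 (by
          have : (0 : ℝ) ≤ N := by positivity
          linarith)
        rw [if_pos h5, if_pos ((offset_le hj' h5.1 h5.2 h).trans (by gcongr)), mul_comm]
      · rw [if_neg h5, zero_mul]
        exact mul_nonneg (win_nonneg _ _ _) (by split_ifs <;> norm_num)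
  refine le_trans ?_ (sum_le_sum h3)
  rw [sum_sub_distrib, sum_const, card_range, nsmul_eq_mul, ← Tr_sum]
  have h4 := dens (N := N) (L := m) (by omega) hK (E := E)
    (u := fun _ b => Tr m (fun k _ _ => unt m k) b) (fun _ => Tr_per_const m fun k _ => unt m k)
    (fun _ b => Tr_nonneg (fun _ _ _ => unt_nonneg _ _) b)
    (fun _ => (avg_Tr_const m fun k _ => unt m k).le.trans hE.1) a
  have h5 : mass K N a - Tr N (fun k G b => cN K N k G * Tr m (fun k _ _ => unt m k) b) a ≤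
      Tr N (fun k G b => ∑ j ∈ range H, cN K N k G *
        Tr m (fun k' _ _ => Bn j (fun i => win Y (N + m + j) (k + k' + i))) b) a := by
    rw [mass, ← Tr_sub]
    refine Tr_mono (fun k G b _ => ?_) a
    rw [← mul_sub, ← mul_sum, ← Tr_sum, rho, ← Tr_sub, cN]
    split_ifs with h6
    · refine mul_le_mul_of_nonneg_left (Tr_mono (fun k' _ _ _ => ?_) b) zero_le_one
      rw [unt]
      split_ifs with h7
      · rw [sub_zero]; exact hit' (h6.1.add h7) h1 h2 hH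
      · rw [sub_self]
        exact sum_nonneg fun j _ => Bn_nonneg fun _ _ => win_nonneg _ _ _
    · simp
  linarith only [h4, h5]

theorem exists_cross {P : ℕ → Prop} {f : ℕ → ℕ} {N0 : ℕ} {y : ℝ} (h0 : P N0)
    (hs : ∀ N, P N → P (f N) ∧ N < f N) (hy : (f N0 : ℝ) ≤ y) :
    ∃ N, P N ∧ (f N : ℝ) ≤ y ∧ y < f (f N) := by
  by_contra h
  have key : ∀ i : ℕ, ∃ N, i ≤ N ∧ P N ∧ (f N : ℝ) ≤ y := by
    intro i
    induction i with
    | zero => exact ⟨N0, Nat.zero_le _, h0, hy⟩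
    | succ i ih =>
      obtain ⟨N, h1, h2, h3⟩ := ih
      exact ⟨f N, by have := (hs N h2).2; omega, (hs N h2).1,
        not_lt.1 fun h4 => h ⟨N, h2, h3, h4⟩⟩
  obtain ⟨i, hi⟩ := exists_nat_gt y
  obtain ⟨N, h1, h2, h3⟩ := key i
  have : (i : ℝ) ≤ f N := by exact_mod_cast h1.trans (hs N h2).2.le
  linarith only [hi, h3, this]

theorem exists_start : ∃ N0 : ℕ, 2000 ≤ N0 ∧ Bn N0 (unt N0) ≤ 1 / 4 ∧ ∀ N, N0 ≤ N →
    Err (N / 50) (1 / (10000 * (N : ℝ) ^ 3)) ∧ Bn (N / 20) (unt (N / 20)) ≤ 1 / 2 := by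
  obtain ⟨C, hC, h⟩ := exists_err
  obtain ⟨N0, hN0⟩ := exists_nat_ge (2000 + 10000 * 50 ^ 5 * C)
  have h1 : ∀ m : ℕ, 4 * C ≤ m + 1 → Bn m (unt m) ≤ 1 / 4 := fun m hm => (h m).1.trans (by
    have : (m : ℝ) + 1 ≤ (m + 1) ^ 5 :=
      le_self_pow₀ (by linarith [(Nat.cast_nonneg m : (0 : ℝ) ≤ m)]) (by norm_num)
    rw [div_le_iff₀ (by positivity)]; linarith only [hm, this])
  refine ⟨N0, by exact_mod_cast (by linarith : (2000 : ℝ) ≤ N0), h1 _ (by linarith),
    fun N hN => ?_⟩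
  have hN' : (N0 : ℝ) ≤ N := by exact_mod_cast hN
  have h2 : (N : ℝ) ≤ 50 * ((N / 50 : ℕ) + 1) := by exact_mod_cast (by omega : N ≤ 50 * (N / 50 + 1))
  have h3 : (N : ℝ) ≤ 20 * ((N / 20 : ℕ) + 1) := by exact_mod_cast (by omega : N ≤ 20 * (N / 20 + 1))
  have h4 : C / (((N / 50 : ℕ) : ℝ) + 1) ^ 5 ≤ 1 / (10000 * (N : ℝ) ^ 3) := by
    have h5 := pow_le_pow_left₀ (by positivity) h2 5
    have h6 : 10000 * 50 ^ 5 * C ≤ (N : ℝ) ^ 2 := by nlinarith only [hN0, hN']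
    have h7 := mul_le_mul_of_nonneg_right h6 (by positivity : 0 ≤ (N : ℝ) ^ 3)
    rw [div_le_div_iff₀ (by positivity) (by have : (0 : ℝ) < N := by linarith only [hC, hN0, hN']
                                            positivity)]
    rw [mul_pow] at h5
    linarith only [h5, h7]
  exact ⟨⟨(h _).1.trans h4, fun s c hc => ((h _).2 s c hc).trans h4⟩,
    (h1 _ (by linarith only [hN0, hN', h3])).trans (by norm_num)⟩

theorem mass_chain {N0 N : ℕ} (h0 : 2000 ≤ N0) (hN : N0 ≤ N)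
    (hE : Err (N / 50) (1 / (10000 * (N : ℝ) ^ 3))) {a : ℤ}
    (h : 1 / 4 + (N0 : ℝ) / (4 * N) ≤ mass (2 * N0 - N0 ^ 2 / N) N a) :
    1 / 4 + (N0 : ℝ) / (4 * (N + N / 50 : ℕ)) ≤
      mass (2 * N0 - N0 ^ 2 / (N + N / 50 : ℕ)) (N + N / 50) a := by
  have h0' : (2000 : ℝ) ≤ N0 := by exact_mod_cast h0
  have hN' : (N0 : ℝ) ≤ N := by exact_mod_cast hN
  have hp : (0 : ℝ) < N := by linarith only [h0', hN']
  have h1 : (101 : ℝ) * N ≤ 100 * (N + N / 50 : ℕ) := by
    exact_mod_cast (by omega : 101 * N ≤ 100 * (N + N / 50))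
  have hq : (0 : ℝ) < (N + N / 50 : ℕ) := by linarith only [h0', hN', h1]
  have h2 : 1 / ((N + N / 50 : ℕ) : ℝ) ≤ 100 / 101 * (1 / N) := by
    rw [div_mul_div_comm, div_le_div_iff₀ hq (by positivity)]; linarith only [h1]
  have h3 : (N0 : ℝ) ^ 2 / N ≤ N0 := by rw [div_le_iff₀ hp]; nlinarith only [hN']
  have h4 : Real.exp (-(N : ℝ) / 30) ≤ 1 / N := by
    rw [neg_div, Real.exp_neg, ← one_div]
    refine one_div_le_one_div_of_le hp ?_
    nlinarith only [Real.quadratic_le_exp_of_nonneg (by positivity : 0 ≤ (N : ℝ) / 30), h0', hN']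
  have h5 : 0 < 1 / (N : ℝ) := by positivity
  refine le_trans ?_ (mass_step (K := 2 * N0 - N0 ^ 2 / N) (by linarith only [h3]) ?_ hE a)
  · have h6 : ((N : ℝ) + 1) * (2 * N0 - N0 ^ 2 / N + 1) * (2 * (1 / (10000 * (N : ℝ) ^ 3))) ≤
        2 * N * (3 * N0) * (2 * (1 / (10000 * (N : ℝ) ^ 2))) := by
      have : (0 : ℝ) ≤ N0 ^ 2 / N := by positivity
      have : (N : ℝ) ^ 2 ≤ N ^ 3 := pow_le_pow_right₀ (by linarith only [h0', hN']) (by norm_num)
      gcongr <;> linarith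
    have h7 : 2 * (N : ℝ) * (3 * N0) * (2 * (1 / (10000 * (N : ℝ) ^ 2))) =
        12 / 10000 * (N0 * (1 / N)) := by field_simp; ring
    have h8 := mul_le_mul_of_nonneg_left h2 (by positivity : (0 : ℝ) ≤ N0)
    have h9 : ∀ x : ℝ, (N0 : ℝ) / (4 * x) = N0 * (1 / x) / 4 := fun x => by ring
    have : 0 ≤ (N0 : ℝ) * (1 / N) := by positivity
    rw [h9] at h ⊢
    linarith only [h, h6, h7, h8, this]
  · have h8 := mul_le_mul_of_nonneg_left h2 (by positivity : (0 : ℝ) ≤ N0 ^ 2)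
    have h9 := mul_le_mul_of_nonneg_right (by nlinarith only [h0'] : (101 : ℝ) ≤ N0 ^ 2) h5.le
    rw [div_eq_mul_one_div ((N0 : ℝ) ^ 2), div_eq_mul_one_div ((N0 : ℝ) ^ 2)]
    linarith only [h4, h8, h9]

theorem uniform : ∃ c : ℝ, 0 < c ∧ ∃ X₀ : ℝ, ∀ a : ℤ, a % 3 ≠ 0 → ∀ X : ℝ, X₀ ≤ X →
    ∃ S : Finset ℤ, c * X ≤ S.card ∧ ∀ n ∈ S, |(n : ℝ)| ≤ |(a : ℝ)| * X ∧ ∃ k, T^[k] n = a := by
  obtain ⟨N0, h0, h1, h2⟩ := exists_start
  obtain ⟨b, hb, hs⟩ := mass_start (by omega) h1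
  obtain ⟨D, hD⟩ := exists_root (N0 + N0 / 50)
  have hD0 : (0 : ℝ) < D + 2 * N0 + 1 := by positivity
  have h0' : (2000 : ℝ) ≤ N0 := by exact_mod_cast h0
  have hmu : 0 < mu + 1 / 800 := by linarith only [mu_ge]
  refine ⟨1 / (16 * (D + 2 * N0 + 1)), by positivity,
    (D + 2 * N0 + 1) * Real.exp ((mu + 1 / 800) * (N0 + N0 / 50 : ℕ)), fun a ha X hX => ?_⟩
  obtain ⟨a', h3, h4, ⟨j0, h5⟩, h6⟩ := hD b hb a ha
  obtain ⟨Y, rfl⟩ : ∃ Y, X = (D + 2 * N0 + 1) * Y := ⟨X / (D + 2 * N0 + 1), by field_simp⟩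
  have hY := le_of_mul_le_mul_left hX hD0
  have hY0 : 0 < Y := (Real.exp_pos _).trans_le hY
  obtain ⟨N, ⟨hN, hm⟩, h7, h8⟩ := exists_cross (f := fun N => N + N / 50) (N0 := N0)
    (P := fun N => N0 ≤ N ∧ 1 / 4 + (N0 : ℝ) / (4 * N) ≤ mass (2 * N0 - N0 ^ 2 / N) N a')
    (y := Real.log Y / (mu + 1 / 800))
    ⟨le_rfl, by
      rw [show (2 : ℝ) * N0 - N0 ^ 2 / N0 = N0 by field_simp; ring,
        show 1 / 4 + (N0 : ℝ) / (4 * N0) = 1 / 2 by field_simp; ring]
      exact hs a' h3⟩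
    (fun N hN => ⟨⟨by omega, mass_chain h0 hN.1 (h2 N hN.1).1 hN.2⟩, by omega⟩)
    (by rw [le_div_iff₀ hmu, mul_comm]; exact (Real.le_log_iff_exp_le hY0).2 hY)
  have hN' : (N0 : ℝ) ≤ N := by exact_mod_cast hN
  have hp : (0 : ℝ) < N := by linarith only [h0', hN']
  have hK : (N0 : ℝ) ^ 2 / N ≤ N0 := by rw [div_le_iff₀ hp]; nlinarith only [hN']
  have hK' : (0 : ℝ) ≤ N0 ^ 2 / N := by positivity
  have h9 := sum_nodes (K := 2 * N0 - N0 ^ 2 / N) (Y := Y) (by linarith only [hK]) (h2 N hN).1 (h2 N hN).2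
    (by rw [le_div_iff₀ hmu, mul_comm] at h7; exact (Real.le_log_iff_exp_le hY0).1 h7)
    (by
      rw [div_lt_iff₀ hmu] at h8
      refine (Real.log_lt_iff_lt_exp hY0).1 (h8.trans_le ?_)
      have h10 : 101 * (N + N / 50 + (N + N / 50) / 50) ≤ 99 * (N + N / 50 + N / 20) := by omega
      have h11 : N + N / 50 + (N + N / 50) / 50 ≤ N + N / 50 + N / 20 := by omega
      generalize N + N / 50 + (N + N / 50) / 50 = u at h10 h11
      generalize N + N / 50 + N / 20 = v at h10 h11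
      have h10' : (101 : ℝ) * u ≤ 99 * v := by exact_mod_cast h10
      have h11' : (u : ℝ) ≤ v := by exact_mod_cast h11
      nlinarith only [mu_ge, h10']) a'
  refine ⟨(range (N / 20)).biUnion fun j => nodes Y (2 * N0 - N0 ^ 2 / N + 1) (N + (N / 50 + j)) a',
    ?_, fun n hn => ?_⟩
  · rw [card_biUnion, Nat.cast_sum]
    · refine le_trans ?_ h9
      have h10 : (((N / 20 : ℕ) : ℝ) + 1) * ((N + 1) * (2 * N0 - N0 ^ 2 / N + 1) *
          (1 / (10000 * (N : ℝ) ^ 3))) ≤ N * (2 * N * (3 * N) * (1 / (10000 * (N : ℝ) ^ 3))) := by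
        have : ((N / 20 : ℕ) : ℝ) + 1 ≤ N := by exact_mod_cast (by omega : N / 20 + 1 ≤ N)
        have : (0 : ℝ) ≤ 2 * N0 - N0 ^ 2 / N + 1 := by linarith only [hK]
        gcongr <;> linarith only [h0', hN', hK']
      have h11 : (N : ℝ) * (2 * N * (3 * N) * (1 / (10000 * (N : ℝ) ^ 3))) = 6 / 10000 := by
        field_simp; ring
      have h12 : (0 : ℝ) ≤ N0 / (4 * N) := by positivity
      rw [show 1 / (16 * ((D : ℝ) + 2 * N0 + 1)) * ((D + 2 * N0 + 1) * Y) = Y / 2 * (1 / 8) by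
        field_simp; ring]
      exact mul_le_mul_of_nonneg_left (by linarith only [hm, h10, h11, h12]) (by positivity)
    · have key : ∀ i j n, i < j → T^[N + (N / 50 + i)] n = a' → T^[N + (N / 50 + j)] n ≠ a' := by
        intro i j n hij hi hj
        rw [show N + (N / 50 + j) = j - i + (N + (N / 50 + i)) by omega, iterate_add_apply, hi] at hj
        exact h6 _ (by omega) hj
      intro i _ j _ hij
      refine disjoint_left.2 fun n hi hj => ?_
      have hi' := mem_fib.1 (mem_filter.1 hi).1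
      have hj' := mem_fib.1 (mem_filter.1 hj).1
      rcases lt_or_gt_of_ne hij with h | h
      · exact key i j n h hi' hj'
      · exact key j i n h hj' hi'
  · obtain ⟨j, -, hj⟩ := mem_biUnion.1 hn
    refine ⟨(nodes_abs (by linarith only [hK]) hj).trans ?_,
      j0 + (N + (N / 50 + j)), by rw [iterate_add_apply, mem_fib.1 (mem_filter.1 hj).1, h5]⟩
    have h10 : |(a' : ℝ)| ≤ D * |(a : ℝ)| := by exact_mod_cast h4
    have h11 : (1 : ℝ) ≤ |(a : ℝ)| := by
      exact_mod_cast Int.one_le_abs (by rintro rfl; simp at ha)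
    rw [← mul_assoc]
    refine mul_le_mul_of_nonneg_right ?_ hY0.le
    nlinarith only [hK', h10, h11]

end Pool.Agent.MP_158692_nt
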